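import Mathlib

/-!
# A nonzero Dirichlet coefficient of a linear combination
-/
set_option autoImplicit false

namespace Pool.Agent.X284.LI

open Finset

/-- a linear combination of different multiplicative functions does not vanish on the integers
prime to a given finite set -/
theorem exists_s {J : Type} [Fintype J] {c : J → ℕ → ℂ} (h1 : ∀ j, c j 1 = 1)
    (hmul : ∀ j (a b : ℕ), Nat.Coprime a b → c j (a * b) = c j a * c j b)
    (hne : ∀ i j, i ≠ j → {p : ℕ | p.Prime ∧ c i p ≠ c j p}.Infinite) :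
    ∀ (n : ℕ) (a : J → ℂ), (∃ k, a k ≠ 0) →
      (univ.filter (fun j => a j ≠ 0)).card ≤ n → ∀ Z : Finset ℕ,
      ∃ s : ℕ, 1 ≤ s ∧ (∀ p : ℕ, p.Prime → p ∣ s → p ∉ Z) ∧ ∑ j, a j * c j s ≠ 0 := by
  classical
  intro n
  induction n with
  | zero =>
    intro a ⟨k, hk⟩ hcard
    exfalso
    have h2 : k ∈ univ.filter (fun j => a j ≠ 0) := by simp [hk]
    have h3 := card_pos.2 ⟨k, h2⟩
    omega
  | succ n ih =>
    intro a ⟨k, hk⟩ hcard Z
    by_cases hex : ∃ i, i ≠ k ∧ a i ≠ 0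
    · obtain ⟨i, hik, hi⟩ := hex
      obtain ⟨ℓ, hℓ, hℓZ⟩ := (hne k i hik.symm).exists_notMem_finset Z
      obtain ⟨hℓp, hℓne⟩ := hℓ
      obtain ⟨s, hs1, hs2, hs3⟩ := ih (fun j => a j * (c j ℓ - c i ℓ))
        ⟨k, mul_ne_zero hk (sub_ne_zero.2 hℓne)⟩ (by
          have hsub : univ.filter (fun j => a j * (c j ℓ - c i ℓ) ≠ 0) ⊆
              (univ.filter (fun j => a j ≠ 0)).erase i := by
            intro j hj
            rw [mem_filter] at hj
            rw [mem_erase, mem_filter]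
            refine ⟨?_, mem_univ _, left_ne_zero_of_mul hj.2⟩
            rintro rfl
            exact hj.2 (by rw [sub_self, mul_zero])
          have h5 := card_le_card hsub
          rw [card_erase_of_mem (by simp [hi])] at h5
          omega) (insert ℓ Z)
      have hℓs : Nat.Coprime ℓ s := by
        rw [hℓp.coprime_iff_not_dvd]
        intro hd
        exact hs2 ℓ hℓp hd (mem_insert_self _ _)
      have hs2' : ∀ p : ℕ, p.Prime → p ∣ s → p ∉ Z := fun p hp hd hZ =>
        hs2 p hp hd (mem_insert_of_mem hZ)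
      by_cases h6 : ∑ j, a j * c j s = 0
      · refine ⟨ℓ * s, Nat.mul_pos hℓp.pos hs1, ?_, ?_⟩
        · intro p hp hd hZ
          rcases (hp.dvd_mul).1 hd with h | h
          · rw [(Nat.prime_dvd_prime_iff_eq hp hℓp).1 h] at hZ
            exact hℓZ hZ
          · exact hs2' p hp h hZ
        · intro h7
          apply hs3
          have e : ∑ j, a j * (c j ℓ - c i ℓ) * c j s =
              ∑ j, a j * c j (ℓ * s) - c i ℓ * ∑ j, a j * c j s := by
            rw [mul_sum, ← sum_sub_distrib]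
            refine sum_congr rfl fun j _ => ?_
            rw [hmul j ℓ s hℓs]
            ring
          rw [e, h7, h6, mul_zero, sub_zero]
      · exact ⟨s, hs1, hs2', h6⟩
    · push Not at hex
      refine ⟨1, le_rfl, fun p hp hd => ?_, ?_⟩
      · exact absurd (Nat.dvd_one.1 hd) hp.one_lt.ne'
      · rw [sum_eq_single k]
        · rw [h1, mul_one]
          exact hk
        · intro j _ hj
          rw [hex j hj, zero_mul]
        · intro h
          exact absurd (mem_univ k) h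

/-- a nonzero coefficient -/
theorem exists_n0 {J : Type} [Fintype J] {c : J → ℕ → ℂ} (h1 : ∀ j, c j 1 = 1)
    (hmul : ∀ j (a b : ℕ), Nat.Coprime a b → c j (a * b) = c j a * c j b)
    (hne : ∀ i j, i ≠ j → {p : ℕ | p.Prime ∧ c i p ≠ c j p}.Infinite)
    (B : Finset ℕ) (hB : ∀ b ∈ B, 1 ≤ b) (x : J → ℕ → ℂ) (hx : ∃ j, ∃ b ∈ B, x j b ≠ 0)
    (Z : Finset ℕ) (hZ : ∀ b ∈ B, ∀ p : ℕ, p.Prime → p ∣ b → p ∉ Z) :
    ∃ n0 : ℕ, 1 ≤ n0 ∧ (∀ p : ℕ, p.Prime → p ∣ n0 → p ∉ Z) ∧
      ∑ j, ∑ b ∈ B, x j b * (if b ∣ n0 then c j (n0 / b) / ((n0 / b : ℕ) : ℂ) else 0) ≠ 0 := by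
  classical
  obtain ⟨B', hB'⟩ : ∃ B' : Finset ℕ, B' = B.filter (fun b => ∃ j, x j b ≠ 0) := ⟨_, rfl⟩
  have hne' : B'.Nonempty := by
    obtain ⟨j, b, hb, hjb⟩ := hx
    exact ⟨b, by rw [hB', mem_filter]; exact ⟨hb, j, hjb⟩⟩
  obtain ⟨b0, hb0⟩ : ∃ b0 : ℕ, b0 = B'.min' hne' := ⟨_, rfl⟩
  have hb0m : b0 ∈ B' := by rw [hb0]; exact min'_mem _ _
  have hb0le : ∀ b ∈ B', b0 ≤ b := fun b hb => by rw [hb0]; exact min'_le _ _ hb
  rw [hB', mem_filter] at hb0m
  obtain ⟨hb0B, k, hk⟩ := hb0m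
  have hb01 := hB b0 hb0B
  obtain ⟨s, hs1, hs2, hs3⟩ := exists_s h1 hmul hne _ (fun j => x j b0) ⟨k, hk⟩ le_rfl
    (Z ∪ B.biUnion (fun b => b.primeFactors))
  have hcop : ∀ b ∈ B, Nat.Coprime b s := by
    intro b hb
    apply Nat.Coprime.symm
    apply Nat.coprime_of_dvd
    intro p hp hps hpb
    apply hs2 p hp hps
    rw [mem_union, mem_biUnion]
    exact Or.inr ⟨b, hb, Nat.mem_primeFactors.2 ⟨hp, hpb, by have := hB b hb; omega⟩⟩
  have hdvd : ∀ b ∈ B', b ∣ b0 * s ↔ b = b0 := by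
    intro b hb
    constructor
    · intro h
      have hbB : b ∈ B := by rw [hB', mem_filter] at hb; exact hb.1
      have h4 : b ∣ b0 := (hcop b hbB).dvd_of_dvd_mul_right h
      exact le_antisymm (Nat.le_of_dvd (by omega) h4) (hb0le b hb)
    · rintro rfl
      exact Dvd.intro _ rfl
  refine ⟨b0 * s, Nat.mul_pos (by omega) hs1, ?_, ?_⟩
  · intro p hp hd
    rcases (hp.dvd_mul).1 hd with h | h
    · exact hZ b0 hb0B p hp h
    · intro h5
      exact hs2 p hp h (mem_union_left _ h5)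
  · have e : ∑ j, ∑ b ∈ B, x j b *
        (if b ∣ b0 * s then c j (b0 * s / b) / ((b0 * s / b : ℕ) : ℂ) else 0) =
        (∑ j, x j b0 * c j s) / (s : ℂ) := by
      rw [sum_div]
      refine sum_congr rfl fun j _ => ?_
      rw [sum_eq_single b0]
      · rw [if_pos (Dvd.intro _ rfl), Nat.mul_div_cancel_left s (by omega)]
        ring
      · intro b hb hbne
        by_cases hxb : x j b = 0
        · rw [hxb, zero_mul]
        · have hbB' : b ∈ B' := by
            rw [hB', mem_filter]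
            exact ⟨hb, j, hxb⟩
          rw [if_neg (fun h => hbne ((hdvd b hbB').1 h)), mul_zero]
      · intro h
        exact absurd hb0B h
    rw [e]
    refine div_ne_zero hs3 ?_
    have : (s : ℂ) ≠ 0 := by
      have : s ≠ 0 := by omega
      exact_mod_cast this
    exact this

end Pool.Agent.X284.LI
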