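import Pool.Agent.X284.LI.Dual1
import Pool.Agent.X284.KS.MainN

/-!
# Sums over residue classes and the main part for one integer
-/
set_option autoImplicit false

namespace Pool.Agent.X284.LI

open Finset
open Pool.Agent.W192.CY
open Pool.Agent.W916.CY (ai ai_abs ai_one EE EE_pos summ_EE filt_card tau_le tau_mono)
open Pool.Agent.W55.CY (VV VV_abs VV_one)
open Pool.Agent.W372.CY (AA AA_norm AA_one sum_cg ai_nonneg)
open Pool.Agent.W928.CY (exp_le)

/-- the sum over a residue class, from `L` on -/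
theorem cls {q : ℕ} (hq : 1 ≤ q) (ρ : ZMod q) {η : ℝ} (hη : 0 < η) (hη' : η < 1 / 8) {L X : ℝ}
    (hL : 1 ≤ L) (hX : 0 < X) (T : Finset ℕ) (hT : ∀ n ∈ T, L ≤ n ∧ (n : ZMod q) = ρ) :
    ∑ n ∈ T, (n : ℝ) ^ (-1 / 2 + η) * EE X n ≤ L ^ (-1 / 2 + η) +
      X ^ (1 / 2 + 2 * η) * (q : ℝ) ^ (-(1 + η)) * ∑' n : ℕ, (n : ℝ) ^ (-(1 + η)) := by
  classical
  have : NeZero q := ⟨by omega⟩
  have hsum : Summable (fun n : ℕ => (n : ℝ) ^ (-(1 + η))) :=
    Real.summable_nat_rpow.2 (by linarith)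
  have hqR : (0 : ℝ) < q := by exact_mod_cast hq
  rw [← sum_filter_add_sum_filter_not T (fun n => n < q)]
  refine add_le_add ?_ ?_
  · have h1 : (T.filter (fun n => n < q)).card ≤ 1 := by
      rw [card_le_one]
      intro a ha b hb
      rw [mem_filter] at ha hb
      have h3 : (a : ZMod q) = (b : ZMod q) := by rw [(hT a ha.1).2, (hT b hb.1).2]
      rw [ZMod.natCast_eq_natCast_iff', Nat.mod_eq_of_lt ha.2, Nat.mod_eq_of_lt hb.2] at h3
      exact h3
    have h2 : ∀ n ∈ T.filter (fun n => n < q), (n : ℝ) ^ (-1 / 2 + η) * EE X n ≤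
        L ^ (-1 / 2 + η) := by
      intro n hn
      rw [mem_filter] at hn
      have hLn := (hT n hn.1).1
      have h3 : (n : ℝ) ^ (-1 / 2 + η) ≤ L ^ (-1 / 2 + η) :=
        Real.rpow_le_rpow_of_nonpos (by linarith) hLn (by linarith)
      have h4 : EE X n ≤ 1 := by
        unfold EE
        rw [Real.exp_le_one_iff, neg_nonpos]
        positivity
      calc (n : ℝ) ^ (-1 / 2 + η) * EE X n ≤ L ^ (-1 / 2 + η) * 1 :=
            mul_le_mul h3 h4 (EE_pos _ _).le (by positivity)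
        _ = _ := mul_one _
    calc _ ≤ (T.filter (fun n => n < q)).card • L ^ (-1 / 2 + η) := sum_le_card_nsmul _ _ _ h2
      _ ≤ 1 • L ^ (-1 / 2 + η) := by
          refine nsmul_le_nsmul_left (by positivity) h1
      _ = _ := one_nsmul _
  · have h2 : ∀ n ∈ T.filter (fun n => ¬ n < q), (n : ℝ) ^ (-1 / 2 + η) * EE X n ≤
        X ^ (1 / 2 + 2 * η) * (q : ℝ) ^ (-(1 + η)) * ((n / q : ℕ) : ℝ) ^ (-(1 + η)) := by
      intro n hn
      rw [mem_filter, not_lt] at hn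
      have hn0 : (0 : ℝ) < n := by
        have : 0 < n := by omega
        exact_mod_cast this
      have hk : 0 < n / q := Nat.div_pos hn.2 (by omega)
      have hkR : (0 : ℝ) < ((n / q : ℕ) : ℝ) := by exact_mod_cast hk
      have hkq : (q : ℝ) * ((n / q : ℕ) : ℝ) ≤ n := by exact_mod_cast Nat.mul_div_le n q
      have h4 : EE X n ≤ X ^ (1 / 2 + 2 * η) * (n : ℝ) ^ (-(1 / 2 + 2 * η)) := by
        unfold EE
        refine (exp_le (a := 1 / 2 + 2 * η) (by linarith) (by linarith) (div_pos hn0 hX)).trans ?_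
        rw [Real.div_rpow hn0.le hX.le, Real.rpow_neg hX.le, div_inv_eq_mul, mul_comm]
      calc (n : ℝ) ^ (-1 / 2 + η) * EE X n ≤ (n : ℝ) ^ (-1 / 2 + η) *
            (X ^ (1 / 2 + 2 * η) * (n : ℝ) ^ (-(1 / 2 + 2 * η))) := by gcongr
        _ = X ^ (1 / 2 + 2 * η) * ((n : ℝ) ^ (-1 / 2 + η) * (n : ℝ) ^ (-(1 / 2 + 2 * η))) := by
            ring
        _ = X ^ (1 / 2 + 2 * η) * (n : ℝ) ^ (-(1 + η)) := by
            rw [← Real.rpow_add hn0]
            congr 2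
            ring
        _ ≤ X ^ (1 / 2 + 2 * η) * ((q : ℝ) * ((n / q : ℕ) : ℝ)) ^ (-(1 + η)) := by
            have := Real.rpow_le_rpow_of_nonpos (z := -(1 + η)) (by positivity) hkq (by linarith)
            gcongr
        _ = _ := by
            rw [Real.mul_rpow hqR.le hkR.le]
            ring
    refine (sum_le_sum h2).trans ?_
    rw [← mul_sum]
    refine mul_le_mul_of_nonneg_left ?_ (by positivity)
    have hinj : Set.InjOn (fun n : ℕ => n / q) (T.filter (fun n => ¬ n < q) : Finset ℕ) := by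
      intro a ha b hb hab
      rw [mem_coe, mem_filter] at ha hb
      have h3 : (a : ZMod q) = (b : ZMod q) := by rw [(hT a ha.1).2, (hT b hb.1).2]
      rw [ZMod.natCast_eq_natCast_iff'] at h3
      have h4 : a / q = b / q := hab
      rw [← Nat.div_add_mod a q, ← Nat.div_add_mod b q, h3, h4]
    rw [← sum_image (f := fun k : ℕ => (k : ℝ) ^ (-(1 + η))) hinj]
    exact hsum.sum_le_tsum _ (fun k _ => by positivity)

/-- the cardinality of the set of the classes -/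
theorem card_img {q : ℕ} [NeZero q] (H : Subgroup (ZMod q)ˣ) (β : ℕ) (T : Finset ℕ)
    (hT : ∀ n ∈ T, ∃ u ∈ H, ((u : (ZMod q)ˣ) : ZMod q) = ((β * n : ℕ) : ZMod q)) :
    (T.image (fun n : ℕ => ((β * n : ℕ) : ZMod q))).card ≤ Nat.card H := by
  classical
  have hfin : (H : Set (ZMod q)ˣ).Finite := Set.toFinite _
  have h1 : T.image (fun n : ℕ => ((β * n : ℕ) : ZMod q)) ⊆
      hfin.toFinset.image (fun u : (ZMod q)ˣ => (u : ZMod q)) := by
    intro y hy
    rw [mem_image] at hy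
    obtain ⟨n, hn, rfl⟩ := hy
    obtain ⟨u, hu, hu2⟩ := hT n hn
    rw [mem_image]
    exact ⟨u, (Set.Finite.mem_toFinset _).2 hu, hu2⟩
  refine (card_le_card h1).trans (card_image_le.trans ?_)
  rw [← Set.ncard_eq_toFinset_card _ hfin]
  exact (Nat.card_coe_set_eq (H : Set (ZMod q)ˣ)).symm.le

/-- the sum over a coset -/
theorem coset_sum {q : ℕ} (hq : 1 ≤ q) [NeZero q] (H : Subgroup (ZMod q)ˣ) {β : ℕ}
    (hβ : IsUnit (β : ZMod q)) {η : ℝ} (hη : 0 < η) (hη' : η < 1 / 8) {L X : ℝ}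
    (hL : 1 ≤ L) (hX : 0 < X) (T : Finset ℕ) (hT : ∀ n ∈ T, L ≤ n ∧
      ∃ u ∈ H, ((u : (ZMod q)ˣ) : ZMod q) = ((β * n : ℕ) : ZMod q)) :
    ∑ n ∈ T, (n : ℝ) ^ (-1 / 2 + η) * EE X n ≤ Nat.card H * (L ^ (-1 / 2 + η) +
      X ^ (1 / 2 + 2 * η) * (q : ℝ) ^ (-(1 + η)) * ∑' n : ℕ, (n : ℝ) ^ (-(1 + η))) := by
  classical
  rw [← sum_fiberwise_of_maps_to (t := T.image (fun n : ℕ => ((β * n : ℕ) : ZMod q)))
    (fun n hn => mem_image_of_mem _ hn)]
  obtain ⟨γ, hγ⟩ := hβ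
  have h1 : ∀ y ∈ T.image (fun n : ℕ => ((β * n : ℕ) : ZMod q)),
      ∑ n ∈ T.filter (fun n => ((β * n : ℕ) : ZMod q) = y), (n : ℝ) ^ (-1 / 2 + η) * EE X n ≤
      L ^ (-1 / 2 + η) +
      X ^ (1 / 2 + 2 * η) * (q : ℝ) ^ (-(1 + η)) * ∑' n : ℕ, (n : ℝ) ^ (-(1 + η)) := by
    intro y _
    refine cls hq (((γ⁻¹ : (ZMod q)ˣ) : ZMod q) * y) hη hη' hL hX _ ?_
    intro n hn
    rw [mem_filter] at hn
    refine ⟨(hT n hn.1).1, ?_⟩
    rw [← hn.2, Nat.cast_mul, ← hγ, ← mul_assoc, Units.inv_mul, one_mul]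
  refine (sum_le_card_nsmul _ _ _ h1).trans ?_
  rw [nsmul_eq_mul]
  have h2 : ((T.image (fun n : ℕ => ((β * n : ℕ) : ZMod q))).card : ℝ) ≤ Nat.card H := by
    exact_mod_cast card_img H β T (fun n hn => (hT n hn).2)
  have h3 : 0 ≤ ∑' n : ℕ, (n : ℝ) ^ (-(1 + η)) := tsum_nonneg fun n => by positivity
  refine mul_le_mul_of_nonneg_right h2 (by positivity)

/-- elements of a coset of a small subgroup are large -/
theorem coset_large {q : ℕ} [NeZero q] (H : Subgroup (ZMod q)ˣ) {h b n0 β n : ℕ}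
    (hH : Nat.card H ≤ h) (hq : n0 ^ h < q) (hn0 : 1 ≤ n0) (hβ : ((β * n0 : ℕ) : ZMod q) = b)
    (hu : ∃ u ∈ H, ((u : (ZMod q)ˣ) : ZMod q) = ((β * n : ℕ) : ZMod q)) (hne : n * b ≠ n0) :
    q < (n * b) ^ h := by
  obtain ⟨u, huH, hu⟩ := hu
  obtain ⟨c, hc⟩ : ∃ c : ℕ, c = Nat.card H := ⟨_, rfl⟩
  have hc1 : 0 < c := by rw [hc]; exact Nat.card_pos
  have h1 : u ^ c = 1 := by
    have h2 : (⟨u, huH⟩ : H) ^ c = 1 := by rw [hc]; exact pow_card_eq_one'
    have h3 := congrArg Subtype.val h2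
    simpa using h3
  have h2 : ((β * n : ℕ) : ZMod q) ^ c = 1 := by
    rw [← hu, ← Units.val_pow_eq_pow_val, h1, Units.val_one]
  have h3 : (((n * b) ^ c : ℕ) : ZMod q) = ((n0 ^ c : ℕ) : ZMod q) := by
    push_cast
    rw [← hβ]
    push_cast
    push_cast at h2
    calc ((n : ZMod q) * (β * n0)) ^ c = (β * n) ^ c * (n0 : ZMod q) ^ c := by ring
      _ = _ := by rw [h2, one_mul]
  have h4 : n0 ^ c < q := lt_of_le_of_lt (Nat.pow_le_pow_right hn0 (hc ▸ hH)) hq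
  have h5 : ¬ (n * b) ^ c < q := by
    intro h5
    rw [ZMod.natCast_eq_natCast_iff', Nat.mod_eq_of_lt h5, Nat.mod_eq_of_lt h4] at h3
    exact hne (Nat.pow_left_injective hc1.ne' h3)
  rw [not_lt] at h5
  have hn1 : 1 ≤ n * b := by
    by_contra hcon
    have : n * b = 0 := by omega
    rw [this, zero_pow hc1.ne'] at h5
    have := NeZero.ne q
    omega
  refine lt_of_le_of_ne (h5.trans (Nat.pow_le_pow_right hn1 (hc ▸ hH))) ?_
  intro h6
  -- `q = (n b) ^ h`, then `q = (n b) ^ c`, a contradiction modulo `q`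
  have h7 : (n * b) ^ c = q := le_antisymm
    ((Nat.pow_le_pow_right hn1 (hc ▸ hH)).trans h6.symm.le) h5
  rw [h7, ZMod.natCast_self, eq_comm, ZMod.natCast_eq_zero_iff] at h3
  have h8 := Nat.le_of_dvd (by positivity) h3
  omega

end Pool.Agent.X284.LI
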