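import Pool.Agent.W904.CY.Dualp

/-!
# The dual part for one integer, adapted from `Pool.Agent.W904.CY.Dualp`
-/
set_option autoImplicit false

namespace Pool.Agent.X284.LI

open Pool.Agent.W192.CY Pool.Agent.W928.CY Pool.Agent.W557.CYMDualp Pool.Agent.W904.CYNDualp

/-- coefficients bounded by `τ(n) √n` -/
structure Cb (c : ℕ → ℂ) : Prop where
  zero : c 0 = 0
  cle : ∀ n : ℕ, 1 ≤ n → ‖c n‖ ≤ n.divisors.card * Real.sqrt n

theorem dual_one (h1 : S_DIV) (h2 : M_MOB) (h3' : M_KLOO) {V : ℝ → ℝ} {CV : ℝ} (hV : VW V CV)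
    {N : ℕ} (hN : 1 ≤ N) {c : ℕ → ℂ} (hc : Cb c) {ε : ℝ} (hε : 0 < ε) (hε' : ε < 1 / 4) :
    ∃ C : ℝ, 0 < C ∧ ∀ (q : ℕ) [NeZero q] (χ₀ : DirichletCharacter ℂ q) (M : ℕ), 1 ≤ M →
      M ∣ orderOf χ₀ → ∀ b : ℕ,
      ‖∑ χ ∈ Em q χ₀ M,
      χ (b : ZMod q) * (χ (N : ZMod q) * gaussSum χ (ZMod.stdAddChar (N := q)) ^ 2 / q *
        ∑' n : ℕ, (starRingEnd ℂ) (χ (n : ZMod q)) * (starRingEnd ℂ) (c n) / n *
        (V (n / (N * Real.sqrt q / (2 * Real.pi ^ 2))) : ℂ))‖ ≤ C * (q : ℝ) ^ (3 / 4 + ε) := by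
  set η : ℝ := ε / 8 with hηd
  have hη : 0 < η := by rw [hηd]; linarith
  have hη' : η < 1 / 8 := by rw [hηd]; linarith
  obtain ⟨C1, hC1, hC, -⟩ := h1 η hη
  obtain ⟨Ck, hCk, h3⟩ := h3' η hη
  have hCV := hV.pos
  set a : ℝ := 1 / 2 + 2 * η with had
  have hsum : Summable (fun n : ℕ => (n : ℝ) ^ (-(1 + η))) :=
    Real.summable_nat_rpow.2 (by linarith)
  set S : ℝ := ∑' n : ℕ, (n : ℝ) ^ (-(1 + η)) with hS
  have hS0 : 0 ≤ S := tsum_nonneg fun n => Real.rpow_nonneg (Nat.cast_nonneg n) _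
  have hNr : (1 : ℝ) ≤ N := by exact_mod_cast hN
  refine ⟨Ck * (CV * C1 ^ 2) * (N : ℝ) ^ a * S + 1, by positivity, ?_⟩
  intro q _ χ₀ M hM hMd b
  set d := orderOf χ₀ with hdd
  have hqpos : 0 < q := Nat.pos_of_ne_zero (NeZero.ne q)
  have hq0 : (0 : ℝ) < q := by exact_mod_cast hqpos
  have hq1 : (1 : ℝ) ≤ q := by exact_mod_cast hqpos
  set Y : ℝ := N * Real.sqrt q / (2 * Real.pi ^ 2) with hYd
  have hY : 0 < Y := by rw [hYd]; positivity
  set Z : ℝ := 2 * Y with hZd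
  have hZ : 0 < Z := by rw [hZd]; positivity
  have hpi : (1 : ℝ) ≤ Real.pi ^ 2 := by nlinarith [Real.pi_gt_three]
  have hZle : Z ≤ N * Real.sqrt q := by
    have e : Z = N * Real.sqrt q / Real.pi ^ 2 := by
      rw [hZd, hYd]
      field_simp
    rw [e]
    exact div_le_self (by positivity) hpi
  have hZa : Z ^ a ≤ (N : ℝ) ^ a * (q : ℝ) ^ (1 / 4 + η) := by
    refine (Real.rpow_le_rpow hZ.le hZle (by rw [had]; linarith)).trans (le_of_eq ?_)
    rw [Real.mul_rpow (by positivity) (Real.sqrt_nonneg _), Real.sqrt_eq_rpow,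
      ← Real.rpow_mul hq0.le]
    congr 2
    rw [had]; ring
  set τ : ℝ := (d.divisors.card : ℝ) with hτ
  have hd1 : 1 ≤ d := orderOf_pos χ₀
  have hdq : (d : ℝ) ≤ q := by
    obtain ⟨φ⟩ := DirichletCharacter.mulEquiv_units ℂ q
    have h8 : Nat.card (DirichletCharacter ℂ q) = q.totient := by
      rw [Nat.card_congr φ.toEquiv, Nat.card_eq_fintype_card, ZMod.card_units_eq_totient]
    have h9 : d ∣ q.totient := by
      rw [← h8]
      exact orderOf_dvd_natCard χ₀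
    exact_mod_cast (Nat.le_of_dvd (Nat.totient_pos.2 hqpos) h9).trans (Nat.totient_le q)
  have hτle : τ ≤ C1 * (q : ℝ) ^ η := by
    refine (hC d hd1).trans (mul_le_mul_of_nonneg_left ?_ hC1.le)
    exact Real.rpow_le_rpow (by positivity) hdq hη.le
  -- the inner sums
  have hin : ‖∑ χ ∈ Em q χ₀ M,
      χ (b : ZMod q) * (χ (N : ZMod q) * gaussSum χ (ZMod.stdAddChar (N := q)) ^ 2 / q *
        ∑' n : ℕ, (starRingEnd ℂ) (χ (n : ZMod q)) * (starRingEnd ℂ) (c n) / n *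
        (V (n / Y) : ℂ))‖ ≤ Ck * τ * (q : ℝ) ^ (1 / 2 + η) * (CV * C1 * Z ^ a) * S := by
    set an : ℕ → ℂ := fun n => (starRingEnd ℂ) (c n) / n * (V (n / Y) : ℂ) with han
    have hanb : ∀ n, ‖an n‖ ≤ CV * C1 * Z ^ a * (n : ℝ) ^ (-(1 + η)) := by
      intro n
      rw [han]
      show ‖(starRingEnd ℂ) (c n) / n * (V (n / Y) : ℂ)‖ ≤ _
      rw [norm_mul, norm_div, RCLike.norm_conj, Complex.norm_natCast, Complex.norm_real,
        Real.norm_eq_abs]
      have t1 := termC (a := fun n => ‖c n‖) (by simp [hc.zero])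
        (fun n hn => by rw [abs_norm]; exact hc.cle n hn) hη hη' hC hC1 hZ n
      have t2 := hV.dec (n / Y) (by positivity)
      have t3 : (n : ℝ) / Y / 2 = n / Z := by
        rw [hZd]
        field_simp
      rw [t3] at t2
      have t4 : |‖c n‖ / (n : ℝ) * Real.exp (-(n / Z))| = ‖c n‖ / (n : ℝ) * Real.exp (-(n / Z)) :=
        abs_of_nonneg (by positivity)
      rw [t4] at t1
      calc ‖c n‖ / n * |V (n / Y)| ≤ ‖c n‖ / n * (CV * Real.exp (-(n / Z))) :=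
            mul_le_mul_of_nonneg_left t2 (by positivity)
        _ = CV * (‖c n‖ / n * Real.exp (-(n / Z))) := by ring
        _ ≤ CV * (C1 * Z ^ (1 / 2 + 2 * η) * (n : ℝ) ^ (-(1 + η))) :=
            mul_le_mul_of_nonneg_left t1 hCV.le
        _ = _ := by rw [had]; ring
    have hans : Summable (fun n => ‖an n‖) :=
      Summable.of_nonneg_of_le (fun n => norm_nonneg _) hanb (hsum.mul_left _)
    have e1 : ∀ χ : DirichletCharacter ℂ q, ∀ n : ℕ,
        (starRingEnd ℂ) (χ (n : ZMod q)) * (starRingEnd ℂ) (c n) / n * (V (n / Y) : ℂ) =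
        (starRingEnd ℂ) (χ (n : ZMod q)) * an n := by
      intro χ n
      rw [han]
      ring
    have hs : ∀ χ : DirichletCharacter ℂ q,
        Summable (fun n : ℕ => (starRingEnd ℂ) (χ (n : ZMod q)) * an n) := by
      intro χ
      refine Summable.of_norm_bounded hans fun n => ?_
      rw [norm_mul, RCLike.norm_conj]
      exact mul_le_of_le_one_left (norm_nonneg _) (DirichletCharacter.norm_le_one χ _)
    have e2 : ∑ χ ∈ Em q χ₀ M, χ (b : ZMod q) * (χ (N : ZMod q) *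
        gaussSum χ (ZMod.stdAddChar (N := q)) ^ 2 / q *
        ∑' n : ℕ, (starRingEnd ℂ) (χ (n : ZMod q)) * (starRingEnd ℂ) (c n) / n *
        (V (n / Y) : ℂ)) =
        ∑' n : ℕ, ∑ χ ∈ Em q χ₀ M, χ (b : ZMod q) * (χ (N : ZMod q) *
        gaussSum χ (ZMod.stdAddChar (N := q)) ^ 2 / q *
          ((starRingEnd ℂ) (χ (n : ZMod q)) * an n)) := by
      rw [Summable.tsum_finsetSum fun χ _ => ((hs χ).mul_left _).mul_left _]
      refine Finset.sum_congr rfl fun χ _ => ?_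
      rw [tsum_congr (e1 χ), tsum_mul_left, tsum_mul_left]
    rw [e2]
    refine tsum_of_norm_bounded ((hsum.hasSum).mul_left
      (Ck * τ * (q : ℝ) ^ (1 / 2 + η) * (CV * C1 * Z ^ a))) ?_
    intro n
    have e3 : ∑ χ ∈ Em q χ₀ M, χ (b : ZMod q) * (χ (N : ZMod q) *
        gaussSum χ (ZMod.stdAddChar (N := q)) ^ 2 / q *
          ((starRingEnd ℂ) (χ (n : ZMod q)) * an n)) =
        (∑ χ ∈ Em q χ₀ M, χ (b : ZMod q) * (χ (N : ZMod q) *
        gaussSum χ (ZMod.stdAddChar (N := q)) ^ 2 / q *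
          (starRingEnd ℂ) (χ (n : ZMod q)))) * an n := by
      rw [Finset.sum_mul]
      refine Finset.sum_congr rfl fun χ _ => ?_
      ring
    rw [e3, norm_mul]
    calc _ ≤ (Ck * τ * (q : ℝ) ^ (1 / 2 + η)) * (CV * C1 * Z ^ a * (n : ℝ) ^ (-(1 + η))) :=
          mul_le_mul (keyM h2 hCk q χ₀ M hM hMd (h3 q χ₀) b N n) (hanb n) (norm_nonneg _)
            (by positivity)
      _ = _ := by ring
  refine hin.trans ?_
  calc Ck * τ * (q : ℝ) ^ (1 / 2 + η) * (CV * C1 * Z ^ a) * S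
      ≤ Ck * (C1 * (q : ℝ) ^ η) * (q : ℝ) ^ (1 / 2 + η) *
        (CV * C1 * ((N : ℝ) ^ a * (q : ℝ) ^ (1 / 4 + η))) * S := by gcongr
    _ = Ck * (CV * C1 ^ 2) * (N : ℝ) ^ a * S * ((q : ℝ) ^ η *
        (q : ℝ) ^ (1 / 2 + η) * (q : ℝ) ^ (1 / 4 + η)) := by ring
    _ = Ck * (CV * C1 ^ 2) * (N : ℝ) ^ a * S * (q : ℝ) ^ (3 / 4 + 3 * η) := by
        rw [← Real.rpow_add hq0, ← Real.rpow_add hq0]
        congr 2
        ring
    _ ≤ (Ck * (CV * C1 ^ 2) * (N : ℝ) ^ a * S + 1) * (q : ℝ) ^ (3 / 4 + ε) := by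
        have h5 : (q : ℝ) ^ (3 / 4 + 3 * η) ≤ (q : ℝ) ^ (3 / 4 + ε) :=
          Real.rpow_le_rpow_of_exponent_le hq1 (by rw [hηd]; linarith)
        have h6 : 0 ≤ Ck * (CV * C1 ^ 2) * (N : ℝ) ^ a * S := by positivity
        have h7 : (0 : ℝ) < (q : ℝ) ^ (3 / 4 + ε) := by positivity
        nlinarith [mul_le_mul_of_nonneg_left h5 h6]

end Pool.Agent.X284.LI
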