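import Pool.Agent.X284.KS.PackN

/-!
The twists of a newform of weight `2 m` with nebentypus: functional equation and algebraicity at the
centre.
-/

set_option autoImplicit false

open Complex Filter Topology Set UpperHalfPlane MatrixGroups CongruenceSubgroup ZMod

namespace Pool.Agent.X284.LI

open Pool.Agent.W192.CY
open Pool.Agent.X284.KS
open Pool.Agent.W440.TW (inv_primitive gauss_ne_zero gauss_conj)

theorem packL {m N : ℕ} [NeZero N] (hm : 1 ≤ m) {η : DirichletCharacter ℂ N}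
    {f : CuspForm (Gamma1 N : Subgroup (GL (Fin 2) ℝ)) (2 * m : ℤ)} {w : ℂ}
    (hf : NNewf m N η f w) :
    ∃ (W : Submodule ℚ ℂ) (F : (q : ℕ) → DirichletCharacter ℂ q → ℂ → ℂ), W.FG ∧
      (∀ (q : ℕ) (χ : DirichletCharacter ℂ q), 1 ≤ q → Nat.Coprime q N → χ.IsPrimitive →
        Differentiable ℂ (F q χ) ∧ (∀ s : ℂ, (m : ℝ) + 1 / 2 < s.re →
          HasProd (fun p : Nat.Primes =>
            (1 - χ ((p : ℕ) : ZMod q) * cf f p * ((p : ℕ) : ℂ) ^ (-s) +
              χ ((p : ℕ) : ZMod q) ^ 2 * η ((p : ℕ) : ZMod N) *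
                ((p : ℕ) : ℂ) ^ (2 * (m : ℂ) - 1 - 2 * s))⁻¹) (F q χ s))) ∧
      (∀ (q : ℕ) [NeZero q] (χ : DirichletCharacter ℂ q), Nat.Coprime q N → χ.IsPrimitive →
        ∀ X Y : ℝ, 0 < X → 0 < Y → X * Y = N * (q : ℝ) ^ 2 / (4 * Real.pi ^ 2) →
        F q χ m = ∑' n : ℕ, χ (n : ZMod q) * (cf f n / (n : ℂ) ^ (m - 1)) / n *
            (Vk m (n / X) : ℂ) +
          (w * η (q : ZMod N)) * χ (N : ZMod q) * gaussSum χ (ZMod.stdAddChar (N := q)) ^ 2 / q *
          ∑' n : ℕ, (starRingEnd ℂ) (χ (n : ZMod q)) *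
            (starRingEnd ℂ) (cf f n / (n : ℂ) ^ (m - 1)) / n * (Vk m (n / Y) : ℂ)) ∧
      ∀ (q : ℕ) [NeZero q], Nat.Coprime q N → ∃ v : (ZMod q)ˣ → ℂ, (∀ u, v u ∈ W) ∧
        ∀ ψ : DirichletCharacter ℂ q, ψ.IsPrimitive →
          gaussSum ψ⁻¹ (stdAddChar (N := q)) * F q ψ m =
            ∑ u : (ZMod q)ˣ, ψ⁻¹ (u : ZMod q) * v u := by
  classical
  have hNn : 0 < N := Nat.pos_of_ne_zero (NeZero.ne N)
  have hN1 : (1 : ℝ) ≤ N := by exact_mod_cast hNn
  have hN0 : (0 : ℝ) < N := by linarith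
  have hsN : 1 ≤ Real.sqrt N := Real.one_le_sqrt.2 hN1
  have hpi := Real.pi_pos
  have hmr : (1 : ℝ) ≤ m := by exact_mod_cast hm
  obtain ⟨K, hK, hmel⟩ := mellinB m hm ((m : ℝ) + 1) 1 (by positivity) (by linarith)
  -- the functions
  have hex : ∀ (q : ℕ) (χ : DirichletCharacter ℂ q), ∃ F : ℂ → ℂ,
      (∀ (_ : NeZero q), 1 ≤ q → Nat.Coprime q N → χ.IsPrimitive → Differentiable ℂ F ∧
        (∀ s : ℂ, (m : ℝ) + 1 / 2 < s.re →
          F s = ∑' n : ℕ, χ (n : ZMod q) * cf f n * (n : ℂ) ^ (-s)) ∧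
        (∀ X Y : ℝ, 0 < X → 0 < Y → X * Y = N * (q : ℝ) ^ 2 / (4 * Real.pi ^ 2) →
          F m = ∑' n : ℕ, χ (n : ZMod q) * cf f n / (n : ℂ) ^ m * (Vk m (n / X) : ℂ) +
            ((w * η (q : ZMod N)) * χ (N : ZMod q) *
              gaussSum χ (ZMod.stdAddChar (N := q)) ^ 2 / q) *
            ∑' n : ℕ, (starRingEnd ℂ) (χ (n : ZMod q) * cf f n) / (n : ℂ) ^ m *
              (Vk m (n / Y) : ℂ))) := by
    intro q χ
    by_cases h : 1 ≤ q ∧ Nat.Coprime q N ∧ χ.IsPrimitive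
    · obtain ⟨h1, h2, h3⟩ := h
      have : NeZero q := ⟨by omega⟩
      have hq1 : (1 : ℝ) ≤ q := by exact_mod_cast h1
      have hRq : 1 ≤ Real.sqrt N * q := by nlinarith
      set w' : ℂ := (w * η (q : ZMod N)) * χ (N : ZMod q) *
        gaussSum χ (stdAddChar (N := q)) ^ 2 / q with hw'
      have hχi := inv_primitive χ h3
      have hg0 : gaussSum χ (stdAddChar (N := q)) ≠ 0 := gauss_ne_zero χ h3
      have hwn : ‖w'‖ = 1 := by
        have e1 : ‖gaussSum χ⁻¹ (stdAddChar (N := q))‖ = ‖gaussSum χ (stdAddChar (N := q))‖ :=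
          gauss_conj χ
        have e2 : ‖χ (-(N : ZMod q))‖ = 1 := by
          have hu : IsUnit (-(N : ZMod q)) :=
            ((ZMod.isUnit_iff_coprime N q).2 h2.symm).neg
          have := χ.unit_norm_eq_one hu.unit
          simpa using this
        have e3 : ‖η (q : ZMod N)‖ = 1 := by
          have hu : IsUnit (q : ZMod N) := (ZMod.isUnit_iff_coprime q N).2 h2
          have := η.unit_norm_eq_one hu.unit
          simpa using this
        rw [hw', ← Pool.Agent.W378.CY.root_number q χ h3 (w * η (q : ZMod N)) (N : ZMod q),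
          norm_div, norm_mul, norm_mul, norm_mul, hf.norm, e3, e2, e1, one_mul, one_mul, one_mul]
        exact div_self (norm_ne_zero_iff.2 hg0)
      have htheta : ∀ t : ℝ, 0 < t → ∑' n : ℕ, χ (n : ZMod q) * cf f n *
          (Real.exp (-(2 * Real.pi * n / (Real.sqrt N * q)) / t) : ℂ) =
          w' * (t : ℂ) ^ (2 * m) * ∑' n : ℕ, (starRingEnd ℂ) (χ (n : ZMod q) * cf f n) *
            (Real.exp (-(2 * Real.pi * n / (Real.sqrt N * q)) * t) : ℂ) := fun t ht =>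
        Pool.Agent.W597.CYN.n_twist m hm N η f w hf q χ h2 h3 t ht
      obtain ⟨F, hF1, hF2, hF3, hF4⟩ := hmel (fun n => χ (n : ZMod q) * cf f n)
        (Real.sqrt N * q) hRq (by rw [cf_zero, mul_zero]) (fun n hn => by
          rw [norm_mul]
          have e1 := DirichletCharacter.norm_le_one χ (n : ZMod q)
          calc ‖χ (n : ZMod q)‖ * ‖cf f n‖ ≤ 1 * ‖cf f n‖ := by
                gcongr
            _ = ‖cf f n‖ := one_mul _
            _ ≤ _ := cf_bound hm hf hn) w' hwn htheta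
      have hR2 : ∀ X Y : ℝ, X * Y = N * (q : ℝ) ^ 2 / (4 * Real.pi ^ 2) →
          X * Y = (Real.sqrt N * q) ^ 2 / (4 * Real.pi ^ 2) := by
        intro X Y h
        rw [h, mul_pow, Real.sq_sqrt hN0.le]
      have hser : ∀ s : ℂ, (m : ℝ) + 1 / 2 < s.re →
          F s = ∑' n : ℕ, χ (n : ZMod q) * cf f n * (n : ℂ) ^ (-s) := by
        intro s hs
        exact Pool.Agent.TH936.HK.ext_series F hF1 (fun n => χ (n : ZMod q) * cf f n)
          (by rw [cf_zero, mul_zero]) ((m : ℝ) + 1 / 2)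
          (fun s hs => (n_eul m hm N η f w hf q χ s hs).1) ((m : ℝ) + 1 + 2) hF2 s hs
      exact ⟨F, fun _ _ _ _ => ⟨hF1, hser, fun X Y hX hY hXY => hF3 X Y hX hY (hR2 X Y hXY)⟩⟩
    · exact ⟨fun _ => 0, fun _ h1 h2 h3 => absurd ⟨h1, h2, h3⟩ h⟩
  choose F hF using hex
  obtain ⟨c1, W, hW⟩ := newf_space hm hf
  have hterm : ∀ (z : ℂ) (n : ℕ), z * cf f n / (n : ℂ) ^ m =
      z * (cf f n / (n : ℂ) ^ (m - 1)) / n := by
    intro z n
    rcases Nat.eq_zero_or_pos n with rfl | hn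
    · rw [cf_zero]; simp
    · have hn' : (n : ℂ) ≠ 0 := by exact_mod_cast hn.ne'
      have e : (n : ℂ) ^ m = (n : ℂ) ^ (m - 1) * n := by
        rw [← pow_succ]; congr 1; omega
      rw [e]
      field_simp
  refine ⟨W.map (LinearMap.mulLeft ℚ ((2 * Real.pi * Complex.I : ℂ) ^ m)), F, hW.fg.map _,
    ?_, ?_, ?_⟩
  · intro q χ hq hqN hχ
    have : NeZero q := ⟨by omega⟩
    obtain ⟨g1, g2, g3⟩ := hF q χ inferInstance hq hqN hχ
    refine ⟨g1, fun s hs => ?_⟩
    have h5 := (n_eul m hm N η f w hf q χ s hs).2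
    rw [← g2 s hs] at h5
    exact h5
  · intro q _ ψ hqN hψ X Y hX hY hXY
    have hq1 : 1 ≤ q := Nat.one_le_iff_ne_zero.2 (NeZero.ne q)
    have h1 := (hF q ψ inferInstance hq1 hqN hψ).2.2 X Y hX hY hXY
    rw [h1]
    congr 1
    · refine tsum_congr fun n => ?_
      rw [hterm]
    · congr 1
      refine tsum_congr fun n => ?_
      congr 1
      rw [map_mul]
      have h2 := congrArg (starRingEnd ℂ) (hterm (ψ (n : ZMod q)) n)
      simp only [map_div₀, map_mul, map_pow, Complex.conj_natCast] at h2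
      rw [h2, map_div₀, map_pow, Complex.conj_natCast]
  · intro q _ hqN
    have hq1 : 1 ≤ q := Nat.one_le_iff_ne_zero.2 (NeZero.ne q)
    obtain ⟨v, hv1, hv2⟩ := center hm (cf_Bd hm hf) (Bd_conj (cf_Bd hm hf)) hW hqN
    refine ⟨v, hv1, fun ψ hψ => ?_⟩
    refine hv2 ψ⁻¹ (inv_primitive ψ hψ) (F q ψ m)
      ((w * η (q : ZMod N)) * ψ (N : ZMod q) * gaussSum ψ (ZMod.stdAddChar (N := q)) ^ 2 / q)
      (fun n => (starRingEnd ℂ) (ψ (n : ZMod q) * cf f n)) ?_ ?_
    · refine Bd_conj (b := fun n => ψ (n : ZMod q) * cf f n) ?_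
      have h1 := (cf_Bd hm hf).mul (c := fun n => ψ (n : ZMod q))
        (fun n _ => DirichletCharacter.norm_le_one ψ _)
      have e : (fun n : ℕ => ψ (n : ZMod q) * cf f n) = fun n : ℕ => cf f n * ψ (n : ZMod q) := by
        funext n; ring
      rw [e]
      exact h1
    · intro X Y hX hY hXY
      have h1 := (hF q ψ inferInstance hq1 hqN hψ).2.2 X Y hX hY hXY
      rw [inv_inv]
      exact h1

end Pool.Agent.X284.LI
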