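import Pool.Agent.X284.LI.Core
import Pool.Agent.X284.LI.Alg
import Pool.Agent.X284.LI.Pack
import Pool.Agent.X284.KS.Fam
import Pool.Agent.X284.KS.Tow

/-!
# Linear independence of the central values of the twists
-/
set_option autoImplicit false

open Complex Filter Topology Set UpperHalfPlane MatrixGroups CongruenceSubgroup ZMod

namespace Pool.Agent.X284.LI

open Pool.Agent.W192.CY
open Pool.Agent.X284.KS
open Pool.Agent.W440.TW (inv_primitive gauss_ne_zero gauss_conj)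

/-- the normalised coefficient -/
noncomputable def nc (P : Newform) (n : ℕ) : ℂ := cf P.f n / (n : ℂ) ^ (P.m - 1)

lemma nc_one (P : Newform) : nc P 1 = 1 := by
  unfold nc
  rw [P.newf.one]
  simp

lemma nc_mul (P : Newform) (a b : ℕ) (h : Nat.Coprime a b) : nc P (a * b) = nc P a * nc P b := by
  unfold nc
  rw [P.newf.mul a b h]
  push_cast
  rw [mul_pow, mul_div_mul_comm]

lemma nc_Cb (P : Newform) : Cb (nc P) := by
  obtain ⟨μ, hμ⟩ := Pool.Agent.W804.CY.n_coef P.m P.m_pos P.N P.η P.f P.w P.newf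
  exact ⟨hμ.zero, hμ.cle⟩

/-- the squarefree divisors of the order of a character of smooth conductor are bounded -/
lemma sqf_le {S : Finset ℕ} (hS : ∀ p ∈ S, p.Prime) {q : ℕ} [NeZero q]
    (hq : ∀ p : ℕ, p.Prime → p ∣ q → p ∈ S) (χ : DirichletCharacter ℂ q) {r : ℕ}
    (hr : Squarefree r) (hrd : r ∣ orderOf χ) : r ≤ ∏ p ∈ S, p * (p - 1) := by
  have hpos : 0 < ∏ p ∈ S, p * (p - 1) := by
    refine Finset.prod_pos fun p hp => ?_
    have := (hS p hp).two_le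
    exact Nat.mul_pos (by omega) (by omega)
  refine Nat.le_of_dvd hpos ?_
  have hr0 : r ≠ 0 := hr.ne_zero
  rw [← Nat.prod_primeFactors_of_squarefree hr]
  refine Finset.prod_primes_dvd _ (fun a ha => (Nat.prime_of_mem_primeFactors ha).prime)
    fun ℓ hℓ => ?_
  have hℓp := Nat.prime_of_mem_primeFactors hℓ
  have hℓr := Nat.dvd_of_mem_primeFactors hℓ
  have h1 : ℓ ∣ Nat.totient q := (hℓr.trans hrd).trans (by
    obtain ⟨φ⟩ := DirichletCharacter.mulEquiv_units ℂ q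
    have h8 : Nat.card (DirichletCharacter ℂ q) = q.totient := by
      rw [Nat.card_congr φ.toEquiv, Nat.card_eq_fintype_card, ZMod.card_units_eq_totient]
    rw [← h8]
    exact orderOf_dvd_natCard χ)
  have h2 : ℓ ∣ q * ∏ p ∈ q.primeFactors, (p - 1) := by
    rw [← Nat.totient_mul_prod_primeFactors]
    exact h1.mul_right _
  have hdvd : ∀ p ∈ S, p * (p - 1) ∣ ∏ p ∈ S, p * (p - 1) := fun p hp =>
    Finset.dvd_prod_of_mem (fun p => p * (p - 1)) hp
  rcases (hℓp.dvd_mul).1 h2 with h3 | h3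
  · exact (Dvd.intro _ rfl).trans (hdvd ℓ (hq ℓ hℓp h3))
  · obtain ⟨p, hp, hℓ2⟩ := (hℓp.prime.dvd_finsetProd_iff _).1 h3
    have hpS := hq p (Nat.prime_of_mem_primeFactors hp) (Nat.dvd_of_mem_primeFactors hp)
    exact (hℓ2.trans (Dvd.intro_left p rfl)).trans (hdvd p hpS)

theorem li_main {ι : Type} [Fintype ι] (P : ι → Newform)
    (hne : ∀ i j, i ≠ j → {p : ℕ | p.Prime ∧ nc (P i) p ≠ nc (P j) p}.Infinite) :
    ∃ L : ι → (q : ℕ) → DirichletCharacter ℂ q → ℂ → ℂ,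
      (∀ (j : ι) (q : ℕ) (χ : DirichletCharacter ℂ q), 1 ≤ q → Nat.Coprime q (P j).N →
        χ.IsPrimitive → Differentiable ℂ (L j q χ) ∧ ∀ s : ℂ, ((P j).m : ℝ) + 1 / 2 < s.re →
          HasProd (fun p : Nat.Primes =>
            (1 - χ ((p : ℕ) : ZMod q) * cf (P j).f p * ((p : ℕ) : ℂ) ^ (-s) +
              χ ((p : ℕ) : ZMod q) ^ 2 * (P j).η ((p : ℕ) : ZMod (P j).N) *
                ((p : ℕ) : ℂ) ^ (2 * ((P j).m : ℂ) - 1 - 2 * s))⁻¹) (L j q χ s)) ∧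
      ∀ (S : Finset ℕ), (∀ p ∈ S, p.Prime ∧ ∀ j, ¬ p ∣ (P j).N) → ∀ (B : Finset ℕ),
        (∀ b ∈ B, 1 ≤ b ∧ ∀ p ∈ S, ¬ p ∣ b) → ∀ x : ι → ℕ → ℂ, (∃ j, ∃ b ∈ B, x j b ≠ 0) →
        ∃ q0 : ℕ, ∀ q : ℕ, q0 < q → (∀ p : ℕ, p.Prime → p ∣ q → p ∈ S) →
          ∀ χ : DirichletCharacter ℂ q, χ.IsPrimitive →
            ∑ j, ∑ b ∈ B, x j b * χ (b : ZMod q) * L j q χ (P j).m ≠ 0 := by
  classical
  choose W F hWfg hF hAFE hval using fun j => packL (P j).m_pos (P j).newf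
  refine ⟨F, fun j q χ h1 h2 h3 => hF j q χ h1 h2 h3, ?_⟩
  intro S hS B hB x hx
  have hSp : ∀ p ∈ S, p.Prime := fun p hp => (hS p hp).1
  obtain ⟨n0, hn0, hn0S, hD⟩ := exists_n0 (c := fun j => nc (P j)) (fun j => nc_one _)
    (fun j a b h => nc_mul _ a b h) hne B (fun b hb => (hB b hb).1) x hx S
    (fun b hb p _ hd hpS => (hB b hb).2 p hpS hd)
  -- the space
  obtain ⟨W', hW'⟩ : ∃ W' : Submodule ℚ ℂ, W' = ⨆ y : ι × B,
    (W y.1).map (LinearMap.mulLeft ℚ (x y.1 y.2)) := ⟨_, rfl⟩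
  have hW'fg : W'.FG := by
    rw [hW']
    exact Submodule.fg_iSup _ fun y => (hWfg y.1).map _
  obtain ⟨M, hM, hgal⟩ := Pool.Agent.TH936.NF.galW _ hW'fg
  have hVk := fun j => Pool.Agent.TH936.HK.h_vk (P j).m (P j).m_pos
  choose CV hVW using hVk
  obtain ⟨r, hr⟩ : ∃ r : ℕ, r = ∏ p ∈ S, p := ⟨_, rfl⟩
  have hr0 : 0 < r := by rw [hr]; exact Finset.prod_pos fun p hp => (hSp p hp).pos
  have hrR : (0 : ℝ) < r := by exact_mod_cast hr0
  obtain ⟨q0, hq0⟩ := li_core hVW (N := fun j => (P j).N)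
    (fun j => Nat.pos_of_ne_zero (NeZero.ne (P j).N)) (c := fun j => nc (P j))
    (fun j => nc_Cb (P j)) B (fun b hb => (hB b hb).1) x hn0 hD (M₀ := M) hM
    (∏ p ∈ S, p * (p - 1)) (c₀ := 1 / (2 * r)) (by positivity)
  refine ⟨⌈q0⌉₊, fun q hqq hq χ hχ => ?_⟩
  have hqpos : 0 < q := by omega
  have : NeZero q := ⟨by omega⟩
  have hq0q : q0 ≤ q := (Nat.le_ceil q0).trans (by exact_mod_cast hqq.le)
  have hqN : ∀ j, Nat.Coprime q (P j).N := by
    intro j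
    apply Nat.coprime_of_dvd
    intro p hp hpq hpN
    exact (hS p (hq p hp hpq)).2 j hpN
  have hBq : ∀ b ∈ B, Nat.Coprime b q := by
    intro b hb
    apply Nat.coprime_of_dvd
    intro p hp hpb hpq
    exact (hB b hb).2 p (hq p hp hpq) hpb
  have hn0q : Nat.Coprime n0 q := by
    apply Nat.coprime_of_dvd
    intro p hp hpn hpq
    exact hn0S p hp hpn (hq p hp hpq)
  have hord : 1 / (2 * (r : ℝ)) * q ≤ orderOf χ := by
    have h1 : q ∣ 2 * r * orderOf χ := Tow.dvd_order hχ fun p hp hpq => by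
      rw [hr]
      exact Finset.dvd_prod_of_mem (fun p => p) (hq p hp hpq)
    have h2 : q ≤ 2 * r * orderOf χ := Nat.le_of_dvd
      (Nat.mul_pos (by omega) (orderOf_pos χ)) h1
    have h3 : (q : ℝ) ≤ 2 * r * orderOf χ := by exact_mod_cast h2
    rw [one_div, inv_mul_le_iff₀ (by positivity)]
    exact h3
  obtain ⟨a, ha1, ha2, ha3, ha4⟩ := hq0 q hq0q hBq hn0q
    (fun j => (P j).w * (P j).η (q : ZMod (P j).N)) (fun j => by
      have hu : IsUnit (q : ZMod (P j).N) := (ZMod.isUnit_iff_coprime q (P j).N).2 (hqN j)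
      have := (P j).η.unit_norm_eq_one hu.unit
      rw [norm_mul, (P j).newf.norm, one_mul]
      simpa using this) (fun j ψ => F j q ψ (P j).m)
    (fun j ψ hψ X Y hX hY hXY => hAFE j q ψ (hqN j) hψ X Y hX hY hXY) χ hχ hord
    (fun r hr1 hr2 => sqf_le hSp hq χ hr1 hr2)
  intro h0
  -- the symbols
  choose v hv1 hv2 using fun j => hval j q (hqN j)
  let ub : ℕ → (ZMod q)ˣ := fun b => if h : Nat.Coprime b q then ZMod.unitOfCoprime b h else 1
  have hub : ∀ b ∈ B, ((ub b : (ZMod q)ˣ) : ZMod q) = b := by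
    intro b hb
    show (((if h : Nat.Coprime b q then ZMod.unitOfCoprime b h else 1 : (ZMod q)ˣ)) : ZMod q) = b
    rw [dif_pos (hBq b hb), ZMod.coe_unitOfCoprime]
  let vv : (ZMod q)ˣ → ℂ := fun u => ∑ j, ∑ b ∈ B, x j b * v j (u * ub b)
  have hvv : ∀ u, vv u ∈ W' := by
    intro u
    refine Submodule.sum_mem _ fun j _ => Submodule.sum_mem _ fun b hb => ?_
    rw [hW']
    refine Submodule.mem_iSup_of_mem (j, (⟨b, hb⟩ : B)) ?_
    exact ⟨v j (u * ub b), hv1 j _, rfl⟩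
  have hcomb : ∀ ψ : DirichletCharacter ℂ q, ψ.IsPrimitive →
      ∑ u : (ZMod q)ˣ, ψ⁻¹ (u : ZMod q) * vv u = gaussSum ψ⁻¹ (stdAddChar (N := q)) *
        ∑ j, ∑ b ∈ B, x j b * ψ (b : ZMod q) * F j q ψ (P j).m := by
    intro ψ hψ
    have e1 : ∀ j, ∀ b ∈ B, ∑ u : (ZMod q)ˣ, ψ⁻¹ (u : ZMod q) * v j (u * ub b) =
        ψ (b : ZMod q) * (gaussSum ψ⁻¹ (stdAddChar (N := q)) * F j q ψ (P j).m) := by
      intro j b hb
      rw [hv2 j ψ hψ, Finset.mul_sum]
      refine Fintype.sum_equiv (Equiv.mulRight (ub b)) _ _ fun u => ?_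
      rw [Equiv.coe_mulRight, Units.val_mul, map_mul, hub b hb]
      have hbu : IsUnit (b : ZMod q) := (ZMod.isUnit_iff_coprime b q).2 (hBq b hb)
      have e2 : ψ (b : ZMod q) * ψ⁻¹ (b : ZMod q) = 1 := by
        rw [← MulChar.mul_apply, mul_inv_cancel, MulChar.one_apply hbu]
      calc ψ⁻¹ (u : ZMod q) * v j (u * ub b) =
            (ψ (b : ZMod q) * ψ⁻¹ (b : ZMod q)) * (ψ⁻¹ (u : ZMod q) * v j (u * ub b)) := by
            rw [e2, one_mul]
        _ = _ := by ring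
    show ∑ u : (ZMod q)ˣ, ψ⁻¹ (u : ZMod q) * (∑ j, ∑ b ∈ B, x j b * v j (u * ub b)) = _
    rw [Finset.mul_sum]
    simp only [Finset.mul_sum]
    rw [Finset.sum_comm]
    refine Finset.sum_congr rfl fun j _ => ?_
    rw [Finset.sum_comm]
    refine Finset.sum_congr rfl fun b hb => ?_
    have e3 := e1 j b hb
    calc ∑ u : (ZMod q)ˣ, ψ⁻¹ (u : ZMod q) * (x j b * v j (u * ub b)) =
          x j b * ∑ u : (ZMod q)ˣ, ψ⁻¹ (u : ZMod q) * v j (u * ub b) := by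
          rw [Finset.mul_sum]
          exact Finset.sum_congr rfl fun u _ => by ring
      _ = _ := by rw [e3]; ring
  have h1 : ∑ u : (ZMod q)ˣ, χ⁻¹ (u : ZMod q) * vv u = 0 := by
    rw [hcomb χ hχ, h0, mul_zero]
  have h2 := hgal (orderOf χ) a (orderOf_pos χ) ha1 ha2 (ZMod q)ˣ
    (fun u => χ⁻¹ (u : ZMod q)) vv (fun u => by
      have := chi_root χ⁻¹ u
      rwa [orderOf_inv] at this) hvv h1
  have h3 : ∑ u : (ZMod q)ˣ, (χ ^ a)⁻¹ (u : ZMod q) * vv u = 0 := by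
    rw [← h2]
    refine Finset.sum_congr rfl fun u _ => ?_
    rw [← inv_pow, MulChar.pow_apply_coe]
  rw [hcomb (χ ^ a) ha3] at h3
  exact ha4 ((mul_eq_zero.1 h3).resolve_left (gauss_ne_zero _ (inv_primitive _ ha3)))

end Pool.Agent.X284.LI
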