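import Pool.Agent.X284.LI.Cls

/-!
# The main part for one integer
-/
set_option autoImplicit false

namespace Pool.Agent.X284.LI

open Finset
open Pool.Agent.W192.CY
open Pool.Agent.W916.CY (ai ai_abs ai_one EE EE_pos summ_EE filt_card tau_le tau_mono)
open Pool.Agent.W55.CY (VV VV_abs VV_one)
open Pool.Agent.W372.CY (AA AA_norm AA_one sum_cg ai_nonneg)

/-- the terms of the series -/
noncomputable def GG (V : ℝ → ℝ) (c : ℕ → ℂ) (X : ℝ) (n : ℕ) : ℂ := c n / n * (VV V X n : ℂ)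

theorem GG_norm {V : ℝ → ℝ} {CV : ℝ} (hV : VW V CV) {c : ℕ → ℂ} (hc : Cb c) {η C1 : ℝ}
    (hη : 0 < η) (hη' : η < 1 / 8) (hC1 : 0 < C1)
    (hτ : ∀ n : ℕ, 1 ≤ n → (n.divisors.card : ℝ) ≤ C1 * (n : ℝ) ^ η) {X : ℝ} (hX : 0 < X) (n : ℕ) :
    ‖GG V c X n‖ ≤ CV * C1 * ((n : ℝ) ^ (-1 / 2 + η) * EE X n) := by
  have hCV := hV.pos
  have hE := (EE_pos X n).le
  unfold GG
  rcases Nat.eq_zero_or_pos n with rfl | hn
  · rw [hc.zero]
    simp only [Nat.cast_zero, div_zero, zero_mul, norm_zero]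
    positivity
  · have hn0 : (0 : ℝ) < n := by exact_mod_cast hn
    rw [norm_mul, norm_div, Complex.norm_natCast, Complex.norm_real, Real.norm_eq_abs]
    have h1 : ‖c n‖ / n ≤ C1 * (n : ℝ) ^ (-1 / 2 + η) := by
      rw [div_le_iff₀ hn0]
      refine (hc.cle n hn).trans ?_
      have e : C1 * (n : ℝ) ^ (-1 / 2 + η) * n = C1 * (n : ℝ) ^ η * Real.sqrt n := by
        rw [Real.sqrt_eq_rpow, mul_assoc, mul_assoc, ← Real.rpow_add hn0]
        nth_rewrite 2 [← Real.rpow_one (n : ℝ)]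
        rw [← Real.rpow_add hn0]
        congr 2
        ring
      rw [e]
      exact mul_le_mul_of_nonneg_right (hτ n hn) (Real.sqrt_nonneg _)
    calc ‖c n‖ / n * |VV V X n| ≤ (C1 * (n : ℝ) ^ (-1 / 2 + η)) * (CV * EE X n) :=
          mul_le_mul h1 (VV_abs hV X hX n) (abs_nonneg _) (by positivity)
      _ = _ := by ring

theorem GG_summ {V : ℝ → ℝ} {CV : ℝ} (hV : VW V CV) {c : ℕ → ℂ} (hc : Cb c) {X : ℝ} (hX : 0 < X)
    (a : ℕ → ℂ) (ha : ∀ n, ‖a n‖ ≤ 1) : Summable (fun n : ℕ => ‖a n * GG V c X n‖) := by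
  have hCV := hV.pos
  refine Summable.of_nonneg_of_le (fun n => norm_nonneg _) (fun n => ?_)
    ((summ_EE X hX 1).mul_left CV)
  rw [norm_mul]
  have h0 : ‖GG V c X n‖ ≤ CV * ((n : ℝ) ^ 1 * EE X n) := by
    unfold GG
    have hE := (EE_pos X n).le
    rcases Nat.eq_zero_or_pos n with rfl | hn
    · rw [hc.zero]
      simp
    · have hn0 : (0 : ℝ) < n := by exact_mod_cast hn
      have hn1 : (1 : ℝ) ≤ n := by exact_mod_cast hn
      rw [norm_mul, norm_div, Complex.norm_natCast, Complex.norm_real, Real.norm_eq_abs]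
      have h1 : ‖c n‖ / n ≤ n := by
        rw [div_le_iff₀ hn0]
        refine (hc.cle n hn).trans ?_
        have h2 : (n.divisors.card : ℝ) ≤ n := by exact_mod_cast tau_le n
        have h3 : Real.sqrt n ≤ n := by
          rw [Real.sqrt_le_left (by linarith)]
          nlinarith
        exact mul_le_mul h2 h3 (Real.sqrt_nonneg _) (by positivity)
      rw [pow_one]
      calc ‖c n‖ / n * |VV V X n| ≤ n * (CV * EE X n) :=
            mul_le_mul h1 (VV_abs hV X hX n) (abs_nonneg _) (by positivity)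
        _ = _ := by ring
  calc ‖a n‖ * ‖GG V c X n‖ ≤ 1 * ‖GG V c X n‖ := by
        have := ha n
        gcongr
    _ = ‖GG V c X n‖ := one_mul _
    _ ≤ _ := h0

theorem AA_cast {q : ℕ} (χ₀ : DirichletCharacter ℂ q) (t e : ℕ) {k : ℕ}
    (hk : ((k : ℕ) : ZMod q) = 1) : AA q χ₀ t e k = 1 := by
  rw [← AA_one q χ₀ t e]
  unfold AA ai
  rw [hk]
  simp

/-- the series over a coset: the main term is the term `n = n0 / b` -/
theorem one_beta {V : ℝ → ℝ} {CV : ℝ} (hV : VW V CV) {c : ℕ → ℂ} (hc : Cb c) {η C1 : ℝ}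
    (hη : 0 < η) (hη' : η < 1 / 8) (hC1 : 0 < C1)
    (hτ : ∀ n : ℕ, 1 ≤ n → (n.divisors.card : ℝ) ≤ C1 * (n : ℝ) ^ η)
    {q : ℕ} [NeZero q] (χ₀ : DirichletCharacter ℂ q) (t e : ℕ) {h b n0 β : ℕ}
    (hH : Nat.card (Hg q χ₀ e) ≤ h) (hh : 1 ≤ h) (hb : 1 ≤ b) (hq : n0 ^ h < q) (hn0 : 1 ≤ n0)
    (hbq : Nat.Coprime b q) (hβ : ((β * n0 : ℕ) : ZMod q) = b)
    (hLb : (b : ℝ) ≤ (q : ℝ) ^ ((h : ℝ)⁻¹)) {X : ℝ} (hX : 0 < X) :
    ‖∑' n : ℕ, AA q χ₀ t e (β * n) * GG V c X n - (if b ∣ n0 then GG V c X (n0 / b) else 0)‖ ≤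
      CV * C1 * (h * (((q : ℝ) ^ ((h : ℝ)⁻¹) / b) ^ (-1 / 2 + η) +
      X ^ (1 / 2 + 2 * η) * (q : ℝ) ^ (-(1 + η)) * ∑' n : ℕ, (n : ℝ) ^ (-(1 + η)))) := by
  classical
  have hCV := hV.pos
  have hq1 : 1 ≤ q := Nat.one_le_iff_ne_zero.2 (NeZero.ne q)
  have hqR : (0 : ℝ) < q := by exact_mod_cast hq1
  have hbR : (0 : ℝ) < b := by exact_mod_cast hb
  have hhR : (0 : ℝ) < h := by exact_mod_cast hh
  obtain ⟨L, hL⟩ : ∃ L : ℝ, L = (q : ℝ) ^ ((h : ℝ)⁻¹) / b := ⟨_, rfl⟩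
  have hL1 : 1 ≤ L := by rw [hL, le_div_iff₀ hbR, one_mul]; exact hLb
  have hbu : IsUnit (b : ZMod q) := (ZMod.isUnit_iff_coprime b q).2 hbq
  have hβu : IsUnit (β : ZMod q) := by
    rw [← hβ, Nat.cast_mul] at hbu
    exact isUnit_of_mul_isUnit_left hbu
  let f : ℕ → ℂ := fun n => AA q χ₀ t e (β * n) * GG V c X n
  have hA1 : ∀ n, ‖AA q χ₀ t e (β * n)‖ ≤ 1 := fun n =>
    (AA_norm q χ₀ t e _).trans ((le_abs_self _).trans (ai_abs _ _ _))
  have hfn : Summable (fun n => ‖f n‖) := GG_summ hV hc hX _ hA1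
  let g : ℕ → ℂ := fun n => if n * b = n0 then 0 else f n
  have hgf : ∀ n, ‖g n‖ ≤ ‖f n‖ := by
    intro n
    show ‖if n * b = n0 then (0 : ℂ) else f n‖ ≤ _
    split_ifs
    · rw [norm_zero]; exact norm_nonneg _
    · exact le_rfl
  have hgn : Summable (fun n => ‖g n‖) :=
    Summable.of_nonneg_of_le (fun n => norm_nonneg _) hgf hfn
  have hsplit : ∑' n : ℕ, f n = (if b ∣ n0 then GG V c X (n0 / b) else 0) + ∑' n, g n := by
    by_cases hd : b ∣ n0
    · rw [if_pos hd]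
      obtain ⟨n1, hn1⟩ := hd
      have e1 : n0 / b = n1 := by rw [hn1, Nat.mul_div_cancel_left n1 hb]
      rw [e1, hfn.of_norm.tsum_eq_add_tsum_ite n1]
      congr 1
      · show AA q χ₀ t e (β * n1) * GG V c X n1 = _
        rw [AA_cast χ₀ t e, one_mul]
        have h2 : (b : ZMod q) * ((β * n1 : ℕ) : ZMod q) = b * 1 := by
          have h3 : ((β * n0 : ℕ) : ZMod q) = b := hβ
          rw [hn1] at h3
          push_cast at h3
          push_cast
          rw [mul_one]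
          calc (b : ZMod q) * (β * n1) = β * (b * n1) := by ring
            _ = b := h3
        exact hbu.mul_left_cancel h2
      · refine tsum_congr fun n => ?_
        show (if n = n1 then 0 else f n) = if n * b = n0 then 0 else f n
        have : n = n1 ↔ n * b = n0 := by
          rw [hn1, mul_comm b n1]
          exact ⟨fun h => by rw [h], fun h => Nat.eq_of_mul_eq_mul_right hb h⟩
        simp only [this]
    · rw [if_neg hd, zero_add]
      refine tsum_congr fun n => ?_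
      show f n = if n * b = n0 then 0 else f n
      rw [if_neg]
      rintro rfl
      exact hd (Dvd.intro_left n rfl)
  have hfin : ‖∑' n, g n‖ ≤ CV * C1 * (h * (L ^ (-1 / 2 + η) +
      X ^ (1 / 2 + 2 * η) * (q : ℝ) ^ (-(1 + η)) * ∑' n : ℕ, (n : ℝ) ^ (-(1 + η)))) := by
    refine (norm_tsum_le_tsum_norm hgn).trans ?_
    refine hgn.tsum_le_of_sum_le ?_
    intro T
    have h1 : ∑ n ∈ T, ‖g n‖ = ∑ n ∈ T.filter (fun n => g n ≠ 0), ‖g n‖ := by
      rw [sum_filter]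
      refine sum_congr rfl fun n _ => ?_
      split_ifs with h2
      · rfl
      · rw [not_not] at h2
        rw [h2, norm_zero]
    rw [h1]
    have h2 : ∀ n ∈ T.filter (fun n => g n ≠ 0), ‖g n‖ ≤
        CV * C1 * ((n : ℝ) ^ (-1 / 2 + η) * EE X n) := by
      intro n _
      refine (hgf n).trans ?_
      show ‖AA q χ₀ t e (β * n) * GG V c X n‖ ≤ _
      rw [norm_mul]
      refine (mul_le_of_le_one_left (norm_nonneg _) (hA1 n)).trans ?_
      exact GG_norm hV hc hη hη' hC1 hτ hX n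
    refine (sum_le_sum h2).trans ?_
    rw [← mul_sum]
    refine mul_le_mul_of_nonneg_left ?_ (by positivity)
    have h3 : ∀ n ∈ T.filter (fun n => g n ≠ 0), L ≤ n ∧
        ∃ u ∈ Hg q χ₀ e, ((u : (ZMod q)ˣ) : ZMod q) = ((β * n : ℕ) : ZMod q) := by
      intro n hn
      rw [mem_filter] at hn
      have h4 : ¬ n * b = n0 := by
        intro h5
        apply hn.2
        show (if n * b = n0 then (0 : ℂ) else f n) = 0
        rw [if_pos h5]
      have h5 : ∃ u ∈ Hg q χ₀ e, ((u : (ZMod q)ˣ) : ZMod q) = ((β * n : ℕ) : ZMod q) := by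
        by_contra hcon
        apply hn.2
        show (if n * b = n0 then (0 : ℂ) else f n) = 0
        rw [if_neg h4]
        show AA q χ₀ t e (β * n) * GG V c X n = 0
        have h6 : AA q χ₀ t e (β * n) = 0 := by
          unfold AA ai
          rw [if_neg hcon]
          simp
        rw [h6, zero_mul]
      refine ⟨?_, h5⟩
      have h6 := coset_large (Hg q χ₀ e) hH hq hn0 hβ h5 h4
      have h7 : (q : ℝ) ≤ ((n : ℝ) * b) ^ h := by exact_mod_cast h6.le
      rw [hL, div_le_iff₀ hbR]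
      calc (q : ℝ) ^ ((h : ℝ)⁻¹) ≤ (((n : ℝ) * b) ^ h) ^ ((h : ℝ)⁻¹) :=
            Real.rpow_le_rpow hqR.le h7 (by positivity)
        _ = _ := Real.pow_rpow_inv_natCast (by positivity) (by omega)
    refine (coset_sum hq1 (Hg q χ₀ e) hβu hη hη' hL1 hX _ h3).trans ?_
    have h4 : (Nat.card (Hg q χ₀ e) : ℝ) ≤ h := by exact_mod_cast hH
    have h5 : 0 ≤ ∑' n : ℕ, (n : ℝ) ^ (-(1 + η)) := tsum_nonneg fun n => by positivity
    refine mul_le_mul_of_nonneg_right h4 (by positivity)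
  rw [← hL]
  have e : ∑' n : ℕ, AA q χ₀ t e (β * n) * GG V c X n = ∑' n : ℕ, f n := rfl
  rw [e, hsplit, add_sub_cancel_left]
  exact hfin

end Pool.Agent.X284.LI
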