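import Pool.Agent.X284.LI.MainB

/-!
# The main part for one integer, summed over the conjugates
-/
set_option autoImplicit false

namespace Pool.Agent.X284.LI

open Finset
open Pool.Agent.W192.CY
open Pool.Agent.W916.CY (ai ai_abs ai_one EE EE_pos summ_EE filt_card tau_le tau_mono)
open Pool.Agent.W55.CY (VV VV_abs VV_one)
open Pool.Agent.W372.CY (AA AA_norm AA_one sum_cg ai_nonneg)

/-- the sum over the characters of one class -/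
theorem one_rB (h2 : G_ORTH) {V : ℝ → ℝ} {CV : ℝ} (hV : VW V CV) {c : ℕ → ℂ} (hc : Cb c)
    (q : ℕ) [NeZero q] (χ₀ : DirichletCharacter ℂ q) (X : ℝ) (hX : 0 < X)
    (t e : ℕ) (hed : e ∣ orderOf χ₀) (β : ℕ) :
    ∑ ψ ∈ Cg q χ₀ e,
      (χ₀ ^ t * ψ) (β : ZMod q) * (∑' n : ℕ, (χ₀ ^ t * ψ) (n : ZMod q) * c n / n *
        (V (n / (X / 2)) : ℂ)) =
    (e : ℂ) * ∑' n : ℕ, AA q χ₀ t e (β * n) * GG V c X n := by
  classical
  have hsχ : ∀ χ : DirichletCharacter ℂ q, Summable (fun n : ℕ => χ (n : ZMod q) * c n / n *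
      (V (n / (X / 2)) : ℂ)) := fun χ => by
    have h := (GG_summ hV hc hX (fun n => χ (n : ZMod q)) (fun n => χ.norm_le_one _)).of_norm
    refine h.congr fun n => ?_
    unfold GG VV
    ring
  have e1 : ∀ ψ ∈ Cg q χ₀ e, (χ₀ ^ t * ψ) (β : ZMod q) * (∑' n : ℕ,
      (χ₀ ^ t * ψ) (n : ZMod q) * c n / n * (V (n / (X / 2)) : ℂ)) =
      ∑' n : ℕ, (χ₀ ^ t * ψ) (β : ZMod q) * ((χ₀ ^ t * ψ) (n : ZMod q) * c n / n *
      (V (n / (X / 2)) : ℂ)) := fun ψ _ => tsum_mul_left.symm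
  rw [sum_congr rfl e1, ← Summable.tsum_finsetSum (fun ψ _ => (hsχ (χ₀ ^ t * ψ)).mul_left _),
    ← tsum_mul_left]
  refine tsum_congr (fun n => ?_)
  have e2 : ∀ ψ ∈ Cg q χ₀ e, (χ₀ ^ t * ψ) (β : ZMod q) * ((χ₀ ^ t * ψ) (n : ZMod q) *
      c n / n * (V (n / (X / 2)) : ℂ)) =
      (χ₀ ^ t * ψ) ((β * n : ℕ) : ZMod q) * (c n / n * (V (n / (X / 2)) : ℂ)) := by
    intro ψ _
    rw [Nat.cast_mul, map_mul]
    ring
  rw [sum_congr rfl e2, ← sum_mul, sum_cg h2 q χ₀ t e hed]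
  unfold GG VV
  ring

theorem main_beta (h1 : S_DIV) (h2 : G_ORTH) (h3 : M_MOB) {V : ℝ → ℝ} {CV : ℝ} (hV : VW V CV)
    {c : ℕ → ℂ} (hc : Cb c) {b n0 h : ℕ} (hb : 1 ≤ b) (hn0 : 1 ≤ n0) (hh : 1 ≤ h) :
    ∃ C q0 : ℝ, 0 < C ∧ ∀ (q : ℕ) [NeZero q], q0 ≤ q → Nat.Coprime b q →
      ∀ β : ℕ, ((β * n0 : ℕ) : ZMod q) = b → ∀ (χ₀ : DirichletCharacter ℂ q) (M : ℕ), 1 ≤ M →
      M ∣ orderOf χ₀ → (∀ r : ℕ, Squarefree r → r * M ∣ orderOf χ₀ →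
        Nat.card (Hg q χ₀ (orderOf χ₀ / (r * M))) ≤ h) →
      ‖∑ χ ∈ Em q χ₀ M, χ (β : ZMod q) * (∑' n : ℕ, χ (n : ZMod q) * c n / n *
          (V (n / ((q : ℝ) ^ (3 / 2 : ℝ) / 2)) : ℂ)) -
        ((Em q χ₀ M).card : ℂ) * (if b ∣ n0 then c (n0 / b) / ((n0 / b : ℕ) : ℂ) else 0)‖ ≤
      C * orderOf χ₀ * (q : ℝ) ^ (-(1 / (16 * (h : ℝ)))) := by
  classical
  have hCV := hV.pos
  have hhR : (1 : ℝ) ≤ h := by exact_mod_cast hh
  have hh0 : (0 : ℝ) < h := by linarith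
  have hbR : (1 : ℝ) ≤ b := by exact_mod_cast hb
  obtain ⟨C1, hC1, hτ, -⟩ := h1 (1 / 16) (by norm_num)
  obtain ⟨ρ, hρ⟩ : ∃ ρ : ℝ, ρ = 1 / (16 * (h : ℝ)) := ⟨_, rfl⟩
  have hρ0 : 0 < ρ := by rw [hρ]; positivity
  have hρ1 : ρ ≤ 1 / 16 := by
    rw [hρ]
    apply one_div_le_one_div_of_le (by norm_num)
    linarith
  obtain ⟨C2, hC2, hτ2, -⟩ := h1 ρ hρ0
  obtain ⟨S, hS⟩ : ∃ S : ℝ, S = ∑' n : ℕ, (n : ℝ) ^ (-(1 + 1 / 16 : ℝ)) := ⟨_, rfl⟩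
  have hS0 : 0 ≤ S := by rw [hS]; exact tsum_nonneg fun n => by positivity
  obtain ⟨z, hz⟩ : ∃ z : ℂ, z = if b ∣ n0 then c (n0 / b) / ((n0 / b : ℕ) : ℂ) else 0 := ⟨_, rfl⟩
  refine ⟨C2 * (CV * C1 * (h * (b + S))) + ‖z‖ * (2 * CV * n0) + 1,
    max ((b : ℝ) ^ h) ((n0 : ℝ) ^ h + 1), by positivity, ?_⟩
  intro q _ hq hbq β hβ χ₀ M hM1 hMd hH
  have hq1 : 1 ≤ q := Nat.one_le_iff_ne_zero.2 (NeZero.ne q)
  have hqR : (1 : ℝ) ≤ q := by exact_mod_cast hq1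
  have hqpos : (0 : ℝ) < q := by linarith
  have hqb : (b : ℝ) ^ h ≤ q := (le_max_left _ _).trans hq
  have hqn : (n0 : ℝ) ^ h + 1 ≤ q := (le_max_right _ _).trans hq
  have hqn' : n0 ^ h < q := by
    have : (n0 : ℝ) ^ h < q := by linarith
    exact_mod_cast this
  have hLb : (b : ℝ) ≤ (q : ℝ) ^ ((h : ℝ)⁻¹) := by
    calc (b : ℝ) = ((b : ℝ) ^ h) ^ ((h : ℝ)⁻¹) :=
          (Real.pow_rpow_inv_natCast (by positivity) (by omega)).symm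
      _ ≤ _ := Real.rpow_le_rpow (by positivity) hqb (by positivity)
  obtain ⟨X, hXdef⟩ : ∃ X : ℝ, X = (q : ℝ) ^ (3 / 2 : ℝ) := ⟨_, rfl⟩
  have hX : 0 < X := by rw [hXdef]; positivity
  rw [← hXdef, ← hz]
  obtain ⟨d, hddef⟩ : ∃ d : ℕ, d = orderOf χ₀ := ⟨_, rfl⟩
  have hdpos : 0 < d := by rw [hddef]; exact orderOf_pos χ₀
  have hdR : (0 : ℝ) < d := by exact_mod_cast hdpos
  obtain ⟨t, hcardM, hmob⟩ := h3 q χ₀ M hM1 hMd
  have hcard : ∀ e : ℕ, e ∣ orderOf χ₀ → e * Nat.card (Hg q χ₀ e) ≤ q := fun e he =>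
    (h2 q χ₀ e he).1.le.trans (Nat.totient_le q)
  have hdle : d ≤ q := by
    have g1 := hcard (orderOf χ₀) dvd_rfl
    have g2 : 0 < Nat.card (Hg q χ₀ (orderOf χ₀)) := Nat.card_pos
    rw [← hddef] at g1 g2
    exact (Nat.le_mul_of_pos_right d g2).trans g1
  obtain ⟨R, hRdef⟩ : ∃ R : Finset ℕ, R = (orderOf χ₀).divisors.filter
    (fun r => Nat.Coprime r M) := ⟨_, rfl⟩
  have hRM : ∀ r ∈ R, r * M ∣ orderOf χ₀ := by
    intro r hr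
    rw [hRdef, mem_filter, Nat.mem_divisors] at hr
    exact Nat.Coprime.mul_dvd_of_dvd_of_dvd hr.2 hr.1.1 hMd
  have hRd : ∀ r ∈ R, (orderOf χ₀ / (r * M)) ∣ orderOf χ₀ := fun r hr =>
    Nat.div_dvd_of_dvd (hRM r hr)
  have hRcard : R.card ≤ (orderOf χ₀).divisors.card := by
    rw [hRdef]
    exact card_filter_le _ _
  -- the number of characters
  have hEm : ((Em q χ₀ M).card : ℂ) = ∑ r ∈ R, ((ArithmeticFunction.moebius r : ℤ) : ℂ) *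
      ((orderOf χ₀ / (r * M) : ℕ) : ℂ) := by
    have g1 := hmob (fun _ => 1)
    rw [← hRdef] at g1
    simp only [sum_const, nsmul_eq_mul, mul_one] at g1
    rw [g1]
    refine sum_congr rfl fun r hr => ?_
    congr 1
    have g2 := ((h2 q χ₀ _ (hRd r hr)).2 1).1 (one_mem _)
    simpa using g2
  have hEmle : ((Em q χ₀ M).card : ℝ) ≤ d := by
    have g1 : 0 < Nat.totient M := Nat.totient_pos.2 hM1
    have g2 : (Em q χ₀ M).card ≤ (Em q χ₀ M).card * Nat.totient M := Nat.le_mul_of_pos_right _ g1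
    have g3 := Nat.totient_le (orderOf χ₀)
    rw [hcardM] at g2
    rw [← hddef] at g2 g3
    exact_mod_cast g2.trans g3
  -- the sum
  have hSum : ∑ χ ∈ Em q χ₀ M, χ (β : ZMod q) * (∑' n : ℕ, χ (n : ZMod q) * c n / n *
        (V (n / (X / 2)) : ℂ)) =
      ∑ r ∈ R, ((ArithmeticFunction.moebius r : ℤ) : ℂ) *
        (((orderOf χ₀ / (r * M) : ℕ) : ℂ) * ∑' n : ℕ,
          AA q χ₀ (t r) (orderOf χ₀ / (r * M)) (β * n) * GG V c X n) := by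
    rw [hmob (fun χ => χ (β : ZMod q) * (∑' n : ℕ, χ (n : ZMod q) * c n / n *
          (V (n / (X / 2)) : ℂ))), ← hRdef]
    refine sum_congr rfl fun r hr => ?_
    rw [one_rB h2 hV hc q χ₀ X hX (t r) _ (hRd r hr) β]
  obtain ⟨zV, hzV⟩ : ∃ zV : ℂ, zV = if b ∣ n0 then GG V c X (n0 / b) else 0 := ⟨_, rfl⟩
  have hzz : ‖zV - z‖ ≤ ‖z‖ * (2 * CV * n0) * (q : ℝ) ^ (-(3 / 2) : ℝ) := by
    have hXi : (q : ℝ) ^ (-(3 / 2) : ℝ) = 1 / X := by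
      rw [hXdef, Real.rpow_neg hqpos.le, one_div]
    rw [hXi, hzV, hz]
    split_ifs with hd
    · have e1 : GG V c X (n0 / b) - c (n0 / b) / ((n0 / b : ℕ) : ℂ) =
          c (n0 / b) / ((n0 / b : ℕ) : ℂ) * ((VV V X (n0 / b) - 1 : ℝ) : ℂ) := by
        unfold GG
        push_cast
        ring
      rw [e1, norm_mul, Complex.norm_real, Real.norm_eq_abs, mul_assoc]
      refine mul_le_mul_of_nonneg_left ?_ (norm_nonneg _)
      refine (VV_one hV X hX _).trans ?_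
      have h5 : ((n0 / b : ℕ) : ℝ) ≤ n0 := by exact_mod_cast Nat.div_le_self n0 b
      rw [mul_one_div]
      calc 2 * CV * (((n0 / b : ℕ) : ℝ) / X) ≤ 2 * CV * ((n0 : ℝ) / X) := by gcongr
        _ = _ := by ring
    · simp
  obtain ⟨E, hE⟩ : ∃ E : ℝ, E = CV * C1 * (h * (((q : ℝ) ^ ((h : ℝ)⁻¹) / b) ^ (-1 / 2 + 1 / 16 : ℝ) +
      X ^ (1 / 2 + 2 * (1 / 16) : ℝ) * (q : ℝ) ^ (-(1 + 1 / 16) : ℝ) * S)) := ⟨_, rfl⟩
  have hE0 : 0 ≤ E := by rw [hE]; positivity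
  have hP : ∀ r ∈ R, ‖((ArithmeticFunction.moebius r : ℤ) : ℂ) *
      (((orderOf χ₀ / (r * M) : ℕ) : ℂ) * (∑' n : ℕ,
        AA q χ₀ (t r) (orderOf χ₀ / (r * M)) (β * n) * GG V c X n - zV))‖ ≤ d * E := by
    intro r hr
    by_cases hsq : Squarefree r
    · obtain ⟨e, he⟩ : ∃ e : ℕ, e = orderOf χ₀ / (r * M) := ⟨_, rfl⟩
      have hed := hRd r hr
      have hcd := hH r hsq (hRM r hr)
      rw [← he] at hed hcd ⊢
      have hele : (e : ℝ) ≤ d := by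
        rw [hddef]
        exact_mod_cast Nat.le_of_dvd (orderOf_pos χ₀) hed
      have b1 := one_beta hV hc (η := 1 / 16) (by norm_num) (by norm_num) hC1 hτ χ₀ (t r) e hcd hh hb
        hqn' hn0 hbq hβ hLb hX
      rw [← hzV, ← hS, ← hE] at b1
      have g1 : |((ArithmeticFunction.moebius r : ℤ) : ℝ)| ≤ 1 := by
        have := ArithmeticFunction.abs_moebius_le_one (n := r)
        exact_mod_cast this
      rw [norm_mul, norm_mul, Complex.norm_natCast, Complex.norm_intCast]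
      calc |((ArithmeticFunction.moebius r : ℤ) : ℝ)| * ((e : ℝ) * ‖∑' n : ℕ,
            AA q χ₀ (t r) e (β * n) * GG V c X n - zV‖) ≤ 1 * ((d : ℝ) * E) := by
            gcongr
        _ = _ := one_mul _
    · rw [ArithmeticFunction.moebius_eq_zero_of_not_squarefree hsq]
      simp only [Int.cast_zero, zero_mul, norm_zero]
      positivity
  have hsplit : ∑ r ∈ R, ((ArithmeticFunction.moebius r : ℤ) : ℂ) *
        (((orderOf χ₀ / (r * M) : ℕ) : ℂ) * ∑' n : ℕ,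
          AA q χ₀ (t r) (orderOf χ₀ / (r * M)) (β * n) * GG V c X n) -
      ((Em q χ₀ M).card : ℂ) * z =
      ∑ r ∈ R, ((ArithmeticFunction.moebius r : ℤ) : ℂ) *
        (((orderOf χ₀ / (r * M) : ℕ) : ℂ) * (∑' n : ℕ,
          AA q χ₀ (t r) (orderOf χ₀ / (r * M)) (β * n) * GG V c X n - zV)) +
      ((Em q χ₀ M).card : ℂ) * (zV - z) := by
    rw [mul_sub, hEm, sum_mul, sum_mul, add_sub, ← sum_add_distrib]
    congr 1
    refine sum_congr rfl (fun e _ => ?_)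
    ring
  rw [hSum, hsplit]
  have hτd : (R.card : ℝ) ≤ C2 * (q : ℝ) ^ ρ := by
    have g0 : (R.card : ℝ) ≤ (d.divisors.card : ℝ) := by
      rw [hddef]
      exact_mod_cast hRcard
    refine g0.trans ((hτ2 d hdpos).trans ?_)
    have : (d : ℝ) ≤ q := by exact_mod_cast hdle
    gcongr
  have hmain : ‖∑ r ∈ R, ((ArithmeticFunction.moebius r : ℤ) : ℂ) *
        (((orderOf χ₀ / (r * M) : ℕ) : ℂ) * (∑' n : ℕ,
          AA q χ₀ (t r) (orderOf χ₀ / (r * M)) (β * n) * GG V c X n - zV))‖ ≤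
      R.card * (d * E) := by
    refine (norm_sum_le _ _).trans ((sum_le_sum hP).trans ?_)
    rw [sum_const, nsmul_eq_mul]
  -- numerical estimates
  have hEle : E ≤ CV * C1 * (h * (b + S)) * (q : ℝ) ^ (-(2 * ρ)) := by
    have k1 : ((q : ℝ) ^ ((h : ℝ)⁻¹) / b) ^ (-1 / 2 + 1 / 16 : ℝ) ≤ b * (q : ℝ) ^ (-(2 * ρ)) := by
      rw [Real.div_rpow (by positivity) (by positivity), ← Real.rpow_mul hqpos.le]
      have k2 : (b : ℝ) ^ (-1 / 2 + 1 / 16 : ℝ) = ((b : ℝ) ^ (7 / 16 : ℝ))⁻¹ := by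
        rw [← Real.rpow_neg (by positivity)]
        norm_num
      rw [k2, div_inv_eq_mul, mul_comm]
      have k3 : (b : ℝ) ^ (7 / 16 : ℝ) ≤ (b : ℝ) := by
        calc (b : ℝ) ^ (7 / 16 : ℝ) ≤ (b : ℝ) ^ (1 : ℝ) :=
              Real.rpow_le_rpow_of_exponent_le hbR (by norm_num)
          _ = b := Real.rpow_one _
      have k4 : (q : ℝ) ^ ((h : ℝ)⁻¹ * (-1 / 2 + 1 / 16)) ≤ (q : ℝ) ^ (-(2 * ρ)) := by
        apply Real.rpow_le_rpow_of_exponent_le hqR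
        have : 2 * ρ = (h : ℝ)⁻¹ * (1 / 8) := by rw [hρ]; field_simp; norm_num
        rw [this]
        have h7 : 0 < (h : ℝ)⁻¹ := by positivity
        nlinarith
      gcongr
    have k5 : X ^ (1 / 2 + 2 * (1 / 16) : ℝ) * (q : ℝ) ^ (-(1 + 1 / 16) : ℝ) ≤
        (q : ℝ) ^ (-(2 * ρ)) := by
      rw [hXdef, ← Real.rpow_mul hqpos.le, ← Real.rpow_add hqpos]
      apply Real.rpow_le_rpow_of_exponent_le hqR
      linarith
    rw [hE]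
    calc CV * C1 * (h * (((q : ℝ) ^ ((h : ℝ)⁻¹) / b) ^ (-1 / 2 + 1 / 16 : ℝ) +
          X ^ (1 / 2 + 2 * (1 / 16) : ℝ) * (q : ℝ) ^ (-(1 + 1 / 16) : ℝ) * S)) ≤
          CV * C1 * (h * (b * (q : ℝ) ^ (-(2 * ρ)) + (q : ℝ) ^ (-(2 * ρ)) * S)) := by gcongr
      _ = _ := by ring
  have hq2 : (q : ℝ) ^ (-(3 / 2) : ℝ) ≤ (q : ℝ) ^ (-ρ) :=
    Real.rpow_le_rpow_of_exponent_le hqR (by linarith)
  have hn4 : (q : ℝ) ^ ρ * (q : ℝ) ^ (-(2 * ρ)) = (q : ℝ) ^ (-ρ) := by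
    rw [← Real.rpow_add hqpos]
    congr 1
    ring
  rw [← hρ, ← hddef]
  rw [← hddef] at hmain
  calc _ ≤ R.card * (d * E) + d * (‖z‖ * (2 * CV * n0) * (q : ℝ) ^ (-(3 / 2) : ℝ)) := by
        refine (norm_add_le _ _).trans (add_le_add hmain ?_)
        rw [norm_mul, Complex.norm_natCast]
        gcongr
    _ ≤ (C2 * (q : ℝ) ^ ρ) * (d * (CV * C1 * (h * (b + S)) * (q : ℝ) ^ (-(2 * ρ)))) +
        d * (‖z‖ * (2 * CV * n0) * (q : ℝ) ^ (-ρ)) := by gcongr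
    _ = C2 * (CV * C1 * (h * (b + S))) * d * ((q : ℝ) ^ ρ * (q : ℝ) ^ (-(2 * ρ))) +
        ‖z‖ * (2 * CV * n0) * d * (q : ℝ) ^ (-ρ) := by ring
    _ = (C2 * (CV * C1 * (h * (b + S))) + ‖z‖ * (2 * CV * n0)) * (d * (q : ℝ) ^ (-ρ)) := by
        rw [hn4]; ring
    _ ≤ (C2 * (CV * C1 * (h * (b + S))) + ‖z‖ * (2 * CV * n0) + 1) * (d * (q : ℝ) ^ (-ρ)) :=
        mul_le_mul_of_nonneg_right (by linarith) (by positivity)
    _ = _ := by ring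

end Pool.Agent.X284.LI
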