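import Pool.Agent.X284.LI.PFin

/-!
# Counting the exceptional primes and the characters of small order
-/
set_option autoImplicit false

open Finset

namespace Pool.Agent.X284.LI

open Pool.Agent.W192.CY (S_DIV)

lemma card_pf {D K : ℕ} (hD0 : D ≠ 0) (hD : D ≤ 2 ^ K) : D.primeFactors.card ≤ K := by
  have h1 : 2 ^ D.primeFactors.card ≤ ∏ p ∈ D.primeFactors, p := by
    rw [← Finset.prod_const]
    exact Finset.prod_le_prod' fun p hp => (Nat.prime_of_mem_primeFactors hp).two_le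
  have h2 : ∏ p ∈ D.primeFactors, p ≤ D :=
    Nat.le_of_dvd (Nat.pos_of_ne_zero hD0) (Nat.prod_primeFactors_dvd D)
  exact (Nat.pow_le_pow_iff_right (by norm_num)).1 (h1.trans (h2.trans hD))

/-- the difference `(n b) ^ k - n0 ^ k` -/
def Dd (n0 k n b : ℕ) : ℕ := Int.natAbs (((n * b : ℕ) : ℤ) ^ k - (n0 : ℤ) ^ k)

lemma Dd_ne {n0 k n b : ℕ} (hk : 1 ≤ k) (h : n * b ≠ n0) : Dd n0 k n b ≠ 0 := by
  unfold Dd
  rw [Int.natAbs_ne_zero, sub_ne_zero]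
  intro h1
  have h2 : (n * b) ^ k = n0 ^ k := by exact_mod_cast h1
  exact h (Nat.pow_left_injective (by omega : k ≠ 0) h2)

lemma Dd_le (n0 k n b : ℕ) : Dd n0 k n b ≤ 2 ^ (k * (n * b + n0)) := by
  have h1 : Dd n0 k n b ≤ (n * b + n0) ^ k := by
    unfold Dd
    have h2 : (n * b) ^ k ≤ (n * b + n0) ^ k := Nat.pow_le_pow_left (by omega) k
    have h3 : n0 ^ k ≤ (n * b + n0) ^ k := Nat.pow_le_pow_left (by omega) k
    have h4 : (((n * b : ℕ) : ℤ) ^ k - (n0 : ℤ) ^ k) = (((n * b) ^ k : ℕ) : ℤ) - ((n0 ^ k : ℕ) : ℤ) := by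
      push_cast; ring
    rw [h4]
    omega
  refine h1.trans ?_
  have h5 : 2 ^ (k * (n * b + n0)) = (2 ^ (n * b + n0)) ^ k := by
    rw [← pow_mul, mul_comm k]
  rw [h5]
  exact Nat.pow_le_pow_left (Nat.lt_two_pow_self).le k

/-- the exceptional primes -/
theorem bad_count (B : Finset ℕ) (n0 : ℕ) {ε : ℝ} (hε : 0 < ε) :
    ∃ C : ℝ, 0 < C ∧ ∀ X : ℕ, 1 ≤ X →
      {q : ℕ | q.Prime ∧ q ≤ X ∧ ∃ b ∈ B, ¬ NS q ε b n0}.Finite ∧
      (({q : ℕ | q.Prime ∧ q ≤ X ∧ ∃ b ∈ B, ¬ NS q ε b n0}.ncard : ℕ) : ℝ) ≤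
        C * (X : ℝ) ^ (1 / 2 + ε) := by
  classical
  refine ⟨2 * (B.card + 1) * ((∑ b ∈ B, b : ℕ) + n0 + 1), by positivity, fun X hX => ?_⟩
  have hX1 : (1 : ℝ) ≤ X := by exact_mod_cast hX
  have hX0 : (0 : ℝ) < X := by linarith
  obtain ⟨Kx, hKx⟩ : ∃ Kx : ℕ, Kx = ⌊(X : ℝ) ^ (1 / 4 : ℝ)⌋₊ := ⟨_, rfl⟩
  obtain ⟨Nx, hNx⟩ : ∃ Nx : ℕ, Nx = ⌊(X : ℝ) ^ (ε / 2)⌋₊ := ⟨_, rfl⟩
  have hKle : (Kx : ℝ) ≤ (X : ℝ) ^ (1 / 4 : ℝ) := by rw [hKx]; exact Nat.floor_le (by positivity)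
  have hNle : (Nx : ℝ) ≤ (X : ℝ) ^ (ε / 2) := by rw [hNx]; exact Nat.floor_le (by positivity)
  have hsub : {q : ℕ | q.Prime ∧ q ≤ X ∧ ∃ b ∈ B, ¬ NS q ε b n0} ⊆
      (((Icc 1 Kx ×ˢ range (Nx + 1) ×ˢ B).biUnion
        (fun y : ℕ × ℕ × ℕ => if y.2.1 * y.2.2 = n0 then ∅ else
          (Dd n0 y.1 y.2.1 y.2.2).primeFactors) : Finset ℕ) : Set ℕ) := by
    rintro q ⟨hq, hqX, b, hb, hNS⟩
    unfold NS at hNS
    push Not at hNS
    obtain ⟨k, hk1, hk2, n, hn, hne, heq⟩ := hNS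
    have hqXR : (q : ℝ) ≤ X := by exact_mod_cast hqX
    rw [mem_coe, mem_biUnion]
    refine ⟨(k, n, b), ?_, ?_⟩
    · rw [mem_product, mem_product, mem_Icc, mem_range]
      refine ⟨⟨hk1, ?_⟩, ?_, hb⟩
      · rw [hKx]
        refine Nat.le_floor (hk2.trans ?_)
        exact Real.rpow_le_rpow (by positivity) hqXR (by norm_num)
      · refine Nat.lt_succ_of_le ?_
        rw [hNx]
        refine Nat.le_floor (hn.trans ?_)
        exact Real.rpow_le_rpow (by positivity) hqXR (by positivity)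
    · show q ∈ (if n * b = n0 then (∅ : Finset ℕ) else (Dd n0 k n b).primeFactors)
      rw [if_neg hne]
      refine Nat.mem_primeFactors.2 ⟨hq, ?_, Dd_ne hk1 hne⟩
      unfold Dd
      rw [← Int.natCast_dvd, ← ZMod.intCast_zmod_eq_zero_iff_dvd]
      push_cast
      push_cast at heq
      rw [heq, sub_self]
  refine ⟨(Finset.finite_toSet _).subset hsub, ?_⟩
  have h1 := Set.ncard_le_ncard hsub (Finset.finite_toSet _)
  rw [Set.ncard_coe_finset] at h1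
  have h2 := h1.trans card_biUnion_le
  have h3 : ∀ y ∈ Icc 1 Kx ×ˢ range (Nx + 1) ×ˢ B,
      (if y.2.1 * y.2.2 = n0 then (∅ : Finset ℕ) else
          (Dd n0 y.1 y.2.1 y.2.2).primeFactors).card ≤ Kx * (Nx * (∑ b ∈ B, b) + n0) := by
    rintro ⟨k, n, b⟩ hy
    rw [mem_product, mem_product, mem_Icc, mem_range] at hy
    obtain ⟨⟨hk1, hk2⟩, hn, hb⟩ := hy
    show (if n * b = n0 then (∅ : Finset ℕ) else (Dd n0 k n b).primeFactors).card ≤ _
    split_ifs with h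
    · simp
    · refine (card_pf (Dd_ne hk1 h) (Dd_le n0 k n b)).trans ?_
      have hb2 : b ≤ ∑ b ∈ B, b := single_le_sum (f := fun b => b) (fun _ _ => Nat.zero_le _) hb
      have hn2 : n ≤ Nx := Nat.lt_succ_iff.1 hn
      gcongr
  have h4 := h2.trans (sum_le_card_nsmul _ _ _ h3)
  rw [card_product, card_product, Nat.card_Icc, Nat.add_sub_cancel, card_range, smul_eq_mul] at h4
  have h5 : (({q : ℕ | q.Prime ∧ q ≤ X ∧ ∃ b ∈ B, ¬ NS q ε b n0}.ncard : ℕ) : ℝ) ≤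
      (Kx * ((Nx + 1) * B.card)) * (Kx * (Nx * (∑ b ∈ B, b : ℕ) + n0)) := by exact_mod_cast h4
  refine h5.trans ?_
  have hN1 : (1 : ℝ) ≤ (X : ℝ) ^ (ε / 2) := Real.one_le_rpow hX1 (by positivity)
  have h6 : ((Nx : ℝ) + 1) ≤ 2 * (X : ℝ) ^ (ε / 2) := by linarith
  have h7 : (Nx : ℝ) * (∑ b ∈ B, b : ℕ) + n0 ≤ ((∑ b ∈ B, b : ℕ) + n0 + 1) * (X : ℝ) ^ (ε / 2) := by
    have h8 : (n0 : ℝ) ≤ n0 * (X : ℝ) ^ (ε / 2) := le_mul_of_one_le_right (by positivity) hN1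
    have h9 : (Nx : ℝ) * (∑ b ∈ B, b : ℕ) ≤ (X : ℝ) ^ (ε / 2) * (∑ b ∈ B, b : ℕ) := by gcongr
    have h10 : (0 : ℝ) < (X : ℝ) ^ (ε / 2) := by positivity
    linarith
  have h8 : (B.card : ℝ) ≤ B.card + 1 := by linarith
  calc (Kx : ℝ) * ((Nx + 1) * B.card) * (Kx * (Nx * (∑ b ∈ B, b : ℕ) + n0)) ≤
      (X : ℝ) ^ (1 / 4 : ℝ) * ((2 * (X : ℝ) ^ (ε / 2)) * (B.card + 1)) *
      ((X : ℝ) ^ (1 / 4 : ℝ) * (((∑ b ∈ B, b : ℕ) + n0 + 1) * (X : ℝ) ^ (ε / 2))) := by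
        gcongr
    _ = 2 * (B.card + 1) * ((∑ b ∈ B, b : ℕ) + n0 + 1) * ((X : ℝ) ^ (1 / 4 : ℝ) *
        (X : ℝ) ^ (1 / 4 : ℝ) * ((X : ℝ) ^ (ε / 2) * (X : ℝ) ^ (ε / 2))) := by ring
    _ = _ := by
        rw [← Real.rpow_add hX0, ← Real.rpow_add hX0, ← Real.rpow_add hX0]
        congr 2
        ring

/-- the characters of small order -/
theorem small_order {q : ℕ} (hq : q.Prime) {Y : ℝ} (hY : 0 ≤ Y) :
    {χ : DirichletCharacter ℂ q | (orderOf χ : ℝ) < Y}.Finite ∧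
    (({χ : DirichletCharacter ℂ q | (orderOf χ : ℝ) < Y}.ncard : ℕ) : ℝ) ≤
      (q - 1).divisors.card * Y := by
  classical
  have : Fact q.Prime := ⟨hq⟩
  have : NeZero q := ⟨hq.ne_zero⟩
  obtain ⟨φ⟩ := DirichletCharacter.mulEquiv_units ℂ q
  have hcyc : IsCyclic (DirichletCharacter ℂ q) :=
    isCyclic_of_surjective φ.symm φ.symm.surjective
  have h8 : Nat.card (DirichletCharacter ℂ q) = q - 1 := by
    rw [Nat.card_congr φ.toEquiv, Nat.card_eq_fintype_card, ZMod.card_units_eq_totient,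
      Nat.totient_prime hq]
  have hfin : {χ : DirichletCharacter ℂ q | (orderOf χ : ℝ) < Y}.Finite := Set.toFinite _
  refine ⟨hfin, ?_⟩
  have hft : Fintype (DirichletCharacter ℂ q) := Fintype.ofFinite _
  have hsub : {χ : DirichletCharacter ℂ q | (orderOf χ : ℝ) < Y} ⊆
      ((((q - 1).divisors.filter (fun d : ℕ => (d : ℝ) < Y)).biUnion
        (fun d => univ.filter (fun χ : DirichletCharacter ℂ q => χ ^ d = 1)) : Finset _) : Set _) := by
    intro χ hχ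
    rw [mem_coe, mem_biUnion]
    refine ⟨orderOf χ, ?_, ?_⟩
    · rw [mem_filter, Nat.mem_divisors]
      refine ⟨⟨?_, ?_⟩, hχ⟩
      · rw [← h8]
        exact orderOf_dvd_natCard χ
      · have := hq.two_le
        omega
    · rw [mem_filter]
      exact ⟨mem_univ _, pow_orderOf_eq_one χ⟩
  have h1 := Set.ncard_le_ncard hsub (Finset.finite_toSet _)
  rw [Set.ncard_coe_finset] at h1
  have h2 := h1.trans card_biUnion_le
  have h3 : ∀ d ∈ (q - 1).divisors.filter (fun d : ℕ => (d : ℝ) < Y),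
      ((univ.filter (fun χ : DirichletCharacter ℂ q => χ ^ d = 1)).card : ℝ) ≤ Y := by
    intro d hd
    rw [mem_filter, Nat.mem_divisors] at hd
    have hd0 : 0 < d := Nat.pos_of_dvd_of_pos hd.1.1 (by have := hq.two_le; omega)
    have h4 := IsCyclic.card_pow_eq_one_le (α := DirichletCharacter ℂ q) hd0
    have h5 : ((univ.filter (fun χ : DirichletCharacter ℂ q => χ ^ d = 1)).card : ℝ) ≤ d := by
      exact_mod_cast h4
    exact h5.trans hd.2.le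
  calc (({χ : DirichletCharacter ℂ q | (orderOf χ : ℝ) < Y}.ncard : ℕ) : ℝ) ≤
      ((∑ d ∈ (q - 1).divisors.filter (fun d : ℕ => (d : ℝ) < Y),
        (univ.filter (fun χ : DirichletCharacter ℂ q => χ ^ d = 1)).card : ℕ) : ℝ) := by
        exact_mod_cast h2
    _ = ∑ d ∈ (q - 1).divisors.filter (fun d : ℕ => (d : ℝ) < Y),
        ((univ.filter (fun χ : DirichletCharacter ℂ q => χ ^ d = 1)).card : ℝ) := by push_cast; rfl
    _ ≤ ((q - 1).divisors.filter (fun d : ℕ => (d : ℝ) < Y)).card • Y :=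
        sum_le_card_nsmul _ _ _ h3
    _ ≤ (q - 1).divisors.card * Y := by
        rw [nsmul_eq_mul]
        have : (((q - 1).divisors.filter (fun d : ℕ => (d : ℝ) < Y)).card : ℝ) ≤
            (q - 1).divisors.card := by exact_mod_cast card_filter_le _ _
        gcongr

end Pool.Agent.X284.LI
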