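import Pool.Agent.X284.LI.PMain
import Pool.Agent.X284.LI.Core

/-!
# Linear combinations of L-values for characters of large order: the core estimate
-/
set_option autoImplicit false

namespace Pool.Agent.X284.LI

open Finset
open Pool.Agent.W192.CY
open Pool.Agent.W193.CY (ev_small mem_Eg order_le Eg_prim)
open Pool.Agent.W460.CYM (Em_spec)

theorem li_core2 {J : Type} [Fintype J] {V : J → ℝ → ℝ} {CV : J → ℝ} (hV : ∀ j, VW (V j) (CV j))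
    {N : J → ℕ} (hN : ∀ j, 1 ≤ N j) {c : J → ℕ → ℂ} (hc : ∀ j, Cb (c j)) (B : Finset ℕ)
    (hB : ∀ b ∈ B, 1 ≤ b) (p : J → ℕ → ℂ) {n0 : ℕ}
    (hD : ∑ j, ∑ b ∈ B, p j b * (if b ∣ n0 then c j (n0 / b) / ((n0 / b : ℕ) : ℂ) else 0) ≠ 0)
    {M₀ : ℕ} (hM₀ : 1 ≤ M₀) {ε : ℝ} (hε : 0 < ε) (hε4 : ε < 1 / 4) :
    ∃ q0 : ℝ, ∀ (q : ℕ) [NeZero q], q0 ≤ q → (∀ b ∈ B, Nat.Coprime b q) → Nat.Coprime n0 q →
      (∀ b ∈ B, NS q ε b n0) →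
      ∀ w : J → ℂ, (∀ j, ‖w j‖ = 1) → ∀ L : J → DirichletCharacter ℂ q → ℂ,
      (∀ (j : J) (χ : DirichletCharacter ℂ q), χ.IsPrimitive → ∀ X Y : ℝ, 0 < X → 0 < Y →
        X * Y = N j * (q : ℝ) ^ 2 / (4 * Real.pi ^ 2) →
        L j χ = ∑' n : ℕ, χ (n : ZMod q) * c j n / n * (V j (n / X) : ℂ) +
          w j * χ (N j : ZMod q) * gaussSum χ (ZMod.stdAddChar (N := q)) ^ 2 / q *
          ∑' n : ℕ, (starRingEnd ℂ) (χ (n : ZMod q)) * (starRingEnd ℂ) (c j n) / n *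
          (V j (n / Y) : ℂ)) →
      ∀ χ₀ : DirichletCharacter ℂ q, χ₀.IsPrimitive → (q : ℝ) ^ (3 / 4 + ε) ≤ orderOf χ₀ →
      ∃ a : ℕ, Nat.Coprime a (orderOf χ₀) ∧ a % M₀ = 1 % M₀ ∧ (χ₀ ^ a).IsPrimitive ∧
        ∑ j, ∑ b ∈ B, p j b * (χ₀ ^ a) (b : ZMod q) * L j (χ₀ ^ a) ≠ 0 := by
  classical
  have hdiv := Pool.Agent.W216.CY.t_div
  have horth := Pool.Agent.W230.CY.t_orth
  have hweil := Pool.Agent.W305.CY.t_weil Pool.Agent.W74.CY.wpp hdiv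
  have hmob := Pool.Agent.W155.CY.m_mob
  have hkloo := Pool.Agent.W976.CYKloom.m_kloo horth hweil
  obtain ⟨D0, hD0⟩ : ∃ D0 : ℂ, D0 = ∑ j, ∑ b ∈ B,
    p j b * (if b ∣ n0 then c j (n0 / b) / ((n0 / b : ℕ) : ℂ) else 0) := ⟨_, rfl⟩
  rw [← hD0] at hD
  obtain ⟨ρ, hρ⟩ : ∃ ρ : ℝ, ρ = ε ^ 2 / 8 := ⟨_, rfl⟩
  have hρ0 : 0 < ρ := by rw [hρ]; positivity
  have hρ1 : ρ ≤ 1 / 16 := by rw [hρ]; nlinarith
  have hA : ∀ (j : J) (b : ℕ), ∃ C : ℝ, 0 < C ∧ (1 ≤ b → ∀ (q : ℕ) [NeZero q],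
      Nat.Coprime b q →
      ∀ β : ℕ, ((β * n0 : ℕ) : ZMod q) = b → NS q ε b n0 →
      ∀ (χ₀ : DirichletCharacter ℂ q) (M : ℕ), 1 ≤ M → M ∣ orderOf χ₀ →
      (q : ℝ) ^ (3 / 4 + ε) ≤ orderOf χ₀ →
      ‖∑ χ ∈ Em q χ₀ M, χ (β : ZMod q) * (∑' n : ℕ, χ (n : ZMod q) * c j n / n *
          (V j (n / ((q : ℝ) ^ (3 / 2 : ℝ) / 2)) : ℂ)) -
        ((Em q χ₀ M).card : ℂ) * (if b ∣ n0 then c j (n0 / b) / ((n0 / b : ℕ) : ℂ) else 0)‖ ≤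
      C * orderOf χ₀ * (q : ℝ) ^ (-(ε ^ 2 / 8))) := by
    intro j b
    by_cases hb : 1 ≤ b
    · obtain ⟨C, hC, hC2⟩ := main_beta2 hdiv horth hmob hε hε4 (hV j) (hc j) (n0 := n0) hb
      exact ⟨C, hC, fun _ => hC2⟩
    · exact ⟨1, one_pos, fun h => absurd h hb⟩
  choose CA hCA hA using hA
  have hDu := fun j => dual_one hdiv hmob hkloo (hV j) (hN j) (hc j) (ε := ε / 2) (by linarith)
    (by linarith)
  choose CD hCD hDu using hDu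
  obtain ⟨C4, hC4, -, H4⟩ := hdiv (ρ / 2) (by linarith)
  -- the total constant
  obtain ⟨Ct, hCt⟩ : ∃ Ct : ℝ, Ct = ∑ j, ∑ b ∈ B, ‖p j b‖ * (CA j b + CD j) := ⟨_, rfl⟩
  have hCt0 : 0 ≤ Ct := by
    rw [hCt]
    refine sum_nonneg fun j _ => sum_nonneg fun b _ => ?_
    have := hCA j b
    have := hCD j
    positivity
  obtain ⟨q3, H5⟩ := ev_small (Ct * C4 * M₀ / ‖D0‖) 0 (ρ / 2) 1 (by linarith) one_pos
  refine ⟨max q3 2, fun q _ hq0' hBq hn0q hNS w hw L hL χ₀ hχ₀ hle => ?_⟩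
  have hqc : q3 ≤ q := (le_max_left _ _).trans hq0'
  have hq2 : (2 : ℝ) ≤ q := le_trans (le_max_right _ _) hq0'
  have hq2' : 2 ≤ q := by exact_mod_cast hq2
  have hqpos : (0 : ℝ) < q := by linarith
  have hq1 : (1 : ℝ) ≤ q := by linarith
  obtain ⟨d, hddef⟩ : ∃ d : ℕ, d = orderOf χ₀ := ⟨_, rfl⟩
  have hdpos' : 0 < d := by rw [hddef]; exact orderOf_pos χ₀
  have hdpos : (0 : ℝ) < d := by exact_mod_cast hdpos'
  have hdq : (d : ℝ) ≤ q := by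
    rw [hddef]
    exact_mod_cast le_trans (Nat.le_of_dvd (Nat.totient_pos.2 (by omega)) (order_le q χ₀))
      (Nat.totient_le q)
  by_contra hcon
  push Not at hcon
  obtain ⟨M₁, hM₁⟩ : ∃ M₁ : ℕ, M₁ = Nat.gcd M₀ (orderOf χ₀) := ⟨_, rfl⟩
  have hM₁1 : 1 ≤ M₁ := by rw [hM₁]; exact Nat.gcd_pos_of_pos_left _ (by omega)
  have hM₁d : M₁ ∣ orderOf χ₀ := by rw [hM₁]; exact Nat.gcd_dvd_right _ _
  have hM₁0 : M₁ ≤ M₀ := by rw [hM₁]; exact Nat.gcd_le_left _ (by omega)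
  have hLs : ∀ χ ∈ Em q χ₀ M₁, ∑ j, ∑ b ∈ B, p j b * χ (b : ZMod q) * L j χ = 0 := by
    intro χ hχ
    rw [hM₁] at hχ
    obtain ⟨hp, a, ha, ha', hχa⟩ := Em_spec q χ₀ χ M₀ hχ₀ hχ
    have := hcon a ha ha' (by rw [← hχa]; exact hp)
    rw [← hχa] at this
    exact this
  -- the inverse of `n0`
  obtain ⟨u, hu⟩ := (ZMod.isUnit_iff_coprime n0 q).2 hn0q
  obtain ⟨ns, hns⟩ : ∃ ns : ℕ, ns = (((u⁻¹ : (ZMod q)ˣ) : ZMod q)).val := ⟨_, rfl⟩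
  have hns2 : (ns : ZMod q) * (n0 : ZMod q) = 1 := by
    rw [hns, ZMod.natCast_zmod_val, ← hu, Units.inv_mul]
  have hβ : ∀ b : ℕ, (((b * ns) * n0 : ℕ) : ZMod q) = b := by
    intro b
    push_cast
    rw [mul_assoc, hns2, mul_one]
  -- the parts
  obtain ⟨K, hK⟩ : ∃ K : ℕ, K = (Em q χ₀ M₁).card := ⟨_, rfl⟩
  obtain ⟨z, hz⟩ : ∃ z : J → ℕ → ℂ, z = fun j b =>
    if b ∣ n0 then c j (n0 / b) / ((n0 / b : ℕ) : ℂ) else 0 := ⟨_, rfl⟩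
  obtain ⟨TT, hTT⟩ : ∃ TT : J → ℕ → ℂ, TT = fun j b => ∑ χ ∈ Em q χ₀ M₁,
    χ ((b * ns : ℕ) : ZMod q) * (∑' n : ℕ, χ (n : ZMod q) * c j n / n *
          (V j (n / ((q : ℝ) ^ (3 / 2 : ℝ) / 2)) : ℂ)) := ⟨_, rfl⟩
  obtain ⟨DD, hDD⟩ : ∃ DD : J → ℕ → ℂ, DD = fun j b => ∑ χ ∈ Em q χ₀ M₁,
    χ ((b * ns : ℕ) : ZMod q) *
      (χ (N j : ZMod q) * gaussSum χ (ZMod.stdAddChar (N := q)) ^ 2 / q *
        ∑' n : ℕ, (starRingEnd ℂ) (χ (n : ZMod q)) * (starRingEnd ℂ) (c j n) / n *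
        (V j (n / (N j * Real.sqrt q / (2 * Real.pi ^ 2))) : ℂ)) := ⟨_, rfl⟩
  have hpi := Real.pi_pos
  have hL' : ∀ j, ∀ χ ∈ Em q χ₀ M₁, L j χ = ∑' n : ℕ, χ (n : ZMod q) * c j n / n *
      (V j (n / ((q : ℝ) ^ (3 / 2 : ℝ) / 2)) : ℂ) +
        w j * χ (N j : ZMod q) * gaussSum χ (ZMod.stdAddChar (N := q)) ^ 2 / q *
          ∑' n : ℕ, (starRingEnd ℂ) (χ (n : ZMod q)) * (starRingEnd ℂ) (c j n) / n *
          (V j (n / (N j * Real.sqrt q / (2 * Real.pi ^ 2))) : ℂ) := by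
    intro j χ hχ
    rw [hM₁] at hχ
    have hNpos : (0 : ℝ) < N j := by exact_mod_cast hN j
    refine hL j χ (Em_spec q χ₀ χ M₀ hχ₀ hχ).1 _ _ (by positivity) (by positivity) ?_
    have : (q : ℝ) ^ (3 / 2 : ℝ) * Real.sqrt q = (q : ℝ) ^ 2 := by
      rw [Real.sqrt_eq_rpow, ← Real.rpow_add hqpos, ← Real.rpow_natCast]
      norm_num
    rw [← this]
    field_simp
    try ring
  have hsum : ∀ j b, ∑ χ ∈ Em q χ₀ M₁, χ ((b * ns : ℕ) : ZMod q) * L j χ =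
      TT j b + w j * DD j b := by
    intro j b
    rw [hTT, hDD]
    simp only
    rw [mul_sum, ← sum_add_distrib]
    refine sum_congr rfl fun χ hχ => ?_
    rw [hL' j χ hχ]
    ring
  have hzero : ∑ j, ∑ b ∈ B, p j b * (TT j b + w j * DD j b) = 0 := by
    have e1 : ∑ χ ∈ Em q χ₀ M₁, χ (ns : ZMod q) *
        ∑ j, ∑ b ∈ B, p j b * χ (b : ZMod q) * L j χ = 0 := by
      refine sum_eq_zero fun χ hχ => ?_
      rw [hLs χ hχ, mul_zero]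
    rw [← e1]
    have e2 : ∀ χ ∈ Em q χ₀ M₁, χ (ns : ZMod q) *
        ∑ j, ∑ b ∈ B, p j b * χ (b : ZMod q) * L j χ =
        ∑ j, ∑ b ∈ B, p j b * (χ ((b * ns : ℕ) : ZMod q) * L j χ) := by
      intro χ _
      rw [mul_sum]
      refine sum_congr rfl fun j _ => ?_
      rw [mul_sum]
      refine sum_congr rfl fun b _ => ?_
      rw [Nat.cast_mul, map_mul]
      ring
    rw [sum_congr rfl e2]
    symm
    rw [sum_comm]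
    refine sum_congr rfl fun j _ => ?_
    rw [sum_comm]
    refine sum_congr rfl fun b _ => ?_
    rw [← hsum, mul_sum]
  have hKD : (K : ℂ) * D0 = -∑ j, ∑ b ∈ B, p j b * ((TT j b - K * z j b) + w j * DD j b) := by
    have e1 : D0 = ∑ j, ∑ b ∈ B, p j b * z j b := by rw [hD0, hz]
    have e2 : ∑ j, ∑ b ∈ B, p j b * ((TT j b - K * z j b) + w j * DD j b) =
        ∑ j, ∑ b ∈ B, p j b * (TT j b + w j * DD j b) - K * ∑ j, ∑ b ∈ B, p j b * z j b := by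
      rw [mul_sum, ← sum_sub_distrib]
      refine sum_congr rfl fun j _ => ?_
      rw [mul_sum, ← sum_sub_distrib]
      refine sum_congr rfl fun b _ => ?_
      ring
    rw [e2, hzero, e1]
    ring
  have hTb : ∀ j, ∀ b ∈ B, ‖TT j b - K * z j b‖ ≤ CA j b * d * (q : ℝ) ^ (-ρ) := by
    intro j b hb
    have h1 := hA j b (hB b hb) q (hBq b hb) (b * ns) (hβ b) (hNS b hb) χ₀ M₁ hM₁1 hM₁d hle
    rw [hTT, hz, hK, hddef, hρ]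
    exact h1
  have hDb : ∀ j, ∀ b ∈ B, ‖w j * DD j b‖ ≤ CD j * d * (q : ℝ) ^ (-ρ) := by
    intro j b hb
    have h1 := hDu j q χ₀ M₁ hM₁1 hM₁d (b * ns)
    have h2 := hCD j
    rw [norm_mul, hw j, one_mul, hDD]
    refine h1.trans ?_
    have h3 : (q : ℝ) ^ (3 / 4 + ε / 2 : ℝ) ≤ d * (q : ℝ) ^ (-ρ) := by
      calc (q : ℝ) ^ (3 / 4 + ε / 2) ≤ (q : ℝ) ^ (3 / 4 + ε) * (q : ℝ) ^ (-ρ) := by
            rw [← Real.rpow_add hqpos]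
            exact Real.rpow_le_rpow_of_exponent_le hq1 (by rw [hρ]; nlinarith)
        _ ≤ _ := by rw [← hddef] at hle; gcongr
    rw [mul_assoc]
    gcongr
  have hup : (K : ℝ) * ‖D0‖ ≤ Ct * (d * (q : ℝ) ^ (-ρ)) := by
    have e1 : (K : ℝ) * ‖D0‖ = ‖(K : ℂ) * D0‖ := by
      rw [norm_mul, Complex.norm_natCast]
    rw [e1, hKD, norm_neg, hCt, sum_mul]
    refine (norm_sum_le _ _).trans (sum_le_sum fun j _ => ?_)
    rw [sum_mul]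
    refine (norm_sum_le _ _).trans (sum_le_sum fun b hb => ?_)
    rw [norm_mul]
    have h1 := (norm_add_le (TT j b - K * z j b) (w j * DD j b)).trans
      (add_le_add (hTb j b hb) (hDb j b hb))
    calc ‖p j b‖ * ‖TT j b - K * z j b + w j * DD j b‖ ≤
          ‖p j b‖ * (CA j b * d * (q : ℝ) ^ (-ρ) + CD j * d * (q : ℝ) ^ (-ρ)) := by gcongr
      _ = _ := by ring
  -- lower bound for `K`
  have hcard0 : K * Nat.totient M₁ = Nat.totient d := by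
    obtain ⟨t, ht, -⟩ := hmob q χ₀ M₁ hM₁1 hM₁d
    rw [hK, hddef]
    exact ht
  have hKφ : (Nat.totient d : ℝ) ≤ K * M₀ := by
    rw [← hcard0]
    push_cast
    have : (Nat.totient M₁ : ℝ) ≤ M₀ := by
      exact_mod_cast (Nat.totient_le M₁).trans hM₁0
    gcongr
  have hφ := H4 d (by omega)
  have hdφ : (d : ℝ) * (q : ℝ) ^ (-ρ) ≤ C4 * Nat.totient d * (q : ℝ) ^ (-(ρ / 2)) := by
    have e1 : (d : ℝ) = (d : ℝ) ^ (1 - ρ / 2) * (d : ℝ) ^ (ρ / 2) := by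
      rw [← Real.rpow_add hdpos]
      simp
    have e2 : (d : ℝ) ^ (ρ / 2) ≤ (q : ℝ) ^ (ρ / 2) :=
      Real.rpow_le_rpow hdpos.le hdq (by linarith)
    calc (d : ℝ) * (q : ℝ) ^ (-ρ)
        = (d : ℝ) ^ (1 - ρ / 2) * (d : ℝ) ^ (ρ / 2) * (q : ℝ) ^ (-ρ) := by rw [← e1]
      _ ≤ (C4 * Nat.totient d) * (q : ℝ) ^ (ρ / 2) * (q : ℝ) ^ (-ρ) := by gcongr
      _ = C4 * Nat.totient d * ((q : ℝ) ^ (ρ / 2) * (q : ℝ) ^ (-ρ)) := by ring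
      _ = C4 * Nat.totient d * (q : ℝ) ^ (-(ρ / 2)) := by
          rw [← Real.rpow_add hqpos]
          congr 2
          ring
  have hφpos : (0 : ℝ) < Nat.totient d := by
    exact_mod_cast Nat.totient_pos.2 (by omega)
  have hM₀R : (1 : ℝ) ≤ M₀ := by exact_mod_cast hM₀
  have hKpos : (0 : ℝ) < K := by
    rcases Nat.eq_zero_or_pos K with h | h
    · rw [h, Nat.cast_zero, zero_mul] at hKφ
      linarith
    · exact_mod_cast h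
  have hDpos : 0 < ‖D0‖ := norm_pos_iff.2 hD
  have hfin := H5 q hqc
  rw [zero_mul, add_zero] at hfin
  have key : (K : ℝ) * ‖D0‖ ≤ K * ‖D0‖ * (Ct * C4 * M₀ / ‖D0‖ * (q : ℝ) ^ (-(ρ / 2))) := by
    calc (K : ℝ) * ‖D0‖ ≤ Ct * (d * (q : ℝ) ^ (-ρ)) := hup
      _ ≤ Ct * (C4 * (K * M₀) * (q : ℝ) ^ (-(ρ / 2))) := by
          refine mul_le_mul_of_nonneg_left (hdφ.trans ?_) hCt0
          gcongr
      _ = _ := by field_simp
  have : (K : ℝ) * ‖D0‖ * (Ct * C4 * M₀ / ‖D0‖ * (q : ℝ) ^ (-(ρ / 2))) < K * ‖D0‖ * 1 := by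
    gcongr
  linarith

end Pool.Agent.X284.LI
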