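import Pool.Agent.X284.LI.PCore
import Pool.Agent.X284.LI.Fin

/-!
# Linear combinations of central values, characters of large order
-/
set_option autoImplicit false

open Complex Filter Topology Set UpperHalfPlane MatrixGroups CongruenceSubgroup ZMod

namespace Pool.Agent.X284.LI

open Pool.Agent.W192.CY
open Pool.Agent.X284.KS
open Pool.Agent.W440.TW (inv_primitive gauss_ne_zero gauss_conj)

/-- the Galois conjugates of a vanishing combination vanish -/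
theorem gal_comb {ι : Type} [Fintype ι] {N m : ι → ℕ} {W : ι → Submodule ℚ ℂ}
    (hWfg : ∀ j, (W j).FG) {F : ι → (q : ℕ) → DirichletCharacter ℂ q → ℂ → ℂ}
    (hval : ∀ j, ∀ (q : ℕ) [NeZero q], Nat.Coprime q (N j) → ∃ v : (ZMod q)ˣ → ℂ,
      (∀ u, v u ∈ W j) ∧ ∀ ψ : DirichletCharacter ℂ q, ψ.IsPrimitive →
        gaussSum ψ⁻¹ (stdAddChar (N := q)) * F j q ψ (m j) =
          ∑ u : (ZMod q)ˣ, ψ⁻¹ (u : ZMod q) * v u) (B : Finset ℕ) (x : ι → ℕ → ℂ) :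
    ∃ M : ℕ, 0 < M ∧ ∀ (q : ℕ) [NeZero q], (∀ j, Nat.Coprime q (N j)) →
      (∀ b ∈ B, Nat.Coprime b q) → ∀ (χ : DirichletCharacter ℂ q), χ.IsPrimitive →
      ∀ a : ℕ, Nat.Coprime a (orderOf χ) → a % M = 1 % M → (χ ^ a).IsPrimitive →
      ∑ j, ∑ b ∈ B, x j b * χ (b : ZMod q) * F j q χ (m j) = 0 →
      ∑ j, ∑ b ∈ B, x j b * (χ ^ a) (b : ZMod q) * F j q (χ ^ a) (m j) = 0 := by
  classical
  obtain ⟨W', hW'⟩ : ∃ W' : Submodule ℚ ℂ, W' = ⨆ y : ι × B,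
    (W y.1).map (LinearMap.mulLeft ℚ (x y.1 y.2)) := ⟨_, rfl⟩
  have hW'fg : W'.FG := by
    rw [hW']
    exact Submodule.fg_iSup _ fun y => (hWfg y.1).map _
  obtain ⟨M, hM, hgal⟩ := Pool.Agent.TH936.NF.galW _ hW'fg
  refine ⟨M, hM, fun q _ hqN hBq χ hχ a ha1 ha2 ha3 h0 => ?_⟩
  choose v hv1 hv2 using fun j => hval j q (hqN j)
  let ub : ℕ → (ZMod q)ˣ := fun b => if h : Nat.Coprime b q then ZMod.unitOfCoprime b h else 1
  have hub : ∀ b ∈ B, ((ub b : (ZMod q)ˣ) : ZMod q) = b := by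
    intro b hb
    show (((if h : Nat.Coprime b q then ZMod.unitOfCoprime b h else 1 : (ZMod q)ˣ)) : ZMod q) = b
    rw [dif_pos (hBq b hb), ZMod.coe_unitOfCoprime]
  let vv : (ZMod q)ˣ → ℂ := fun u => ∑ j, ∑ b ∈ B, x j b * v j (u * ub b)
  have hvv : ∀ u, vv u ∈ W' := by
    intro u
    refine Submodule.sum_mem _ fun j _ => Submodule.sum_mem _ fun b hb => ?_
    rw [hW']
    refine Submodule.mem_iSup_of_mem (j, (⟨b, hb⟩ : B)) ?_
    exact ⟨v j (u * ub b), hv1 j _, rfl⟩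
  have hcomb : ∀ ψ : DirichletCharacter ℂ q, ψ.IsPrimitive →
      ∑ u : (ZMod q)ˣ, ψ⁻¹ (u : ZMod q) * vv u = gaussSum ψ⁻¹ (stdAddChar (N := q)) *
        ∑ j, ∑ b ∈ B, x j b * ψ (b : ZMod q) * F j q ψ (m j) := by
    intro ψ hψ
    have e1 : ∀ j, ∀ b ∈ B, ∑ u : (ZMod q)ˣ, ψ⁻¹ (u : ZMod q) * v j (u * ub b) =
        ψ (b : ZMod q) * (gaussSum ψ⁻¹ (stdAddChar (N := q)) * F j q ψ (m j)) := by
      intro j b hb
      rw [hv2 j ψ hψ, Finset.mul_sum]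
      refine Fintype.sum_equiv (Equiv.mulRight (ub b)) _ _ fun u => ?_
      rw [Equiv.coe_mulRight, Units.val_mul, map_mul, hub b hb]
      have hbu : IsUnit (b : ZMod q) := (ZMod.isUnit_iff_coprime b q).2 (hBq b hb)
      have e2 : ψ (b : ZMod q) * ψ⁻¹ (b : ZMod q) = 1 := by
        rw [← MulChar.mul_apply, mul_inv_cancel, MulChar.one_apply hbu]
      calc ψ⁻¹ (u : ZMod q) * v j (u * ub b) =
            (ψ (b : ZMod q) * ψ⁻¹ (b : ZMod q)) * (ψ⁻¹ (u : ZMod q) * v j (u * ub b)) := by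
            rw [e2, one_mul]
        _ = _ := by ring
    show ∑ u : (ZMod q)ˣ, ψ⁻¹ (u : ZMod q) * (∑ j, ∑ b ∈ B, x j b * v j (u * ub b)) = _
    rw [Finset.mul_sum]
    simp only [Finset.mul_sum]
    rw [Finset.sum_comm]
    refine Finset.sum_congr rfl fun j _ => ?_
    rw [Finset.sum_comm]
    refine Finset.sum_congr rfl fun b hb => ?_
    have e3 := e1 j b hb
    calc ∑ u : (ZMod q)ˣ, ψ⁻¹ (u : ZMod q) * (x j b * v j (u * ub b)) =
          x j b * ∑ u : (ZMod q)ˣ, ψ⁻¹ (u : ZMod q) * v j (u * ub b) := by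
          rw [Finset.mul_sum]
          exact Finset.sum_congr rfl fun u _ => by ring
      _ = _ := by rw [e3]; ring
  have h1 : ∑ u : (ZMod q)ˣ, χ⁻¹ (u : ZMod q) * vv u = 0 := by
    rw [hcomb χ hχ, h0, mul_zero]
  have h2 := hgal (orderOf χ) a (orderOf_pos χ) ha1 ha2 (ZMod q)ˣ
    (fun u => χ⁻¹ (u : ZMod q)) vv (fun u => by
      have := chi_root χ⁻¹ u
      rwa [orderOf_inv] at this) hvv h1
  have h3 : ∑ u : (ZMod q)ˣ, (χ ^ a)⁻¹ (u : ZMod q) * vv u = 0 := by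
    rw [← h2]
    refine Finset.sum_congr rfl fun u _ => ?_
    rw [← inv_pow, MulChar.pow_apply_coe]
  rw [hcomb (χ ^ a) ha3] at h3
  exact (mul_eq_zero.1 h3).resolve_left (gauss_ne_zero _ (inv_primitive _ ha3))

/-- the Euler product and the holomorphy -/
def LF {ι : Type} (P : ι → Newform) (L : ι → (q : ℕ) → DirichletCharacter ℂ q → ℂ → ℂ) : Prop :=
  ∀ (j : ι) (q : ℕ) (χ : DirichletCharacter ℂ q), 1 ≤ q → Nat.Coprime q (P j).N →
    χ.IsPrimitive → Differentiable ℂ (L j q χ) ∧ ∀ s : ℂ, ((P j).m : ℝ) + 1 / 2 < s.re →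
      HasProd (fun p : Nat.Primes =>
        (1 - χ ((p : ℕ) : ZMod q) * cf (P j).f p * ((p : ℕ) : ℂ) ^ (-s) +
          χ ((p : ℕ) : ZMod q) ^ 2 * (P j).η ((p : ℕ) : ZMod (P j).N) *
            ((p : ℕ) : ℂ) ^ (2 * ((P j).m : ℂ) - 1 - 2 * s))⁻¹) (L j q χ s)

theorem li_large {ι : Type} [Fintype ι] (P : ι → Newform)
    (hne : ∀ i j, i ≠ j → {p : ℕ | p.Prime ∧ nc (P i) p ≠ nc (P j) p}.Infinite) :
    ∃ L : ι → (q : ℕ) → DirichletCharacter ℂ q → ℂ → ℂ, LF P L ∧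
      ∀ (B : Finset ℕ), (∀ b ∈ B, 1 ≤ b) → ∀ x : ι → ℕ → ℂ, (∃ j, ∃ b ∈ B, x j b ≠ 0) →
        ∃ n0 : ℕ, 1 ≤ n0 ∧ ∀ ε : ℝ, 0 < ε → ε < 1 / 4 → ∃ q0 : ℝ, ∀ q : ℕ, q0 ≤ q → 1 ≤ q →
          (∀ j, Nat.Coprime q (P j).N) → (∀ b ∈ B, Nat.Coprime b q) → Nat.Coprime n0 q →
          (∀ b ∈ B, NS q ε b n0) →
          ∀ χ : DirichletCharacter ℂ q, χ.IsPrimitive → (q : ℝ) ^ (3 / 4 + ε) ≤ orderOf χ →
            ∑ j, ∑ b ∈ B, x j b * χ (b : ZMod q) * L j q χ (P j).m ≠ 0 := by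
  classical
  choose W F hWfg hF hAFE hval using fun j => packL (P j).m_pos (P j).newf
  refine ⟨F, fun j q χ h1 h2 h3 => hF j q χ h1 h2 h3, ?_⟩
  intro B hB x hx
  obtain ⟨n0, hn0, -, hD⟩ := exists_n0 (c := fun j => nc (P j)) (fun j => nc_one _)
    (fun j a b h => nc_mul _ a b h) hne B hB x hx ∅ (fun b _ p _ _ => Finset.notMem_empty p)
  refine ⟨n0, hn0, fun ε hε hε4 => ?_⟩
  obtain ⟨M, hM, hgal⟩ := gal_comb (m := fun j => (P j).m) hWfg hval B x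
  have hVk := fun j => Pool.Agent.TH936.HK.h_vk (P j).m (P j).m_pos
  choose CV hVW using hVk
  obtain ⟨q0, hq0⟩ := li_core2 hVW (N := fun j => (P j).N)
    (fun j => Nat.pos_of_ne_zero (NeZero.ne (P j).N)) (c := fun j => nc (P j))
    (fun j => nc_Cb (P j)) B hB x hD (M₀ := M) hM hε hε4
  refine ⟨q0, fun q hq0q hq1 hqN hBq hn0q hNS χ hχ hord h0 => ?_⟩
  have : NeZero q := ⟨by omega⟩
  obtain ⟨a, ha1, ha2, ha3, ha4⟩ := hq0 q hq0q hBq hn0q hNS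
    (fun j => (P j).w * (P j).η (q : ZMod (P j).N)) (fun j => by
      have hu : IsUnit (q : ZMod (P j).N) := (ZMod.isUnit_iff_coprime q (P j).N).2 (hqN j)
      have := (P j).η.unit_norm_eq_one hu.unit
      rw [norm_mul, (P j).newf.norm, one_mul]
      simpa using this) (fun j ψ => F j q ψ (P j).m)
    (fun j ψ hψ X Y hX hY hXY => hAFE j q ψ (hqN j) hψ X Y hX hY hXY) χ hχ hord
  exact ha4 (hgal q hqN hBq χ hχ a ha1 ha2 ha3 h0)

end Pool.Agent.X284.LI
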