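import Mathlib
import Pool.Agent.W192.CY.Stn
import Pool.Agent.W196.CY.TAIL

/-!
The count of small integers in a coset of a multiplicative subgroup and the tail sum over a coset.
Adaptation of the files of helper143, helper736 and helper196.
-/

set_option autoImplicit false

namespace Pool.Agent.X284.LI

open Finset
open Pool.Agent.W192.CY
open Pool.Agent.W196.CY (pw case1 case2)

/-- the residue of `k` belongs to `a H` -/
def PC (q : ℕ) (a : (ZMod q)ˣ) (H : Subgroup (ZMod q)ˣ) (k : ℕ) : Prop :=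
  ∃ u ∈ H, (((a * u : (ZMod q)ˣ)) : ZMod q) = (k : ZMod q)

theorem PC_prod {q : ℕ} {a : (ZMod q)ˣ} {H : Subgroup (ZMod q)ˣ} {j : ℕ} (f : Fin j → ℕ)
    (hf : ∀ i, PC q a H (f i)) : PC q (a ^ j) H (∏ i, f i) := by
  choose u hu1 hu2 using hf
  refine ⟨∏ i, u i, H.prod_mem fun i _ => hu1 i, ?_⟩
  have e : a ^ j * ∏ i, u i = ∏ i, (a * u i) := by
    rw [Finset.prod_mul_distrib, Finset.prod_const, Finset.card_univ, Fintype.card_fin]
  rw [e, Units.coe_prod, Nat.cast_prod]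
  exact Finset.prod_congr rfl fun i _ => hu2 i

open Classical in
/-- the integers up to `m` in `a H` -/
noncomputable def SC (q : ℕ) (a : (ZMod q)ˣ) (H : Subgroup (ZMod q)ˣ) (m : ℕ) : Finset ℕ :=
  (Icc 1 m).filter (PC q a H)

theorem mem_SC {q : ℕ} {a : (ZMod q)ˣ} {H : Subgroup (ZMod q)ˣ} {m k : ℕ} :
    k ∈ SC q a H m ↔ (1 ≤ k ∧ k ≤ m) ∧ PC q a H k := by
  classical
  unfold SC
  rw [mem_filter, mem_Icc]

theorem SC_card (q : ℕ) [NeZero q] (a : (ZMod q)ˣ) (H : Subgroup (ZMod q)ˣ) (m : ℕ) :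
    (SC q a H m).card ≤ (m / q + 1) * Nat.card H := by
  classical
  have hfin : ((fun u : (ZMod q)ˣ => (((a * u : (ZMod q)ˣ)) : ZMod q)) ''
      (H : Set (ZMod q)ˣ)).Finite := Set.toFinite _
  have hc : hfin.toFinset.card ≤ Nat.card H := by
    rw [← Set.ncard_eq_toFinset_card _ hfin]
    refine (Set.ncard_image_le (Set.toFinite _)).trans (le_of_eq ?_)
    exact (Nat.card_coe_set_eq _).symm
  calc (SC q a H m).card ≤ (range (m / q + 1) ×ˢ hfin.toFinset).card := by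
        refine card_le_card_of_injOn (fun k => (k / q, (k : ZMod q))) ?_ ?_
        · intro k hk
          rw [mem_coe, mem_SC] at hk
          rw [mem_coe, mem_product, mem_range, Set.Finite.mem_toFinset]
          exact ⟨Nat.lt_succ_of_le (Nat.div_le_div_right hk.1.2), hk.2⟩
        · intro k _ k' _ he
          have h1 : k / q = k' / q := congrArg Prod.fst he
          have h2 : (k : ZMod q) = (k' : ZMod q) := congrArg Prod.snd he
          have h3 : k % q = k' % q := (ZMod.natCast_eq_natCast_iff' k k' q).mp h2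
          rw [← Nat.div_add_mod k q, ← Nat.div_add_mod k' q, h1, h3]
    _ = (m / q + 1) * hfin.toFinset.card := by rw [card_product, card_range]
    _ ≤ _ := Nat.mul_le_mul_left _ hc

theorem c_count (h : S_DIV) : ∀ (j : ℕ), 1 ≤ j → ∀ η : ℝ, 0 < η → ∃ C : ℝ, 0 < C ∧
    ∀ (q : ℕ) [NeZero q] (a : (ZMod q)ˣ) (H : Subgroup (ZMod q)ˣ) (y : ℝ), 1 ≤ y →
      ((SC q a H ⌊y⌋₊).card : ℝ) ^ j ≤ C * y ^ η * (y ^ j / q + 1) * Nat.card H := by
  classical
  intro j hj η hη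
  have hj0 : (0 : ℝ) < (j : ℝ) := by exact_mod_cast hj
  obtain ⟨C, hC, hdiv, -⟩ := h (η / (j : ℝ) ^ 2) (by positivity)
  refine ⟨C ^ j, by positivity, ?_⟩
  intro q _ a H y hy
  have hq : (0 : ℝ) < (q : ℝ) := by exact_mod_cast Nat.pos_of_ne_zero (NeZero.ne q)
  have hy0 : (0 : ℝ) ≤ y := by linarith
  set S := SC q a H ⌊y⌋₊ with hS
  set T := SC q (a ^ j) H ⌊y ^ j⌋₊ with hT
  -- the map
  have hmaps : ∀ f ∈ Fintype.piFinset (fun _ : Fin j => S), (∏ i, f i) ∈ T := by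
    intro f hf
    rw [Fintype.mem_piFinset] at hf
    have hf' : ∀ i, (1 ≤ f i ∧ f i ≤ ⌊y⌋₊) ∧ PC q a H (f i) := fun i => mem_SC.mp (hf i)
    rw [hT, mem_SC]
    refine ⟨⟨?_, ?_⟩, PC_prod f fun i => (hf' i).2⟩
    · exact Nat.one_le_iff_ne_zero.mpr (Finset.prod_ne_zero_iff.mpr fun i _ => by
        have := (hf' i).1.1
        omega)
    · rw [Nat.le_floor_iff (by positivity)]
      push_cast
      calc ∏ i, (f i : ℝ) ≤ ∏ _i : Fin j, y := by
            refine Finset.prod_le_prod (fun i _ => by positivity) fun i _ => ?_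
            exact (Nat.le_floor_iff hy0).mp (hf' i).1.2
        _ = y ^ j := by rw [Finset.prod_const, Finset.card_univ, Fintype.card_fin]
  have hfib : ∀ K ∈ T, (((Fintype.piFinset (fun _ : Fin j => S)).filter
      (fun f => ∏ i, f i = K)).card : ℝ) ≤ C ^ j * y ^ η := by
    intro K hK
    rw [hT, mem_SC] at hK
    have hK0 : K ≠ 0 := by have := hK.1.1; omega
    have h1 : ((Fintype.piFinset (fun _ : Fin j => S)).filter
        (fun f => ∏ i, f i = K)).card ≤ K.divisors.card ^ j := by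
      calc _ ≤ (Fintype.piFinset (fun _ : Fin j => K.divisors)).card := by
            refine Finset.card_le_card fun f hf => ?_
            rw [mem_filter] at hf
            rw [Fintype.mem_piFinset]
            intro i
            rw [Nat.mem_divisors]
            exact ⟨hf.2 ▸ Finset.dvd_prod_of_mem f (Finset.mem_univ i), hK0⟩
        _ = _ := by
            rw [Fintype.card_piFinset, Finset.prod_const, Finset.card_univ, Fintype.card_fin]
    have h2 : (((Fintype.piFinset (fun _ : Fin j => S)).filter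
        (fun f => ∏ i, f i = K)).card : ℝ) ≤ (K.divisors.card : ℝ) ^ j := by exact_mod_cast h1
    refine h2.trans ?_
    have h3 : (K.divisors.card : ℝ) ≤ C * y ^ (η / j) := by
      refine (hdiv K hK.1.1).trans ?_
      refine mul_le_mul_of_nonneg_left ?_ hC.le
      have h4 : (K : ℝ) ≤ y ^ j := (Nat.le_floor_iff (by positivity)).mp hK.1.2
      calc (K : ℝ) ^ (η / (j : ℝ) ^ 2) ≤ (y ^ j) ^ (η / (j : ℝ) ^ 2) :=
            Real.rpow_le_rpow (by positivity) h4 (by positivity)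
        _ = y ^ (η / j) := by
            rw [← Real.rpow_natCast y j, ← Real.rpow_mul hy0]
            congr 1
            field_simp
    calc (K.divisors.card : ℝ) ^ j ≤ (C * y ^ (η / j)) ^ j :=
          pow_le_pow_left₀ (by positivity) h3 j
      _ = C ^ j * y ^ η := by
          rw [mul_pow, ← Real.rpow_natCast (y ^ (η / j)) j, ← Real.rpow_mul hy0]
          congr 2
          field_simp
  have hTc : (T.card : ℝ) ≤ (y ^ j / q + 1) * Nat.card H := by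
    have h1 := SC_card q (a ^ j) H ⌊y ^ j⌋₊
    have h2 : (T.card : ℝ) ≤ (((⌊y ^ j⌋₊ / q + 1 : ℕ)) : ℝ) * Nat.card H := by exact_mod_cast h1
    refine h2.trans (mul_le_mul_of_nonneg_right ?_ (by positivity))
    push_cast
    have h3 : ((⌊y ^ j⌋₊ / q : ℕ) : ℝ) ≤ (⌊y ^ j⌋₊ : ℝ) / q := Nat.cast_div_le
    have h4 : (⌊y ^ j⌋₊ : ℝ) / q ≤ y ^ j / q :=
      div_le_div_of_nonneg_right (Nat.floor_le (by positivity)) hq.le
    linarith
  have hcard : (S.card : ℝ) ^ j = ((Fintype.piFinset (fun _ : Fin j => S)).card : ℝ) := by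
    rw [Fintype.card_piFinset, Finset.prod_const, Finset.card_univ, Fintype.card_fin]
    push_cast
    rfl
  rw [hcard, Finset.card_eq_sum_card_fiberwise hmaps]
  push_cast
  calc ∑ K ∈ T, (((Fintype.piFinset (fun _ : Fin j => S)).filter
        (fun f => ∏ i, f i = K)).card : ℝ) ≤ ∑ _K ∈ T, C ^ j * y ^ η := Finset.sum_le_sum hfib
    _ = T.card * (C ^ j * y ^ η) := by rw [Finset.sum_const, nsmul_eq_mul]
    _ ≤ ((y ^ j / q + 1) * Nat.card H) * (C ^ j * y ^ η) :=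
        mul_le_mul_of_nonneg_right hTc (by positivity)
    _ = _ := by ring

/-- the block estimate -/
theorem c_block (hS : S_DIV) {ε : ℝ} (hε : 0 < ε) (hε4 : ε < 1 / 4) :
    ∃ K : ℝ, 0 < K ∧ ∀ (q : ℕ) [NeZero q] (d e : ℕ), e ≤ d →
      (q : ℝ) ^ (3 / 4 + ε) ≤ d → ∀ (a : (ZMod q)ˣ) (H : Subgroup (ZMod q)ˣ),
      e * Nat.card H ≤ q → ∀ Y : ℝ, 1 ≤ Y → (q : ℝ) ^ (ε / 2) < Y →
      (e : ℝ) * (SC q a H ⌊Y⌋₊).card * Y ^ (-1 / 2 + ε / 16) *
        Real.exp (-(Y / (2 * (q : ℝ) ^ (3 / 2 + ε / 2)))) ≤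
        K * (d * (q : ℝ) ^ (-(ε ^ 2 / 4))) * Y ^ (-(ε ^ 2 / 4) / 2) := by
  have hη : 0 < ε / 16 := by positivity
  have hδ : 0 < ε ^ 2 / 4 := by positivity
  set J : ℕ := ⌈1 / ε⌉₊ with hJdef
  have hJ1 : 1 ≤ ε * J := by
    have h1 : 1 / ε ≤ J := Nat.le_ceil _
    have h2 : ε * (1 / ε) = 1 := by field_simp
    nlinarith
  have hJ2 : (J : ℝ) * (ε ^ 2 / 4) ≤ 5 * ε / 16 := by
    have h1 : (J : ℝ) < 1 / ε + 1 := Nat.ceil_lt_add_one (by positivity)
    have h3 : (1 / ε + 1) * (ε ^ 2 / 4) = ε / 4 + ε ^ 2 / 4 := by field_simp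
    nlinarith
  have hex : ∀ j : ℕ, ∃ C : ℝ, 0 < C ∧ (1 ≤ j → ∀ (q : ℕ) [NeZero q] (a : (ZMod q)ˣ)
      (H : Subgroup (ZMod q)ˣ) (y : ℝ), 1 ≤ y →
        ((SC q a H ⌊y⌋₊).card : ℝ) ^ j ≤ C * y ^ (ε / 16) * (y ^ j / q + 1) * Nat.card H) := by
    intro j
    by_cases hj : 1 ≤ j
    · obtain ⟨C, hC0, hC1⟩ := c_count hS j hj (ε / 16) hη
      exact ⟨C, hC0, fun _ => hC1⟩
    · exact ⟨1, one_pos, fun h => absurd h hj⟩
  choose Cj hCj0 hCj using hex
  set K : ℝ := 1 + ∑ j ∈ Finset.range (J + 1), Cj j with hK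
  have hKj : ∀ j, j ≤ J → Cj j ≤ K := by
    intro j hj
    have h1 : Cj j ≤ ∑ j ∈ Finset.range (J + 1), Cj j :=
      Finset.single_le_sum (f := Cj) (fun i _ => (hCj0 i).le) (by simp; omega)
    linarith
  have hK1 : 1 ≤ K := by
    have : 0 ≤ ∑ j ∈ Finset.range (J + 1), Cj j := Finset.sum_nonneg fun i _ => (hCj0 i).le
    linarith
  refine ⟨4 * K, by positivity, ?_⟩
  intro q hq d e hed hd a H hH Y hY1 hYB
  have hqp : 0 < q := Nat.pos_of_ne_zero (NeZero.ne q)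
  have hQ1 : (1 : ℝ) ≤ q := by exact_mod_cast hqp
  have hE : (e : ℝ) ≤ d := by exact_mod_cast hed
  have hEh : (e : ℝ) * (Nat.card H : ℝ) ≤ q := by exact_mod_cast hH
  have hY0 : 0 < Y := by linarith
  have hcK : ∀ j : ℕ, 1 ≤ j → j ≤ J → ((SC q a H ⌊Y⌋₊).card : ℝ) ^ j ≤
      K * Y ^ (ε / 16) * (Y ^ j / q + 1) * Nat.card H := by
    intro j hj hjJ
    refine (hCj j hj q a H Y hY1).trans ?_
    have := hKj j hjJ
    gcongr
  have hJpos : 1 ≤ J := by
    rcases Nat.eq_zero_or_pos J with h0 | h0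
    · rw [h0] at hJ1
      norm_num at hJ1
    · exact h0
  rcases le_or_gt ((q : ℝ) ^ (1 / 2 : ℝ)) Y with h | h
  · refine (case1 (ε := ε) (η := ε / 16) (δ := ε ^ 2 / 4) (Q := q) (D := d) (Y := Y)
      (c := (SC q a H ⌊Y⌋₊).card) (E := e) (h := Nat.card H) (K := K) hε hε4 hη.le hδ ?_ hQ1 hd
      (Nat.cast_nonneg _) hE hEh (by linarith) h ?_)
    · nlinarith
    · have := hcK 1 le_rfl hJpos
      simpa using this
  · have hQ : (1 : ℝ) < q := by
      rcases hQ1.eq_or_lt with h1 | h1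
      · rw [← h1, Real.one_rpow] at h
        linarith
      · exact h1
    have h2 := case2 (ε := ε) (η := ε / 16) (δ := ε ^ 2 / 4) (Q := q) (D := d) (Y := Y)
      (c := (SC q a H ⌊Y⌋₊).card) (E := e) (h := Nat.card H) (K := K) (J := J) hε hε4 hη.le hδ
      (by nlinarith) (by nlinarith) hJ1 hQ hd
      (Nat.cast_nonneg _) (Nat.cast_nonneg _) hE hEh hK1 h hY1 hYB hcK
    have h3 : Real.exp (-(Y / (2 * (q : ℝ) ^ (3 / 2 + ε / 2)))) ≤ 1 := by
      rw [Real.exp_le_one_iff]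
      have : 0 ≤ Y / (2 * (q : ℝ) ^ (3 / 2 + ε / 2)) := by positivity
      linarith
    refine le_trans ?_ h2
    exact mul_le_of_le_one_right (by positivity) h3

theorem c_fiber (q : ℕ) (a : (ZMod q)ˣ) (H : Subgroup (ZMod q)ˣ) {B Z η : ℝ} (hB : 0 < B)
    (hZ : 0 < Z) (hη : η ≤ 1 / 2) (hη0 : 0 ≤ η) (F : Finset ℕ) (i : ℕ)
    (hF : ∀ k ∈ F, Nat.log 2 k = i) (hFc : ∀ k ∈ F, B < k ∧ PC q a H k) :
    ∑ k ∈ F, (k : ℝ) ^ (-1 / 2 + η) * Real.exp (-(k / Z)) ≤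
      if B < (2 : ℝ) ^ (i + 1) then
        2 * ((SC q a H ⌊(2 : ℝ) ^ (i + 1)⌋₊).card * ((2 : ℝ) ^ (i + 1)) ^ (-1 / 2 + η) *
          Real.exp (-((2 : ℝ) ^ (i + 1) / (2 * Z)))) else 0 := by
  classical
  set f : ℕ → ℝ := fun k : ℕ => (k : ℝ) ^ (-1 / 2 + η) * Real.exp (-(k / Z)) with hf
  set w : ℝ := ((2 : ℝ) ^ i) ^ (-1 / 2 + η) * Real.exp (-((2 : ℝ) ^ i / Z)) with hw
  have hw0 : 0 ≤ w := by positivity
  have hpos : ∀ k ∈ F, 0 < k := by
    intro k hk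
    have h1 : B < k := (hFc k hk).1
    have : (0 : ℝ) < k := hB.trans h1
    exact_mod_cast this
  have hle : ∀ k ∈ F, f k ≤ w := by
    intro k hk
    have hk0 := hpos k hk
    have h1 : 2 ^ i ≤ k := by
      rw [← hF k hk]; exact Nat.pow_log_le_self 2 hk0.ne'
    have h2 : (2 : ℝ) ^ i ≤ k := by exact_mod_cast h1
    apply mul_le_mul
    · exact Real.rpow_le_rpow_of_nonpos (by positivity) h2 (by linarith)
    · apply Real.exp_le_exp.mpr
      have : (2 : ℝ) ^ i / Z ≤ k / Z := by gcongr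
      linarith
    · exact (Real.exp_pos _).le
    · positivity
  have hlt : ∀ k ∈ F, (k : ℝ) ≤ (2 : ℝ) ^ (i + 1) := by
    intro k hk
    have h1 : k < 2 ^ (i + 1) := by
      rw [← hF k hk]; exact Nat.lt_pow_succ_log_self (by norm_num) k
    exact_mod_cast h1.le
  split_ifs with hBi
  · have h1 : ∑ k ∈ F, f k ≤ F.card * w := by
      rw [← nsmul_eq_mul]
      exact Finset.sum_le_card_nsmul _ _ _ hle
    have h2 : F.card ≤ (SC q a H ⌊(2 : ℝ) ^ (i + 1)⌋₊).card := by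
      apply Finset.card_le_card
      intro k hk
      rw [mem_SC]
      exact ⟨⟨hpos k hk, Nat.le_floor (hlt k hk)⟩, (hFc k hk).2⟩
    have h3 : w ≤ 2 * (((2 : ℝ) ^ (i + 1)) ^ (-1 / 2 + η) *
          Real.exp (-((2 : ℝ) ^ (i + 1) / (2 * Z)))) := by
      have h4 : (2 : ℝ) ^ (i + 1) / (2 * Z) = (2 : ℝ) ^ i / Z := by
        rw [pow_succ]; field_simp
      rw [h4, hw, ← mul_assoc]
      apply mul_le_mul_of_nonneg_right _ (Real.exp_pos _).le
      have h5 : ((2 : ℝ) ^ (i + 1)) ^ (-1 / 2 + η) =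
          ((2 : ℝ) ^ i) ^ (-1 / 2 + η) * (2 : ℝ) ^ (-1 / 2 + η) := by
        rw [pow_succ, Real.mul_rpow (by positivity) (by norm_num)]
      rw [h5]
      have h6 : 1 ≤ 2 * (2 : ℝ) ^ (-1 / 2 + η) := by
        have : 2 * (2 : ℝ) ^ (-1 / 2 + η) = (2 : ℝ) ^ (1 + (-1 / 2 + η)) := by
          rw [Real.rpow_add (by norm_num) 1 (-1 / 2 + η), Real.rpow_one]
        rw [this]
        exact Real.one_le_rpow (by norm_num) (by linarith)
      have h7 : 0 ≤ ((2 : ℝ) ^ i) ^ (-1 / 2 + η) := by positivity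
      nlinarith
    calc ∑ k ∈ F, f k ≤ F.card * w := h1
      _ ≤ (SC q a H ⌊(2 : ℝ) ^ (i + 1)⌋₊).card * (2 * (((2 : ℝ) ^ (i + 1)) ^ (-1 / 2 + η) *
          Real.exp (-((2 : ℝ) ^ (i + 1) / (2 * Z))))) := by
          have : (F.card : ℝ) ≤ (SC q a H ⌊(2 : ℝ) ^ (i + 1)⌋₊).card := by exact_mod_cast h2
          gcongr
      _ = _ := by ring
  · have : F = ∅ := by
      rw [Finset.eq_empty_iff_forall_notMem]
      intro k hk
      exact hBi (lt_of_lt_of_le (hFc k hk).1 (hlt k hk))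
    rw [this, Finset.sum_empty]

/-- the tail of the sum over a coset -/
theorem c_tail (hS : S_DIV) {ε : ℝ} (hε : 0 < ε) (hε4 : ε < 1 / 4) :
    ∃ C : ℝ, 0 < C ∧ ∀ (q : ℕ) [NeZero q] (d e : ℕ), e ≤ d →
      (q : ℝ) ^ (3 / 4 + ε) ≤ d → ∀ (a : (ZMod q)ˣ) (H : Subgroup (ZMod q)ˣ),
      e * Nat.card H ≤ q → ∀ T : Finset ℕ,
      (∀ k ∈ T, (q : ℝ) ^ (ε / 2) < k ∧ PC q a H k) →
      (e : ℝ) * ∑ k ∈ T, (k : ℝ) ^ (-1 / 2 + ε / 16) *
        Real.exp (-(k / (q : ℝ) ^ (3 / 2 + ε / 2))) ≤ C * d * (q : ℝ) ^ (-(ε ^ 2 / 4)) := by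
  classical
  obtain ⟨K, hK, hb⟩ := c_block hS hε hε4
  have hδ : 0 < ε ^ 2 / 4 := by positivity
  set δ := ε ^ 2 / 4 with hδd
  set r : ℝ := (2 : ℝ) ^ (-δ / 2) with hr
  have hr0 : 0 < r := Real.rpow_pos_of_pos (by norm_num) _
  have hr1 : r < 1 := Real.rpow_lt_one_of_one_lt_of_neg (by norm_num) (by linarith)
  refine ⟨2 * K * (1 - r)⁻¹, by have := sub_pos.mpr hr1; positivity, ?_⟩
  intro q hq d e hed hd a H hH T hT
  have hqp : 0 < q := Nat.pos_of_ne_zero (NeZero.ne q)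
  have hQ0 : (0 : ℝ) < q := by exact_mod_cast hqp
  have hB0 : 0 < (q : ℝ) ^ (ε / 2) := Real.rpow_pos_of_pos hQ0 _
  have hZ0 : 0 < (q : ℝ) ^ (3 / 2 + ε / 2) := Real.rpow_pos_of_pos hQ0 _
  have hblock : ∀ Y : ℝ, 1 ≤ Y → (q : ℝ) ^ (ε / 2) < Y →
      (e : ℝ) * (SC q a H ⌊Y⌋₊).card * Y ^ (-1 / 2 + ε / 16) *
        Real.exp (-(Y / (2 * (q : ℝ) ^ (3 / 2 + ε / 2)))) ≤
        K * (d * (q : ℝ) ^ (-δ)) * Y ^ (-δ / 2) := hb q d e hed hd a H hH
  set B := (q : ℝ) ^ (ε / 2) with hB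
  set Z := (q : ℝ) ^ (3 / 2 + ε / 2) with hZ
  set A := (d : ℝ) * (q : ℝ) ^ (-δ) with hA
  have hA0 : 0 ≤ A := by positivity
  have hgoal : 2 * K * (1 - r)⁻¹ * d * (q : ℝ) ^ (-δ) = 2 * K * A * (1 - r)⁻¹ := by
    rw [hA]; ring
  rw [hgoal]
  obtain ⟨n, hn⟩ : ∃ n : ℕ, ∀ k ∈ T, k < n := by
    obtain ⟨n, hn⟩ := T.exists_nat_subset_range
    exact ⟨n, fun k hk => Finset.mem_range.1 (hn hk)⟩
  have hfib : ∑ k ∈ T, (k : ℝ) ^ (-1 / 2 + ε / 16) * Real.exp (-(k / Z)) =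
      ∑ i ∈ Finset.range (n + 1), ∑ k ∈ T.filter (fun k => Nat.log 2 k = i),
        (k : ℝ) ^ (-1 / 2 + ε / 16) * Real.exp (-(k / Z)) := by
    symm
    apply Finset.sum_fiberwise_of_maps_to
    intro k hk
    rw [Finset.mem_range]
    have := Nat.log_le_self 2 k
    have := hn k hk
    omega
  rw [hfib, Finset.mul_sum]
  have hterm : ∀ i ∈ Finset.range (n + 1), (e : ℝ) *
      (∑ k ∈ T.filter (fun k => Nat.log 2 k = i),
        (k : ℝ) ^ (-1 / 2 + ε / 16) * Real.exp (-(k / Z))) ≤ 2 * K * A * r ^ i := by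
    intro i _
    have h1 := c_fiber q a H hB0 hZ0 (η := ε / 16) (by linarith) (by positivity)
      (T.filter (fun k => Nat.log 2 k = i)) i (fun k hk => (Finset.mem_filter.mp hk).2)
      (fun k hk => hT k (Finset.mem_filter.mp hk).1)
    refine (mul_le_mul_of_nonneg_left h1 (Nat.cast_nonneg _)).trans ?_
    split_ifs with hBi
    · have h2 := hblock ((2 : ℝ) ^ (i + 1)) (one_le_pow₀ (by norm_num)) hBi
      have h3 : ((2 : ℝ) ^ (i + 1)) ^ (-δ / 2) ≤ r ^ i := by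
        have h4 : ((2 : ℝ) ^ (i + 1)) ^ (-δ / 2) = r ^ (i + 1) := by
          rw [hr, ← Real.rpow_natCast, ← Real.rpow_natCast, ← Real.rpow_mul (by norm_num),
            ← Real.rpow_mul (by norm_num), mul_comm]
        rw [h4, pow_succ]
        exact mul_le_of_le_one_right (by positivity) hr1.le
      calc _ = 2 * ((e : ℝ) * (SC q a H ⌊(2 : ℝ) ^ (i + 1)⌋₊).card *
              ((2 : ℝ) ^ (i + 1)) ^ (-1 / 2 + ε / 16)
              * Real.exp (-((2 : ℝ) ^ (i + 1) / (2 * Z)))) := by ring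
        _ ≤ 2 * (K * A * ((2 : ℝ) ^ (i + 1)) ^ (-δ / 2)) := by linarith
        _ ≤ 2 * (K * A * r ^ i) := by
            have : K * A * ((2 : ℝ) ^ (i + 1)) ^ (-δ / 2) ≤ K * A * r ^ i :=
              mul_le_mul_of_nonneg_left h3 (by positivity)
            linarith
        _ = _ := by ring
    · rw [mul_zero]; positivity
  refine (Finset.sum_le_sum hterm).trans ?_
  rw [← Finset.mul_sum]
  apply mul_le_mul_of_nonneg_left _ (by positivity)
  rw [← tsum_geometric_of_lt_one hr0.le hr1]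
  exact (summable_geometric_of_lt_one hr0.le hr1).sum_le_tsum _ (fun i _ => by positivity)

end Pool.Agent.X284.LI
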