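import Pool.Agent.X284.LI.MainC
import Pool.Agent.X284.LI.Tail

/-!
# The main part for characters of large order, when there are no small solutions
-/
set_option autoImplicit false

namespace Pool.Agent.X284.LI

open Finset
open Pool.Agent.W192.CY
open Pool.Agent.W916.CY (ai ai_abs ai_one EE EE_pos summ_EE filt_card tau_le tau_mono)
open Pool.Agent.W55.CY (VV VV_abs VV_one)
open Pool.Agent.W372.CY (AA AA_norm AA_one sum_cg ai_nonneg)

/-- `(n b) ^ k = n0 ^ k` modulo `q` has only the solution `n b = n0` with `1 ≤ k ≤ q ^ (1/4)` and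
`n ≤ q ^ (ε / 2)` -/
def NS (q : ℕ) (ε : ℝ) (b n0 : ℕ) : Prop :=
  ∀ k : ℕ, 1 ≤ k → (k : ℝ) ≤ (q : ℝ) ^ (1 / 4 : ℝ) → ∀ n : ℕ, (n : ℝ) ≤ (q : ℝ) ^ (ε / 2) →
    n * b ≠ n0 → ((n * b : ℕ) : ZMod q) ^ k ≠ (n0 : ZMod q) ^ k

/-- the series over a coset: the main term is the term `n = n0 / b` -/
theorem one_beta2 (hS : S_DIV) {ε : ℝ} (hε : 0 < ε) (hε4 : ε < 1 / 4) {V : ℝ → ℝ} {CV : ℝ}
    (hV : VW V CV) {c : ℕ → ℂ} (hc : Cb c) :
    ∃ C : ℝ, 0 < C ∧ ∀ (q : ℕ) [NeZero q] (χ₀ : DirichletCharacter ℂ q) (t e d b n0 β : ℕ),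
      e ≤ d → (q : ℝ) ^ (3 / 4 + ε) ≤ d → e * Nat.card (Hg q χ₀ e) ≤ q → 1 ≤ b →
      Nat.Coprime b q → ((β * n0 : ℕ) : ZMod q) = b → NS q ε b n0 →
      (e : ℝ) * ‖∑' n : ℕ, AA q χ₀ t e (β * n) * GG V c ((q : ℝ) ^ (3 / 2 : ℝ)) n -
        (if b ∣ n0 then GG V c ((q : ℝ) ^ (3 / 2 : ℝ)) (n0 / b) else 0)‖ ≤
        C * (d * (q : ℝ) ^ (-(ε ^ 2 / 4))) := by
  classical
  have hCV := hV.pos
  obtain ⟨C1, hC1, hτ, -⟩ := hS (ε / 16) (by positivity)
  obtain ⟨K, hK, htail⟩ := c_tail hS hε hε4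
  refine ⟨CV * C1 * (1 + K), by positivity, ?_⟩
  intro q _ χ₀ t e d b n0 β hed hd hH hb hbq hβ hNS
  have hη : 0 < ε / 16 := by positivity
  have hη' : ε / 16 < 1 / 8 := by linarith
  have hq1 : 1 ≤ q := Nat.one_le_iff_ne_zero.2 (NeZero.ne q)
  have hqR : (1 : ℝ) ≤ q := by exact_mod_cast hq1
  have hqpos : (0 : ℝ) < q := by linarith
  obtain ⟨X, hXd⟩ : ∃ X : ℝ, X = (q : ℝ) ^ (3 / 2 : ℝ) := ⟨_, rfl⟩
  have hX : 0 < X := by rw [hXd]; positivity
  rw [← hXd]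
  have hbu : IsUnit (b : ZMod q) := (ZMod.isUnit_iff_coprime b q).2 hbq
  have hβu : IsUnit (β : ZMod q) := by
    rw [← hβ, Nat.cast_mul] at hbu
    exact isUnit_of_mul_isUnit_left hbu
  let f : ℕ → ℂ := fun n => AA q χ₀ t e (β * n) * GG V c X n
  have hA1 : ∀ n, ‖AA q χ₀ t e (β * n)‖ ≤ 1 := fun n =>
    (AA_norm q χ₀ t e _).trans ((le_abs_self _).trans (ai_abs _ _ _))
  have hfn : Summable (fun n => ‖f n‖) := GG_summ hV hc hX _ hA1
  let g : ℕ → ℂ := fun n => if n * b = n0 then 0 else f n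
  have hgf : ∀ n, ‖g n‖ ≤ ‖f n‖ := by
    intro n
    show ‖if n * b = n0 then (0 : ℂ) else f n‖ ≤ _
    split_ifs
    · rw [norm_zero]; exact norm_nonneg _
    · exact le_rfl
  have hgn : Summable (fun n => ‖g n‖) :=
    Summable.of_nonneg_of_le (fun n => norm_nonneg _) hgf hfn
  have hsplit : ∑' n : ℕ, f n = (if b ∣ n0 then GG V c X (n0 / b) else 0) + ∑' n, g n := by
    by_cases hd : b ∣ n0
    · rw [if_pos hd]
      obtain ⟨n1, hn1⟩ := hd
      have e1 : n0 / b = n1 := by rw [hn1, Nat.mul_div_cancel_left n1 hb]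
      rw [e1, hfn.of_norm.tsum_eq_add_tsum_ite n1]
      congr 1
      · show AA q χ₀ t e (β * n1) * GG V c X n1 = _
        rw [AA_cast χ₀ t e, one_mul]
        have h2 : (b : ZMod q) * ((β * n1 : ℕ) : ZMod q) = b * 1 := by
          have h3 : ((β * n0 : ℕ) : ZMod q) = b := hβ
          rw [hn1] at h3
          push_cast at h3
          push_cast
          rw [mul_one]
          calc (b : ZMod q) * (β * n1) = β * (b * n1) := by ring
            _ = b := h3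
        exact hbu.mul_left_cancel h2
      · refine tsum_congr fun n => ?_
        show (if n = n1 then 0 else f n) = if n * b = n0 then 0 else f n
        have : n = n1 ↔ n * b = n0 := by
          rw [hn1, mul_comm b n1]
          exact ⟨fun h => by rw [h], fun h => Nat.eq_of_mul_eq_mul_right hb h⟩
        simp only [this]
    · rw [if_neg hd, zero_add]
      refine tsum_congr fun n => ?_
      show f n = if n * b = n0 then 0 else f n
      rw [if_neg]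
      rintro rfl
      exact hd (Dvd.intro_left n rfl)
  have e0 : ∑' n : ℕ, AA q χ₀ t e (β * n) * GG V c X n = ∑' n : ℕ, f n := rfl
  rw [e0, hsplit, add_sub_cancel_left]
  have hgood : ∀ n, g n ≠ 0 → n * b ≠ n0 ∧ n ≠ 0 ∧
      ∃ u ∈ Hg q χ₀ e, ((u : (ZMod q)ˣ) : ZMod q) = ((β * n : ℕ) : ZMod q) := by
    intro n hn
    have h4 : ¬ n * b = n0 := by
      intro h5
      apply hn
      show (if n * b = n0 then (0 : ℂ) else f n) = 0
      rw [if_pos h5]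
    refine ⟨h4, ?_, ?_⟩
    · rintro rfl
      apply hn
      show (if 0 * b = n0 then (0 : ℂ) else f 0) = 0
      rw [if_neg h4]
      show AA q χ₀ t e (β * 0) * GG V c X 0 = 0
      unfold GG
      rw [hc.zero]
      simp
    · by_contra hcon
      apply hn
      show (if n * b = n0 then (0 : ℂ) else f n) = 0
      rw [if_neg h4]
      show AA q χ₀ t e (β * n) * GG V c X n = 0
      have h6 : AA q χ₀ t e (β * n) = 0 := by
        unfold AA ai
        rw [if_neg hcon]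
        simp
      rw [h6, zero_mul]
  have hgb : ∀ n, ‖g n‖ ≤ CV * C1 * ((n : ℝ) ^ (-1 / 2 + ε / 16) * EE X n) := by
    intro n
    refine (hgf n).trans ?_
    show ‖AA q χ₀ t e (β * n) * GG V c X n‖ ≤ _
    rw [norm_mul]
    refine (mul_le_of_le_one_left (norm_nonneg _) (hA1 n)).trans ?_
    exact GG_norm hV hc hη hη' hC1 hτ hX n
  have hd2 : (q : ℝ) ^ (3 / 4 + ε / 2) ≤ d * (q : ℝ) ^ (-(ε ^ 2 / 4)) := by
    calc (q : ℝ) ^ (3 / 4 + ε / 2) ≤ (q : ℝ) ^ (3 / 4 + ε) * (q : ℝ) ^ (-(ε ^ 2 / 4)) := by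
          rw [← Real.rpow_add hqpos]
          exact Real.rpow_le_rpow_of_exponent_le hqR (by nlinarith)
      _ ≤ _ := by gcongr
  have hfin : ∀ T : Finset ℕ, (e : ℝ) * ∑ n ∈ T, ‖g n‖ ≤
      CV * C1 * (1 + K) * (d * (q : ℝ) ^ (-(ε ^ 2 / 4))) := by
    intro T
    have h1 : ∑ n ∈ T, ‖g n‖ = ∑ n ∈ T.filter (fun n => g n ≠ 0), ‖g n‖ := by
      rw [sum_filter]
      refine sum_congr rfl fun n _ => ?_
      split_ifs with h2
      · rfl
      · rw [not_not] at h2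
        rw [h2, norm_zero]
    rw [h1, ← sum_filter_add_sum_filter_not (T.filter (fun n => g n ≠ 0))
      (fun n : ℕ => (n : ℝ) ≤ (q : ℝ) ^ (ε / 2)), mul_add]
    have hsmall : (e : ℝ) * ∑ n ∈ (T.filter (fun n => g n ≠ 0)).filter
        (fun n : ℕ => (n : ℝ) ≤ (q : ℝ) ^ (ε / 2)), ‖g n‖ ≤
        CV * C1 * (d * (q : ℝ) ^ (-(ε ^ 2 / 4))) := by
      rcases le_or_gt ((q : ℝ) ^ (3 / 4 : ℝ)) e with he | he
      · have hemp : (T.filter (fun n => g n ≠ 0)).filter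
            (fun n : ℕ => (n : ℝ) ≤ (q : ℝ) ^ (ε / 2)) = ∅ := by
          rw [Finset.eq_empty_iff_forall_notMem]
          intro n hn
          rw [mem_filter, mem_filter] at hn
          obtain ⟨⟨-, hn1⟩, hn2⟩ := hn
          obtain ⟨h3, -, u, huH, hu⟩ := hgood n hn1
          have hc1 : 0 < Nat.card (Hg q χ₀ e) := Nat.card_pos
          have h4 : (Nat.card (Hg q χ₀ e) : ℝ) ≤ (q : ℝ) ^ (1 / 4 : ℝ) := by
            have h5 : (e : ℝ) * Nat.card (Hg q χ₀ e) ≤ q := by exact_mod_cast hH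
            have h6 : (q : ℝ) ^ (3 / 4 : ℝ) * Nat.card (Hg q χ₀ e) ≤ q :=
              (mul_le_mul_of_nonneg_right he (by positivity)).trans h5
            have h7 : (q : ℝ) = (q : ℝ) ^ (3 / 4 : ℝ) * (q : ℝ) ^ (1 / 4 : ℝ) := by
              rw [← Real.rpow_add hqpos]
              norm_num
            rw [h7] at h6
            nth_rewrite 2 [← h7] at h6
            have h8 : (0 : ℝ) < (q : ℝ) ^ (3 / 4 : ℝ) := by positivity
            have h9 : (q : ℝ) ^ (3 / 4 : ℝ) * Nat.card (Hg q χ₀ e) ≤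
                (q : ℝ) ^ (3 / 4 : ℝ) * (q : ℝ) ^ (1 / 4 : ℝ) := by
              rw [← h7]
              exact (mul_le_mul_of_nonneg_right he (by positivity)).trans h5
            exact le_of_mul_le_mul_left h9 h8
          have h5 : u ^ Nat.card (Hg q χ₀ e) = 1 := by
            have h2 : (⟨u, huH⟩ : Hg q χ₀ e) ^ Nat.card (Hg q χ₀ e) = 1 := pow_card_eq_one'
            exact congrArg Subtype.val h2
          have h6 : ((β * n : ℕ) : ZMod q) ^ Nat.card (Hg q χ₀ e) = 1 := by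
            rw [← hu, ← Units.val_pow_eq_pow_val, h5, Units.val_one]
          refine hNS _ hc1 h4 n hn2 h3 ?_
          push_cast
          rw [← hβ]
          push_cast
          push_cast at h6
          calc ((n : ZMod q) * (β * n0)) ^ Nat.card (Hg q χ₀ e) =
                (β * n) ^ Nat.card (Hg q χ₀ e) * (n0 : ZMod q) ^ Nat.card (Hg q χ₀ e) := by ring
            _ = _ := by rw [h6, one_mul]
        rw [hemp, sum_empty, mul_zero]
        positivity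
      · have h3 : ∀ n ∈ (T.filter (fun n => g n ≠ 0)).filter
            (fun n : ℕ => (n : ℝ) ≤ (q : ℝ) ^ (ε / 2)), ‖g n‖ ≤ CV * C1 := by
          intro n hn
          rw [mem_filter, mem_filter] at hn
          have hn0 := (hgood n hn.1.2).2.1
          have hn1 : (1 : ℝ) ≤ n := by exact_mod_cast Nat.one_le_iff_ne_zero.2 hn0
          refine (hgb n).trans ?_
          have h4 : (n : ℝ) ^ (-1 / 2 + ε / 16) ≤ 1 :=
            Real.rpow_le_one_of_one_le_of_nonpos hn1 (by linarith)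
          have h5 : EE X n ≤ 1 := by
            unfold EE
            rw [Real.exp_le_one_iff, neg_nonpos]
            positivity
          calc CV * C1 * ((n : ℝ) ^ (-1 / 2 + ε / 16) * EE X n) ≤ CV * C1 * (1 * 1) := by
                have := (EE_pos X n).le
                gcongr
            _ = _ := by ring
        have hcard : (((T.filter (fun n => g n ≠ 0)).filter
            (fun n : ℕ => (n : ℝ) ≤ (q : ℝ) ^ (ε / 2))).card : ℝ) ≤ (q : ℝ) ^ (ε / 2) := by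
          have h4 : (T.filter (fun n => g n ≠ 0)).filter
              (fun n : ℕ => (n : ℝ) ≤ (q : ℝ) ^ (ε / 2)) ⊆ Icc 1 ⌊(q : ℝ) ^ (ε / 2)⌋₊ := by
            intro n hn
            rw [mem_filter, mem_filter] at hn
            have hn0 := (hgood n hn.1.2).2.1
            rw [mem_Icc]
            exact ⟨Nat.one_le_iff_ne_zero.2 hn0, Nat.le_floor hn.2⟩
          have h5 := card_le_card h4
          rw [Nat.card_Icc, Nat.add_sub_cancel] at h5
          have h6 : (((T.filter (fun n => g n ≠ 0)).filter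
            (fun n : ℕ => (n : ℝ) ≤ (q : ℝ) ^ (ε / 2))).card : ℝ) ≤ (⌊(q : ℝ) ^ (ε / 2)⌋₊ : ℝ) := by
            exact_mod_cast h5
          exact h6.trans (Nat.floor_le (by positivity))
        have h4 := sum_le_card_nsmul _ _ _ h3
        rw [nsmul_eq_mul] at h4
        calc _ ≤ (q : ℝ) ^ (3 / 4 : ℝ) * ((q : ℝ) ^ (ε / 2) * (CV * C1)) := by
              refine mul_le_mul he.le (h4.trans ?_) (sum_nonneg fun _ _ => norm_nonneg _)
                (by positivity)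
              gcongr
          _ = CV * C1 * (q : ℝ) ^ (3 / 4 + ε / 2) := by
              rw [Real.rpow_add hqpos]
              ring
          _ ≤ _ := by gcongr
    have hlarge : (e : ℝ) * ∑ n ∈ (T.filter (fun n => g n ≠ 0)).filter
        (fun n : ℕ => ¬ (n : ℝ) ≤ (q : ℝ) ^ (ε / 2)), ‖g n‖ ≤
        CV * C1 * (K * d * (q : ℝ) ^ (-(ε ^ 2 / 4))) := by
      obtain ⟨γ, hγ⟩ := hβu
      have h3 := htail q d e hed hd γ⁻¹ (Hg q χ₀ e) hH ((T.filter (fun n => g n ≠ 0)).filter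
        (fun n : ℕ => ¬ (n : ℝ) ≤ (q : ℝ) ^ (ε / 2))) (by
          intro n hn
          rw [mem_filter, mem_filter] at hn
          obtain ⟨⟨-, hn1⟩, hn2⟩ := hn
          obtain ⟨-, -, u, huH, hu⟩ := hgood n hn1
          refine ⟨not_le.1 hn2, u, huH, ?_⟩
          rw [Units.val_mul, hu, Nat.cast_mul, ← hγ, ← mul_assoc, Units.inv_mul, one_mul])
      refine le_trans ?_ (mul_le_mul_of_nonneg_left h3 (by positivity : 0 ≤ CV * C1))
      rw [mul_left_comm]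
      refine mul_le_mul_of_nonneg_left ?_ (Nat.cast_nonneg _)
      rw [mul_sum]
      refine sum_le_sum fun n _ => ?_
      refine (hgb n).trans ?_
      have h4 : EE X n ≤ Real.exp (-((n : ℝ) / (q : ℝ) ^ (3 / 2 + ε / 2))) := by
        unfold EE
        apply Real.exp_le_exp.2
        apply neg_le_neg
        have h5 : X ≤ (q : ℝ) ^ (3 / 2 + ε / 2) := by
          rw [hXd]
          exact Real.rpow_le_rpow_of_exponent_le hqR (by linarith)
        gcongr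
      gcongr
    calc _ ≤ CV * C1 * (d * (q : ℝ) ^ (-(ε ^ 2 / 4))) +
          CV * C1 * (K * d * (q : ℝ) ^ (-(ε ^ 2 / 4))) := add_le_add hsmall hlarge
      _ = _ := by ring
  rcases Nat.eq_zero_or_pos e with he0 | he0
  · rw [he0, Nat.cast_zero, zero_mul]
    positivity
  · have heR : (0 : ℝ) < e := by exact_mod_cast he0
    have h1 : ∑' n, ‖g n‖ ≤ CV * C1 * (1 + K) * (d * (q : ℝ) ^ (-(ε ^ 2 / 4))) / e := by
      refine hgn.tsum_le_of_sum_le fun T => ?_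
      rw [le_div_iff₀ heR, mul_comm]
      exact hfin T
    have h2 := (norm_tsum_le_tsum_norm hgn).trans h1
    rw [le_div_iff₀ heR, mul_comm] at h2
    exact h2

theorem main_beta2 (h1 : S_DIV) (h2 : G_ORTH) (h3 : M_MOB) {ε : ℝ} (hε : 0 < ε) (hε4 : ε < 1 / 4)
    {V : ℝ → ℝ} {CV : ℝ} (hV : VW V CV) {c : ℕ → ℂ} (hc : Cb c) {b n0 : ℕ} (hb : 1 ≤ b) :
    ∃ C : ℝ, 0 < C ∧ ∀ (q : ℕ) [NeZero q], Nat.Coprime b q →
      ∀ β : ℕ, ((β * n0 : ℕ) : ZMod q) = b → NS q ε b n0 →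
      ∀ (χ₀ : DirichletCharacter ℂ q) (M : ℕ), 1 ≤ M → M ∣ orderOf χ₀ →
      (q : ℝ) ^ (3 / 4 + ε) ≤ orderOf χ₀ →
      ‖∑ χ ∈ Em q χ₀ M, χ (β : ZMod q) * (∑' n : ℕ, χ (n : ZMod q) * c n / n *
          (V (n / ((q : ℝ) ^ (3 / 2 : ℝ) / 2)) : ℂ)) -
        ((Em q χ₀ M).card : ℂ) * (if b ∣ n0 then c (n0 / b) / ((n0 / b : ℕ) : ℂ) else 0)‖ ≤
      C * orderOf χ₀ * (q : ℝ) ^ (-(ε ^ 2 / 8)) := by
  classical
  have hCV := hV.pos
  obtain ⟨C3, hC3, hone⟩ := one_beta2 h1 hε hε4 hV hc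
  obtain ⟨ρ, hρ⟩ : ∃ ρ : ℝ, ρ = ε ^ 2 / 8 := ⟨_, rfl⟩
  have hρ0 : 0 < ρ := by rw [hρ]; positivity
  have hρ1 : ρ ≤ 1 / 16 := by rw [hρ]; nlinarith
  obtain ⟨C2, hC2, hτ2, -⟩ := h1 ρ hρ0
  obtain ⟨z, hz⟩ : ∃ z : ℂ, z = if b ∣ n0 then c (n0 / b) / ((n0 / b : ℕ) : ℂ) else 0 := ⟨_, rfl⟩
  refine ⟨C2 * C3 + ‖z‖ * (2 * CV * n0) + 1, by positivity, ?_⟩
  intro q _ hbq β hβ hNS χ₀ M hM1 hMd hdq
  have hq1 : 1 ≤ q := Nat.one_le_iff_ne_zero.2 (NeZero.ne q)
  have hqR : (1 : ℝ) ≤ q := by exact_mod_cast hq1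
  have hqpos : (0 : ℝ) < q := by linarith
  obtain ⟨X, hXdef⟩ : ∃ X : ℝ, X = (q : ℝ) ^ (3 / 2 : ℝ) := ⟨_, rfl⟩
  have hX : 0 < X := by rw [hXdef]; positivity
  rw [← hXdef, ← hz]
  obtain ⟨d, hddef⟩ : ∃ d : ℕ, d = orderOf χ₀ := ⟨_, rfl⟩
  have hdpos : 0 < d := by rw [hddef]; exact orderOf_pos χ₀
  have hdR : (0 : ℝ) < d := by exact_mod_cast hdpos
  obtain ⟨t, hcardM, hmob⟩ := h3 q χ₀ M hM1 hMd
  have hcard : ∀ e : ℕ, e ∣ orderOf χ₀ → e * Nat.card (Hg q χ₀ e) ≤ q := fun e he =>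
    (h2 q χ₀ e he).1.le.trans (Nat.totient_le q)
  have hdle : d ≤ q := by
    have g1 := hcard (orderOf χ₀) dvd_rfl
    have g2 : 0 < Nat.card (Hg q χ₀ (orderOf χ₀)) := Nat.card_pos
    rw [← hddef] at g1 g2
    exact (Nat.le_mul_of_pos_right d g2).trans g1
  obtain ⟨R, hRdef⟩ : ∃ R : Finset ℕ, R = (orderOf χ₀).divisors.filter
    (fun r => Nat.Coprime r M) := ⟨_, rfl⟩
  have hRM : ∀ r ∈ R, r * M ∣ orderOf χ₀ := by
    intro r hr
    rw [hRdef, mem_filter, Nat.mem_divisors] at hr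
    exact Nat.Coprime.mul_dvd_of_dvd_of_dvd hr.2 hr.1.1 hMd
  have hRd : ∀ r ∈ R, (orderOf χ₀ / (r * M)) ∣ orderOf χ₀ := fun r hr =>
    Nat.div_dvd_of_dvd (hRM r hr)
  have hRcard : R.card ≤ (orderOf χ₀).divisors.card := by
    rw [hRdef]
    exact card_filter_le _ _
  -- the number of characters
  have hEm : ((Em q χ₀ M).card : ℂ) = ∑ r ∈ R, ((ArithmeticFunction.moebius r : ℤ) : ℂ) *
      ((orderOf χ₀ / (r * M) : ℕ) : ℂ) := by
    have g1 := hmob (fun _ => 1)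
    rw [← hRdef] at g1
    simp only [sum_const, nsmul_eq_mul, mul_one] at g1
    rw [g1]
    refine sum_congr rfl fun r hr => ?_
    congr 1
    have g2 := ((h2 q χ₀ _ (hRd r hr)).2 1).1 (one_mem _)
    simpa using g2
  have hEmle : ((Em q χ₀ M).card : ℝ) ≤ d := by
    have g1 : 0 < Nat.totient M := Nat.totient_pos.2 hM1
    have g2 : (Em q χ₀ M).card ≤ (Em q χ₀ M).card * Nat.totient M := Nat.le_mul_of_pos_right _ g1
    have g3 := Nat.totient_le (orderOf χ₀)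
    rw [hcardM] at g2
    rw [← hddef] at g2 g3
    exact_mod_cast g2.trans g3
  -- the sum
  have hSum : ∑ χ ∈ Em q χ₀ M, χ (β : ZMod q) * (∑' n : ℕ, χ (n : ZMod q) * c n / n *
        (V (n / (X / 2)) : ℂ)) =
      ∑ r ∈ R, ((ArithmeticFunction.moebius r : ℤ) : ℂ) *
        (((orderOf χ₀ / (r * M) : ℕ) : ℂ) * ∑' n : ℕ,
          AA q χ₀ (t r) (orderOf χ₀ / (r * M)) (β * n) * GG V c X n) := by
    rw [hmob (fun χ => χ (β : ZMod q) * (∑' n : ℕ, χ (n : ZMod q) * c n / n *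
          (V (n / (X / 2)) : ℂ))), ← hRdef]
    refine sum_congr rfl fun r hr => ?_
    rw [one_rB h2 hV hc q χ₀ X hX (t r) _ (hRd r hr) β]
  obtain ⟨zV, hzV⟩ : ∃ zV : ℂ, zV = if b ∣ n0 then GG V c X (n0 / b) else 0 := ⟨_, rfl⟩
  have hzz : ‖zV - z‖ ≤ ‖z‖ * (2 * CV * n0) * (q : ℝ) ^ (-(3 / 2) : ℝ) := by
    have hXi : (q : ℝ) ^ (-(3 / 2) : ℝ) = 1 / X := by
      rw [hXdef, Real.rpow_neg hqpos.le, one_div]
    rw [hXi, hzV, hz]
    split_ifs with hd
    · have e1 : GG V c X (n0 / b) - c (n0 / b) / ((n0 / b : ℕ) : ℂ) =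
          c (n0 / b) / ((n0 / b : ℕ) : ℂ) * ((VV V X (n0 / b) - 1 : ℝ) : ℂ) := by
        unfold GG
        push_cast
        ring
      rw [e1, norm_mul, Complex.norm_real, Real.norm_eq_abs, mul_assoc]
      refine mul_le_mul_of_nonneg_left ?_ (norm_nonneg _)
      refine (VV_one hV X hX _).trans ?_
      have h5 : ((n0 / b : ℕ) : ℝ) ≤ n0 := by exact_mod_cast Nat.div_le_self n0 b
      rw [mul_one_div]
      calc 2 * CV * (((n0 / b : ℕ) : ℝ) / X) ≤ 2 * CV * ((n0 : ℝ) / X) := by gcongr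
        _ = _ := by ring
    · simp
  obtain ⟨E, hE⟩ : ∃ E : ℝ, E = C3 * (d * (q : ℝ) ^ (-(2 * ρ))) := ⟨_, rfl⟩
  have hE0 : 0 ≤ E := by rw [hE]; positivity
  have hP : ∀ r ∈ R, ‖((ArithmeticFunction.moebius r : ℤ) : ℂ) *
      (((orderOf χ₀ / (r * M) : ℕ) : ℂ) * (∑' n : ℕ,
        AA q χ₀ (t r) (orderOf χ₀ / (r * M)) (β * n) * GG V c X n - zV))‖ ≤ E := by
    intro r hr
    obtain ⟨e, he⟩ : ∃ e : ℕ, e = orderOf χ₀ / (r * M) := ⟨_, rfl⟩
    have hed := hRd r hr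
    rw [← he] at hed ⊢
    have hele : e ≤ d := by
      rw [hddef]
      exact Nat.le_of_dvd (orderOf_pos χ₀) hed
    have b1 := hone q χ₀ (t r) e d b n0 β hele (by rw [hddef]; exact hdq) (hcard e hed) hb hbq hβ
      hNS
    rw [← hXdef, ← hzV] at b1
    have g1 : |((ArithmeticFunction.moebius r : ℤ) : ℝ)| ≤ 1 := by
      have := ArithmeticFunction.abs_moebius_le_one (n := r)
      exact_mod_cast this
    have e4 : ε ^ 2 / 4 = 2 * ρ := by rw [hρ]; ring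
    rw [e4, ← hE] at b1
    rw [norm_mul, norm_mul, Complex.norm_natCast, Complex.norm_intCast]
    calc |((ArithmeticFunction.moebius r : ℤ) : ℝ)| * ((e : ℝ) * ‖∑' n : ℕ,
          AA q χ₀ (t r) e (β * n) * GG V c X n - zV‖) ≤ 1 * E := by
          gcongr
      _ = _ := one_mul _
  have hsplit : ∑ r ∈ R, ((ArithmeticFunction.moebius r : ℤ) : ℂ) *
        (((orderOf χ₀ / (r * M) : ℕ) : ℂ) * ∑' n : ℕ,
          AA q χ₀ (t r) (orderOf χ₀ / (r * M)) (β * n) * GG V c X n) -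
      ((Em q χ₀ M).card : ℂ) * z =
      ∑ r ∈ R, ((ArithmeticFunction.moebius r : ℤ) : ℂ) *
        (((orderOf χ₀ / (r * M) : ℕ) : ℂ) * (∑' n : ℕ,
          AA q χ₀ (t r) (orderOf χ₀ / (r * M)) (β * n) * GG V c X n - zV)) +
      ((Em q χ₀ M).card : ℂ) * (zV - z) := by
    rw [mul_sub, hEm, sum_mul, sum_mul, add_sub, ← sum_add_distrib]
    congr 1
    refine sum_congr rfl (fun e _ => ?_)
    ring
  rw [hSum, hsplit]
  have hτd : (R.card : ℝ) ≤ C2 * (q : ℝ) ^ ρ := by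
    have g0 : (R.card : ℝ) ≤ (d.divisors.card : ℝ) := by
      rw [hddef]
      exact_mod_cast hRcard
    refine g0.trans ((hτ2 d hdpos).trans ?_)
    have : (d : ℝ) ≤ q := by exact_mod_cast hdle
    gcongr
  have hmain : ‖∑ r ∈ R, ((ArithmeticFunction.moebius r : ℤ) : ℂ) *
        (((orderOf χ₀ / (r * M) : ℕ) : ℂ) * (∑' n : ℕ,
          AA q χ₀ (t r) (orderOf χ₀ / (r * M)) (β * n) * GG V c X n - zV))‖ ≤ R.card * E := by
    refine (norm_sum_le _ _).trans ((sum_le_sum hP).trans ?_)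
    rw [sum_const, nsmul_eq_mul]
  have hq2 : (q : ℝ) ^ (-(3 / 2) : ℝ) ≤ (q : ℝ) ^ (-ρ) :=
    Real.rpow_le_rpow_of_exponent_le hqR (by linarith)
  have hn4 : (q : ℝ) ^ ρ * (q : ℝ) ^ (-(2 * ρ)) = (q : ℝ) ^ (-ρ) := by
    rw [← Real.rpow_add hqpos]
    congr 1
    ring
  rw [← hρ, ← hddef]
  rw [← hddef] at hmain
  calc _ ≤ R.card * E + d * (‖z‖ * (2 * CV * n0) * (q : ℝ) ^ (-(3 / 2) : ℝ)) := by
        refine (norm_add_le _ _).trans (add_le_add hmain ?_)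
        rw [norm_mul, Complex.norm_natCast]
        gcongr
    _ ≤ (C2 * (q : ℝ) ^ ρ) * (C3 * (d * (q : ℝ) ^ (-(2 * ρ)))) +
        d * (‖z‖ * (2 * CV * n0) * (q : ℝ) ^ (-ρ)) := by
        rw [← hE]
        gcongr
    _ = C2 * C3 * d * ((q : ℝ) ^ ρ * (q : ℝ) ^ (-(2 * ρ))) +
        ‖z‖ * (2 * CV * n0) * d * (q : ℝ) ^ (-ρ) := by ring
    _ = (C2 * C3 + ‖z‖ * (2 * CV * n0)) * (d * (q : ℝ) ^ (-ρ)) := by
        rw [hn4]; ring
    _ ≤ (C2 * C3 + ‖z‖ * (2 * CV * n0) + 1) * (d * (q : ℝ) ^ (-ρ)) :=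
        mul_le_mul_of_nonneg_right (by linarith) (by positivity)
    _ = _ := by ring

end Pool.Agent.X284.LI
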